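import Pool.Agent.H87.NN.Defs

/-!
# Algebra of the resampling operators (module NN-ALG)

`Rs w i` resamples one site, `Ex w B` all sites of `B`. All statements are proved by
`Finset.induction_on` using `Ex_insert` (and `Ex_insert'`, the same with the new site innermost).
-/

open Finset

namespace NN

variable {V E : Type*} [Fintype E] [DecidableEq V]

section Rs

variable {w w' : V → Finset E → ℝ} {i j : V} {F G : (V → Finset E) → ℝ} {ω : V → Finset E}

theorem Rs_mono (hw : ∀ s, 0 ≤ w i s) (h : ∀ ω, F ω ≤ G ω) (ω) : Rs w i F ω ≤ Rs w i G ω :=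
  Finset.sum_le_sum fun s _ => mul_le_mul_of_nonneg_left (h _) (hw s)

theorem Rs_nonneg (hw : ∀ s, 0 ≤ w i s) (h : ∀ ω, 0 ≤ F ω) (ω) : 0 ≤ Rs w i F ω :=
  Finset.sum_nonneg fun s _ => mul_nonneg (hw s) (h _)

theorem Rs_add : Rs w i (fun ω => F ω + G ω) = fun ω => Rs w i F ω + Rs w i G ω := by
  funext ω; simp only [Rs, mul_add, Finset.sum_add_distrib]

theorem Rs_sub : Rs w i (fun ω => F ω - G ω) = fun ω => Rs w i F ω - Rs w i G ω := by
  funext ω; simp only [Rs, mul_sub, Finset.sum_sub_distrib]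

theorem Rs_smul (c : ℝ) : Rs w i (fun ω => c * F ω) = fun ω => c * Rs w i F ω := by
  funext ω; simp only [Rs, Finset.mul_sum]
  exact Finset.sum_congr rfl fun s _ => by ring

theorem Rs_sum {ι : Type*} (s : Finset ι) (F : ι → (V → Finset E) → ℝ) :
    Rs w i (fun ω => ∑ k ∈ s, F k ω) = fun ω => ∑ k ∈ s, Rs w i (F k) ω := by
  funext ω; simp only [Rs, Finset.mul_sum]
  exact Finset.sum_comm

/-- a factor which does not depend on the site `i` comes out -/
theorem Rs_mul_left (hF : ∀ ω s, F (Function.update ω i s) = F ω) :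
    Rs w i (fun ω => F ω * G ω) = fun ω => F ω * Rs w i G ω := by
  funext ω; simp only [Rs, Finset.mul_sum]
  exact Finset.sum_congr rfl fun s _ => by rw [hF]; ring

theorem Rs_of_indep (hF : ∀ ω s, F (Function.update ω i s) = F ω) :
    Rs w i F = fun ω => (∑ s, w i s) * F ω := by
  funext ω; simp only [Rs, Finset.sum_mul]
  exact Finset.sum_congr rfl fun s _ => by rw [hF]

theorem Rs_indep (ω s) : Rs w i F (Function.update ω i s) = Rs w i F ω := by
  simp only [Rs, Function.update_idem]

end Rs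

variable {w w' : V → Finset E → ℝ} {B B' B₁ B₂ : Finset V} {F G : (V → Finset E) → ℝ}

@[simp] theorem Ex_empty : Ex w ∅ F = F := rfl

theorem Ex_insert {i : V} (h : i ∉ B) : Ex w (insert i B) F = Rs w i (Ex w B F) := by
  unfold Ex
  rw [Finset.insert_val_of_notMem h, Multiset.foldr_cons]

theorem Rs_Ex_comm {i : V} (hi : i ∉ B) (F : (V → Finset E) → ℝ) :
    Rs w' i (Ex w B F) = Ex w B (Rs w' i F) := by
  induction B using Finset.induction_on with
  | empty => rfl
  | insert j B hj ih =>
    have hij : i ≠ j := fun h => hi (h ▸ Finset.mem_insert_self _ _)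
    rw [Ex_insert hj, Ex_insert hj, Rs_comm w' w hij,
      ih fun h => hi (Finset.mem_insert_of_mem h)]

theorem Ex_insert' {i : V} (h : i ∉ B) : Ex w (insert i B) F = Ex w B (Rs w i F) := by
  rw [Ex_insert h, Rs_Ex_comm h]

/-- `Ex` only uses the laws of the sites of `B` -/
theorem Ex_congr_law (h : ∀ i ∈ B, w i = w' i) : Ex w B F = Ex w' B F := by
  induction B using Finset.induction_on with
  | empty => rfl
  | insert j B hj ih =>
    rw [Ex_insert hj, Ex_insert hj, ih fun i hi => h i (Finset.mem_insert_of_mem hi)]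
    funext ω
    simp only [Rs, h j (Finset.mem_insert_self _ _)]

theorem Ex_mono (hw : ∀ i ∈ B, ∀ s, 0 ≤ w i s) (h : ∀ ω, F ω ≤ G ω) (ω) :
    Ex w B F ω ≤ Ex w B G ω := by
  induction B using Finset.induction_on generalizing ω with
  | empty => exact h ω
  | insert j B hj ih =>
    rw [Ex_insert hj, Ex_insert hj]
    exact Rs_mono (hw j (Finset.mem_insert_self _ _))
      (ih fun i hi => hw i (Finset.mem_insert_of_mem hi)) ω

theorem Ex_nonneg (hw : ∀ i ∈ B, ∀ s, 0 ≤ w i s) (h : ∀ ω, 0 ≤ F ω) (ω) : 0 ≤ Ex w B F ω := by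
  induction B using Finset.induction_on generalizing ω with
  | empty => exact h ω
  | insert j B hj ih =>
    rw [Ex_insert hj]
    exact Rs_nonneg (hw j (Finset.mem_insert_self _ _))
      (ih fun i hi => hw i (Finset.mem_insert_of_mem hi)) ω

theorem Ex_add : Ex w B (fun ω => F ω + G ω) = fun ω => Ex w B F ω + Ex w B G ω := by
  induction B using Finset.induction_on with
  | empty => rfl
  | insert j B hj ih => rw [Ex_insert hj, Ex_insert hj, Ex_insert hj, ih, Rs_add]

theorem Ex_sub : Ex w B (fun ω => F ω - G ω) = fun ω => Ex w B F ω - Ex w B G ω := by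
  induction B using Finset.induction_on with
  | empty => rfl
  | insert j B hj ih => rw [Ex_insert hj, Ex_insert hj, Ex_insert hj, ih, Rs_sub]

theorem Ex_smul (c : ℝ) : Ex w B (fun ω => c * F ω) = fun ω => c * Ex w B F ω := by
  induction B using Finset.induction_on with
  | empty => rfl
  | insert j B hj ih => rw [Ex_insert hj, Ex_insert hj, ih, Rs_smul]

theorem Ex_sum {ι : Type*} (s : Finset ι) (F : ι → (V → Finset E) → ℝ) :
    Ex w B (fun ω => ∑ k ∈ s, F k ω) = fun ω => ∑ k ∈ s, Ex w B (F k) ω := by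
  induction B using Finset.induction_on with
  | empty => rfl
  | insert j B hj ih =>
    rw [Ex_insert hj, ih, Rs_sum]
    funext ω
    exact Finset.sum_congr rfl fun k _ => by rw [Ex_insert hj]

/-- expectation of a constant (the laws may be unnormalised) -/
theorem Ex_const (c : ℝ) : Ex w B (fun _ => c) = fun _ => (∏ i ∈ B, ∑ s, w i s) * c := by
  induction B using Finset.induction_on with
  | empty => simp
  | insert j B hj ih =>
    rw [Ex_insert hj, ih, Rs_of_indep (fun _ _ => rfl)]
    funext ω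
    rw [Finset.prod_insert hj]
    ring

/-- `Ex w B F` does not depend on the sites of `B` -/
theorem Ex_dependsOn {S : Set V} (hF : DependsOn F S) : DependsOn (Ex w B F) (S \ B) := by
  induction B using Finset.induction_on with
  | empty => simpa using hF
  | insert j B hj ih =>
    rw [Ex_insert hj]
    intro ω ω' h
    refine Finset.sum_congr rfl fun s _ => ?_
    congr 1
    refine ih fun i hi => ?_
    rcases eq_or_ne i j with rfl | hij
    · simp
    · rw [Function.update_of_ne hij, Function.update_of_ne hij]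
      refine h i ⟨hi.1, ?_⟩
      simp only [Finset.coe_insert, Set.mem_insert_iff, not_or]
      exact ⟨hij, hi.2⟩

/-- resampling sites on which `F` does not depend changes nothing -/
theorem Ex_of_indep {S : Set V} (hF : DependsOn F S) (hS : ∀ i ∈ B, i ∉ S)
    (hw : ∀ i ∈ B, ∑ s, w i s = 1) : Ex w B F = F := by
  induction B using Finset.induction_on with
  | empty => rfl
  | insert j B hj ih =>
    rw [Ex_insert hj, ih (fun i hi => hS i (Finset.mem_insert_of_mem hi))
      (fun i hi => hw i (Finset.mem_insert_of_mem hi)), Rs_of_indep,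
      hw j (Finset.mem_insert_self _ _)]
    · simp
    · intro ω s
      refine hF fun i hi => ?_
      rw [Function.update_of_ne]
      rintro rfl
      exact hS _ (Finset.mem_insert_self _ _) hi

theorem Ex_union (h : Disjoint B₁ B₂) : Ex w (B₁ ∪ B₂) F = Ex w B₁ (Ex w B₂ F) := by
  induction B₁ using Finset.induction_on with
  | empty => simp
  | insert j B hj ih =>
    rw [Finset.disjoint_insert_left] at h
    rw [Finset.insert_union, Ex_insert, Ex_insert hj, ih h.2]
    rw [Finset.mem_union, not_or]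
    exact ⟨hj, h.1⟩

/-- only the sites on which `F` depends matter -/
theorem Ex_restrict (hB : B' ⊆ B) (hF : DependsOn F (B' : Set V))
    (hw : ∀ i ∈ B, ∑ s, w i s = 1) : Ex w B F = Ex w B' F := by
  conv_lhs => rw [← Finset.union_sdiff_of_subset hB]
  rw [Ex_union Finset.disjoint_sdiff, Ex_of_indep hF]
  · intro i hi h
    exact (Finset.mem_sdiff.1 hi).2 h
  · intro i hi
    exact hw i (Finset.mem_sdiff.1 hi).1

/-- independence -/
theorem Ex_mul {S₁ S₂ : Set V} (hF : DependsOn F S₁) (hG : DependsOn G S₂)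
    (hB : Disjoint B₁ B₂) (h₁ : ∀ i ∈ B₂, i ∉ S₁) (h₂ : ∀ i ∈ B₁, i ∉ S₂) (ω) :
    Ex w (B₁ ∪ B₂) (fun ω => F ω * G ω) ω = Ex w B₁ F ω * Ex w B₂ G ω := by
  have hmul2 : ∀ B : Finset V, (∀ i ∈ B, i ∉ S₁) →
      Ex w B (fun ω => F ω * G ω) = fun ω => F ω * Ex w B G ω := by
    intro B hB
    induction B using Finset.induction_on with
    | empty => rfl
    | insert j B hj ih =>
      rw [Ex_insert hj, Ex_insert hj, ih fun i hi => hB i (Finset.mem_insert_of_mem hi),
        Rs_mul_left]
      intro ω s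
      refine hF fun i hi => ?_
      rw [Function.update_of_ne]
      rintro rfl
      exact hB _ (Finset.mem_insert_self _ _) hi
  have hG' := Ex_dependsOn (w := w) (B := B₂) hG
  have hmul1 : ∀ B : Finset V, (∀ i ∈ B, i ∉ S₂) →
      Ex w B (fun ω => Ex w B₂ G ω * F ω) = fun ω => Ex w B₂ G ω * Ex w B F ω := by
    intro B hB
    induction B using Finset.induction_on with
    | empty => rfl
    | insert j B hj ih =>
      rw [Ex_insert hj, Ex_insert hj, ih fun i hi => hB i (Finset.mem_insert_of_mem hi),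
        Rs_mul_left]
      intro ω s
      refine hG' fun i hi => ?_
      rw [Function.update_of_ne]
      rintro rfl
      exact hB _ (Finset.mem_insert_self _ _) hi.1
  rw [Ex_union hB, hmul2 B₂ h₁]
  have : (fun ω => F ω * Ex w B₂ G ω) = fun ω => Ex w B₂ G ω * F ω := by
    funext ω; ring
  rw [this, hmul1 B₁ h₂]
  ring

/-- resampling twice -/
theorem Ex_Ex (hB : B' ⊆ B) (hw : ∀ i ∈ B, ∑ s, w i s = 1) : Ex w B (Ex w B' F) = Ex w B F := by
  conv_lhs => rw [← Finset.sdiff_union_of_subset hB]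
  conv_rhs => rw [← Finset.sdiff_union_of_subset hB]
  rw [Ex_union Finset.sdiff_disjoint, Ex_union Finset.sdiff_disjoint]
  congr 1
  refine Ex_of_indep (Ex_dependsOn (S := Set.univ) (dependsOn_univ F)) ?_ fun i hi => hw i (hB hi)
  intro i hi h
  exact h.2 hi

/-! ### Probabilities -/

variable {A A' : (V → Finset E) → Prop}

theorem Pr_nonneg (hw : ∀ i ∈ B, ∀ s, 0 ≤ w i s) : 0 ≤ Pr w B A :=
  Ex_nonneg hw (fun _ => ind_nonneg _) _

theorem Pr_mono (hw : ∀ i ∈ B, ∀ s, 0 ≤ w i s) (h : ∀ ω, A ω → A' ω) : Pr w B A ≤ Pr w B A' :=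
  Ex_mono hw (fun ω => ind_mono (h ω)) _

theorem Pr_le_one (hw : ∀ i ∈ B, ∀ s, 0 ≤ w i s) (h1 : ∀ i ∈ B, ∑ s, w i s = 1) :
    Pr w B A ≤ 1 := by
  have h := Ex_mono hw (F := fun ω => ind (A ω)) (G := fun _ => 1) (fun ω => ind_le_one _)
    (fun _ => ∅)
  rw [Ex_const] at h
  refine h.trans (le_of_eq ?_)
  rw [mul_one]
  exact Finset.prod_eq_one h1

theorem Pr_not (h1 : ∀ i ∈ B, ∑ s, w i s = 1) : Pr w B (fun ω => ¬ A ω) = 1 - Pr w B A := by
  unfold Pr
  have : (fun ω => ind (¬ A ω)) = fun ω => (fun _ => (1 : ℝ)) ω - ind (A ω) := by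
    funext ω; exact ind_not _
  rw [this, Ex_sub, Ex_const]
  rw [Finset.prod_eq_one h1, mul_one]

theorem Pr_restrict (hB : B' ⊆ B) (hA : DependsOn A (B' : Set V))
    (hw : ∀ i ∈ B, ∑ s, w i s = 1) : Pr w B A = Pr w B' A := by
  unfold Pr
  rw [Ex_restrict hB (F := fun ω => ind (A ω)) (fun _ _ h => congrArg ind (hA h)) hw]

theorem Pr_and {S₁ S₂ : Set V} (hA : DependsOn A S₁) (hA' : DependsOn A' S₂)
    (hB : Disjoint B₁ B₂) (h₁ : ∀ i ∈ B₂, i ∉ S₁) (h₂ : ∀ i ∈ B₁, i ∉ S₂) :
    Pr w (B₁ ∪ B₂) (fun ω => A ω ∧ A' ω) = Pr w B₁ A * Pr w B₂ A' := by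
  unfold Pr
  rw [← Ex_mul (F := fun ω => ind (A ω)) (G := fun ω => ind (A' ω))
    (fun _ _ h => congrArg ind (hA h)) (fun _ _ h => congrArg ind (hA' h)) hB h₁ h₂]
  simp only [ind_and]

end NN
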