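import Pool.Agent.H87.NN.Alg

/-!
# Algebra of the resampling operators, continued (module NN-ALG2)

* `Ex_eq_sum`: induction on `B` (or `Finset.induction_on` with `Fintype.sum` over
  `↥(insert i B) → Finset E`; an equivalence `(↥(insert i B) → X) ≃ X × (↥B → X)`, see
  `Equiv.piOptionEquivProd`/`Fintype.sum_equiv`; alternatively prove it first for sums over
  `Finset.pi`/`Fintype.piFinset`).
* `Ex_map`: induction on `B`, one site: `update ω (τ i) s ∘ τ = update (ω ∘ τ) i s`.
* `hasDerivAt_Ex`: induction on `B` with the derivative in the form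
  `∑ i ∈ B, Ex (mix t) B (Rs (w1 - w0) i F) ω` for all `ω`; for the new site `i`,
  `Ex (insert i B) F ω = ∑ s, mix t s * Ex B F (update ω i s)`, product rule, and
  `∑ s, (w1 s - w0 s) * Ex B F (update ω i s) = Rs (w1 - w0) i (Ex B F) ω
   = Ex (insert i B) (Rs (w1 - w0) i F) ω` (commute `Rs` with `Ex B`, and resampling `i` once more changes
  nothing because `Rs _ i F` does not depend on `i` and `mix t` has mass `1`).
* `le_Ex_of_agree`: induction on `B`; for `insert i B`, keep only the term `s = ω' i`.
* `Ex_tilt`, `Ex_scale`: induction on `B`.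
-/

open Finset

namespace NN

variable {V E : Type*} [Fintype E] [DecidableEq V]

variable {w w' : V → Finset E → ℝ} {B B' B₁ B₂ : Finset V} {F G : (V → Finset E) → ℝ}

/-- a configuration of `insert i B` is one of `i` and one of `B` -/
def insEquiv {X : Type*} {i : V} {B : Finset V} (hi : i ∉ B) :
    (X × (B → X)) ≃ (↥(insert i B) → X) where
  toFun p j := if h : j.1 = i then p.1 else p.2 ⟨j.1, Finset.mem_of_mem_insert_of_ne j.2 h⟩
  invFun τ := (τ ⟨i, Finset.mem_insert_self i B⟩, fun j => τ ⟨j.1, Finset.mem_insert_of_mem j.2⟩)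
  left_inv := by
    rintro ⟨s, σ⟩
    refine Prod.ext ?_ (funext fun j => ?_)
    · simp
    · have : j.1 ≠ i := fun h => hi (h ▸ j.2)
      simp [this]
  right_inv := by
    intro τ
    funext j
    by_cases h : j.1 = i
    · have h2 : j = ⟨i, Finset.mem_insert_self i B⟩ := Subtype.ext h
      rw [h2]
      simp
    · simp [h]

theorem insEquiv_prod {X : Type*} {i : V} {B : Finset V} (hi : i ∉ B) (f : V → X → ℝ) (x : X)
    (σ : B → X) : ∏ j : ↥(insert i B), f j.1 (insEquiv hi (x, σ) j) =
      f i x * ∏ j : B, f j.1 (σ j) := by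
  have h1 : ∀ j : ↥(insert i B), f j.1 (insEquiv hi (x, σ) j) =
      (fun y => f y (if h : y ∈ B then σ ⟨y, h⟩ else x)) j.1 := by
    intro j
    dsimp only
    congr 1
    by_cases h : j.1 = i
    · have h2 : j.1 ∉ B := fun h3 => hi (h ▸ h3)
      simp [insEquiv, h, hi]
    · have h2 : j.1 ∈ B := Finset.mem_of_mem_insert_of_ne j.2 h
      simp [insEquiv, h, h2]
  rw [Finset.prod_congr rfl fun j _ => h1 j,
    Finset.prod_coe_sort (insert i B) fun y => f y (if h : y ∈ B then σ ⟨y, h⟩ else x),
    Finset.prod_insert hi]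
  congr 1
  · rw [dif_neg hi]
  · rw [← Finset.prod_coe_sort B]
    refine Finset.prod_congr rfl fun j _ => ?_
    rw [dif_pos j.2]

/-- `Ex` as a sum over all configurations of `B` -/
theorem Ex_eq_sum (ω : V → Finset E) :
    Ex w B F ω = ∑ σ : B → Finset E, (∏ i, w i.1 (σ i)) *
      F (fun x => if h : x ∈ B then σ ⟨x, h⟩ else ω x) := by
  induction B using Finset.induction_on generalizing ω with
  | empty => simp
  | insert i B hi ih =>
    rw [Ex_insert hi]
    simp only [Rs, ih]
    rw [← (insEquiv (X := Finset E) hi).sum_comp, Fintype.sum_prod_type]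
    refine Finset.sum_congr rfl fun s _ => ?_
    rw [Finset.mul_sum]
    refine Finset.sum_congr rfl fun σ _ => ?_
    rw [insEquiv_prod hi w, mul_assoc]
    congr 3
    funext x
    by_cases hx : x ∈ B
    · have h1 : x ≠ i := fun h => hi (h ▸ hx)
      simp [insEquiv, hx, h1]
    · by_cases h1 : x = i
      · subst h1
        simp [insEquiv, hx]
      · simp [hx, h1]

/-- invariance under a permutation `τ` of the sites: `Ex` over `τ(B)` of `F` is `Ex` over `B`
of `F ∘ (· ∘ τ⁻¹)` -/
theorem Ex_map (τ : V ≃ V) (hw : ∀ i, w (τ i) = w i) (ω : V → Finset E) :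
    Ex w (B.map τ.toEmbedding) F ω = Ex w B (fun η => F (η ∘ τ.symm)) (ω ∘ τ) := by
  induction B using Finset.induction_on generalizing ω with
  | empty =>
    simp only [Finset.map_empty, Ex_empty]
    congr 1
    funext x
    simp
  | insert i B hi ih =>
    rw [Finset.map_insert, Ex_insert (by simpa using hi), Ex_insert hi]
    simp only [Rs, ih]
    refine Finset.sum_congr rfl fun s _ => ?_
    change w (τ i) s * _ = _
    rw [hw]
    congr 2
    funext x
    by_cases hx : x = i
    · subst hx
      simp
    · have : τ x ≠ τ i := fun h => hx (τ.injective h)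
      simp [hx]

/-- the derivative of an expectation for a mixture of two laws -/
theorem hasDerivAt_Ex {w0 w1 : Finset E → ℝ} (h0 : ∑ s, w0 s = 1) (h1 : ∑ s, w1 s = 1)
    (ω : V → Finset E) (t : ℝ) :
    HasDerivAt (fun t : ℝ => Ex (fun _ s => (1 - t) * w0 s + t * w1 s) B F ω)
      (∑ i ∈ B, Ex (fun _ s => (1 - t) * w0 s + t * w1 s) B
        (Rs (fun _ s => w1 s - w0 s) i F) ω) t := by
  induction B using Finset.induction_on generalizing ω with
  | empty =>
    simp only [Ex_empty, Finset.sum_empty]
    exact hasDerivAt_const t _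
  | insert i B hi ih =>
    have hmix : ∀ s, HasDerivAt (fun t : ℝ => (1 - t) * w0 s + t * w1 s) (w1 s - w0 s) t := by
      intro s
      have h2 := (((hasDerivAt_id t).const_sub 1).mul_const (w0 s)).add
        ((hasDerivAt_id t).mul_const (w1 s))
      refine h2.congr_deriv ?_
      ring
    have hmass : ∑ s, ((1 - t) * w0 s + t * w1 s) = 1 := by
      rw [Finset.sum_add_distrib, ← Finset.mul_sum, ← Finset.mul_sum, h0, h1]
      ring
    have hterm : ∀ s ∈ (Finset.univ : Finset (Finset E)),
        HasDerivAt (fun t : ℝ => ((1 - t) * w0 s + t * w1 s) *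
          Ex (fun _ s => (1 - t) * w0 s + t * w1 s) B F (Function.update ω i s))
        ((w1 s - w0 s) * Ex (fun _ s => (1 - t) * w0 s + t * w1 s) B F (Function.update ω i s) +
          ((1 - t) * w0 s + t * w1 s) * ∑ j ∈ B, Ex (fun _ s => (1 - t) * w0 s + t * w1 s) B
            (Rs (fun _ s => w1 s - w0 s) j F) (Function.update ω i s)) t := fun s _ =>
      (hmix s).mul (ih (Function.update ω i s))
    have hsum := HasDerivAt.fun_sum hterm
    have hfun : (fun t : ℝ => Ex (fun _ s => (1 - t) * w0 s + t * w1 s) (insert i B) F ω) =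
        fun t : ℝ => ∑ s : Finset E, ((1 - t) * w0 s + t * w1 s) *
          Ex (fun _ s => (1 - t) * w0 s + t * w1 s) B F (Function.update ω i s) := by
      funext t
      rw [Ex_insert hi]
      rfl
    rw [hfun]
    refine hsum.congr_deriv ?_
    rw [Finset.sum_add_distrib, Finset.sum_insert hi]
    congr 1
    · rw [Ex_insert hi, ← Rs_Ex_comm hi]
      rw [Rs_of_indep (fun η s => Rs_indep η s), hmass]
      show _ = 1 * _
      rw [one_mul]
      rfl
    · simp only [Ex_insert hi, Finset.mul_sum]
      rw [Finset.sum_comm]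
      rfl

/-- changing the configuration on the finite set `B` costs at most a constant factor -/
theorem le_Ex_of_agree {c : ℝ} (hc : 0 < c) (hw : ∀ i ∈ B, ∀ s, c ≤ w i s) (hF : ∀ ω, 0 ≤ F ω)
    (ω ω' : V → Finset E) (h : ∀ i ∉ B, ω' i = ω i) : c ^ B.card * F ω' ≤ Ex w B F ω := by
  induction B using Finset.induction_on generalizing ω with
  | empty =>
    have h2 : ω' = ω := funext fun i => h i (Finset.notMem_empty i)
    rw [Ex_empty, Finset.card_empty, pow_zero, one_mul, h2]
  | insert i B hi ih =>
    rw [Ex_insert hi, Finset.card_insert_of_notMem hi, pow_succ']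
    have hw' : ∀ j ∈ B, ∀ s, c ≤ w j s := fun j hj => hw j (Finset.mem_insert_of_mem hj)
    have h2 : c ^ B.card * F ω' ≤ Ex w B F (Function.update ω i (ω' i)) := by
      refine ih hw' _ fun j hj => ?_
      by_cases hji : j = i
      · subst hji
        rw [Function.update_self]
      · rw [Function.update_of_ne hji]
        exact h j fun h3 => (Finset.mem_insert.1 h3).elim hji hj
    have h3 : ∀ s, 0 ≤ w i s * Ex w B F (Function.update ω i s) := fun s =>
      mul_nonneg (hc.le.trans (hw i (Finset.mem_insert_self i B) s))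
        (Ex_nonneg (fun j hj s => hc.le.trans (hw' j hj s)) hF _)
    calc c * c ^ B.card * F ω' = c * (c ^ B.card * F ω') := by ring
      _ ≤ w i (ω' i) * Ex w B F (Function.update ω i (ω' i)) :=
        mul_le_mul (hw i (Finset.mem_insert_self i B) _) h2
          (mul_nonneg (pow_nonneg hc.le _) (hF _))
          (hc.le.trans (hw i (Finset.mem_insert_self i B) _))
      _ ≤ _ := Finset.single_le_sum (f := fun s => w i s * Ex w B F (Function.update ω i s))
        (fun s _ => h3 s) (Finset.mem_univ (ω' i))

theorem Ex_mul_left {f G : (V → Finset E) → ℝ}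
    (hf : ∀ j ∈ B, ∀ ω s, f (Function.update ω j s) = f ω) :
    Ex w B (fun ω => f ω * G ω) = fun ω => f ω * Ex w B G ω := by
  induction B using Finset.induction_on with
  | empty => rfl
  | insert i B hi ih =>
    rw [Ex_insert hi, ih fun j hj => hf j (Finset.mem_insert_of_mem hj),
      Rs_mul_left (hf i (Finset.mem_insert_self i B)), Ex_insert hi]

/-- tilting the laws by a product of functions of one site -/
theorem Ex_tilt (g : V → Finset E → ℝ) :
    Ex w B (fun ω => (∏ z ∈ B, g z (ω z)) * F ω) = Ex (fun z s => w z s * g z s) B F := by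
  induction B using Finset.induction_on with
  | empty =>
    funext ω
    simp
  | insert i B hi ih =>
    have h1 : (fun ω : V → Finset E => (∏ z ∈ insert i B, g z (ω z)) * F ω) =
        fun ω => g i (ω i) * ((∏ z ∈ B, g z (ω z)) * F ω) := by
      funext ω
      rw [Finset.prod_insert hi, mul_assoc]
    rw [h1, Ex_insert hi, Ex_insert hi, Ex_mul_left, ih]
    · funext ω
      simp only [Rs, Function.update_self]
      exact Finset.sum_congr rfl fun s _ => by ring
    · intro j hj ω s
      have : i ≠ j := fun h => hi (h ▸ hj)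
      rw [Function.update_of_ne this]

/-- rescaling the laws -/
theorem Ex_scale (g : V → ℝ) :
    Ex (fun z s => w z s * g z) B F = fun ω => (∏ z ∈ B, g z) * Ex w B F ω := by
  induction B using Finset.induction_on with
  | empty =>
    funext ω
    simp
  | insert i B hi ih =>
    rw [Ex_insert hi, ih, Ex_insert hi]
    funext ω
    simp only [Rs, Finset.prod_insert hi, Finset.mul_sum]
    exact Finset.sum_congr rfl fun s _ => by ring

end NN
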