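import Pool.Agent.H87.NN.Alg

/-!
# The planar laws (module NN-LAWS)

Elementary computations with the law `nu t` on the `16` subsets of `Bool × Bool`; everything
depends only on the cardinality of the set `A ⊆ Bool × Bool` (`fin_cases`/`decide` style checks
over the 16 sets, or `Finset.sum` over `Finset.powerset`). The avoided mass is
`avd (nu t) A = qf t A.card` with `qf t 0 = 1`, `qf t 1 = 1/2`, `qf t 2 = 1/4 - t/12`,
`qf t 3 = (1-t)/8`, `qf t 4 = (1-t)/16`.
-/

open Finset

namespace NN

/-- the avoid function of `nu t` in terms of the cardinality -/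
noncomputable def qf (t : ℝ) : ℕ → ℝ
  | 0 => 1
  | 1 => 1 / 2
  | 2 => 1 / 4 - t / 12
  | 3 => (1 - t) / 8
  | _ => (1 - t) / 16

theorem nu_nonneg {t : ℝ} (h0 : 0 ≤ t) (h1 : t ≤ 1) (s) : 0 ≤ nu t s := by
  unfold nu
  split_ifs
  · nlinarith
  · nlinarith

/-- sums against `nu t` count sets -/
theorem sum_nu (t : ℝ) (P : Finset (Bool × Bool) → Prop) [DecidablePred P] :
    ∑ s, nu t s * (if P s then 1 else 0) =
      (1 - t) / 16 * (Finset.univ.filter P).card +
        t / 6 * (Finset.univ.filter fun s => P s ∧ s.card = 2).card := by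
  have h : ∀ s, nu t s * (if P s then (1 : ℝ) else 0) =
      (1 - t) / 16 * (if P s then 1 else 0) + t / 6 * (if P s ∧ s.card = 2 then 1 else 0) := by
    intro s
    unfold nu
    by_cases h1 : P s <;> by_cases h2 : s.card = 2 <;> simp [h1, h2] <;> ring
  rw [Finset.sum_congr rfl fun s _ => h s, Finset.sum_add_distrib, ← Finset.mul_sum,
    ← Finset.mul_sum, Finset.sum_boole, Finset.sum_boole]

theorem nu_sum (t : ℝ) : ∑ s, nu t s = 1 := by
  have h := sum_nu t (fun _ => True)
  simp only [if_true, mul_one] at h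
  rw [h]
  have h1 : (Finset.univ.filter fun _ : Finset (Bool × Bool) => True).card = 16 := by decide
  have h2 : (Finset.univ.filter fun s : Finset (Bool × Bool) => True ∧ s.card = 2).card = 6 := by
    decide
  rw [h1, h2]
  push_cast
  ring

theorem count_avoid : ∀ A : Finset (Bool × Bool),
    (Finset.univ.filter fun s => Disjoint s A).card = 2 ^ (4 - A.card) ∧
      (Finset.univ.filter fun s => Disjoint s A ∧ s.card = 2).card = (4 - A.card).choose 2 := by
  decide

theorem avd_nu (t : ℝ) (A : Finset (Bool × Bool)) : avd (nu t) A = qf t A.card := by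
  unfold avd
  have h : ∀ s, nu t s * ind (Disjoint s A) = nu t s * (if Disjoint s A then 1 else 0) :=
    fun s => by rw [ind_eq_ite]
  rw [Finset.sum_congr rfl fun s _ => h s, sum_nu, (count_avoid A).1, (count_avoid A).2]
  have hA : A.card ≤ 4 := by
    have := Finset.card_le_univ A
    simpa using this
  interval_cases A.card <;> simp [qf, Nat.choose] <;> ring

/-- lower bound for all masses -/
theorem nu_ge {t : ℝ} (h0 : 0 ≤ t) (h1 : t ≤ 1 / 10) (s) : 1 / 32 ≤ nu t s := by
  unfold nu
  split_ifs
  · nlinarith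
  · nlinarith

/-- submultiplicativity for disjoint sets -/
theorem avd_nu_union_le {t : ℝ} (h0 : 0 ≤ t) (h1 : t ≤ 1) {O A : Finset (Bool × Bool)}
    (h : Disjoint O A) : avd (nu t) (O ∪ A) ≤ avd (nu t) O * avd (nu t) A := by
  have hc : (O ∪ A).card ≤ 4 := by
    have := Finset.card_le_univ (O ∪ A)
    simpa using this
  rw [avd_nu, avd_nu, avd_nu]
  rw [Finset.card_union_of_disjoint h] at hc ⊢
  have h2 : 0 ≤ 1 - t := by linarith
  have ho : O.card ≤ 4 := by omega
  have ha : A.card ≤ 4 := by omega
  interval_cases O.card <;> interval_cases A.card <;> first | omega | skip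
  all_goals simp only [qf]
  all_goals nlinarith

theorem avd_nu_anti {t : ℝ} (h0 : 0 ≤ t) (A : Finset (Bool × Bool)) :
    avd (nu t) A ≤ avd (nu 0) A := by
  rw [avd_nu, avd_nu]
  have hA : A.card ≤ 4 := by
    have := Finset.card_le_univ A
    simpa using this
  interval_cases A.card <;> simp only [qf] <;> linarith

/-- the gain of the enhancement -/
theorem gain (A : Finset (Bool × Bool)) :
    0 ≤ avd (nu 0) A - avd (nu 1) A ∧ (2 ≤ A.card → 1 / 16 ≤ avd (nu 0) A - avd (nu 1) A) := by
  rw [avd_nu, avd_nu]
  have hA : A.card ≤ 4 := by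
    have := Finset.card_le_univ A
    simpa using this
  interval_cases A.card <;> simp only [qf] <;> constructor <;> intros <;>
    first | omega | norm_num

end NN
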