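import Pool.Agent.H87.NN.Dom
import Pool.Agent.H87.NN.Alg2
import Pool.Agent.H87.NN.Laws

/-!
# The set of points which do not exit (module NN-BARRIER)

For `S ⊆ box n` with `0 ∈ S` let `D S` be the event that `S` is exactly the set of points of the box
which do not exit: `∀ z ∈ box n, (¬ Exits n ω z ↔ z ∈ S)`.

(1) `D S ↔ F S ∧ G S` with `F S : ∀ z ∈ S, ∀ e ∈ ω z, step2 z e ∈ S` (depends on `S`) and
`G S : ∀ z ∈ box n \ S, Rch step2 (box n \ S) (box n)ᶜ ω z` (depends on `box n \ S`).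
(→: a pick from `S` to a point outside of `S`, exiting, would make a point of `S` exiting; a path
of an exiting point consists of exiting points so it avoids `S`. ←: `rch_mem_of_closed` with
`C = S`.)

(2) `Pr (box n) (D S ∧ Rch S {x} · 0) = Pr S (F S ∧ Rch S {x} · 0) * Pr (box n \ S) (G S)` and
`Pr (box n) (D S) = Pr S (F S) * Pr (box n \ S) (G S)` (`Pr_and`).

(3) `Pr S (F S ∧ Rch S {x} · 0) ≥ Pr S (F S) * Pr S (Rch S {x} · 0)`, `x ∈ S` (`FS_rch`). With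
`O z = {e | step2 z e ∉ S}`, `ind (F S) = ∏ z ∈ S, ind (Disjoint (ω z) (O z))`, so by `Ex_tilt`
`Pr S (F S ∧ A) = Ex w' S (ind A)` with `w' z s = nu t s * ind (Disjoint s (O z))`; let
`w z s = nu t s * avd (nu t) (O z)`, so `Ex w S (ind A) = ∏ avd (nu t) (O z) * Pr S A`
(`Ex_scale`) and `Pr S (F S) = ∏ avd (nu t) (O z)` (`Ex_const`). The total masses of `w z` and
`w' z` are `avd (nu t) (O z)`; for a set `A` of directions leading from `z` to `S ∪ {x} = S`, `A` is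
disjoint from `O z` and `avd (w' z) A = avd (nu t) (O z ∪ A) ≤ avd (nu t) (O z) * avd (nu t) A =
avd (w z) A` (`avd_nu_union_le`). So `Ex_rch_le` gives the claim.

(4) `1 - exitP t n = Pr (box n) (¬ Exits n · 0) = ∑ S ∈ powerset (box n) with 0 ∈ S,
Pr (box n) (D S)`, and pointwise
`∑ x ∈ box n, ind (K1 n x ω) ≥ ∑ S ∈ powerset (box n) with 0 ∈ S, ∑ x ∈ S,
ind (∃ e, step2 x e ∉ S) * ind (D S ∧ Rch S {x} ω 0)`
(for the unique `S` with `D S`: `0` does not exit; `x` is reached; `step2 x e ∉ S` exits). Hence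
`∑ x, Pr (K1 n x) ≥ ∑ S, Pr (D S) * psi t S ≥ c * ∑ S, Pr (D S) = c * (1 - exitP t n)`.
-/

open Finset

namespace NN

namespace Bar

theorem ind_forall_mem {ι : Type*} (S : Finset ι) (p : ι → Prop) :
    ind (∀ z ∈ S, p z) = ∏ z ∈ S, ind (p z) := by
  classical
  by_cases h : ∀ z ∈ S, p z
  · rw [ind_pos h]
    exact (Finset.prod_eq_one fun z hz => ind_pos (h z hz)).symm
  · rw [ind_neg h]
    push Not at h
    obtain ⟨z, hz, hp⟩ := h
    exact (Finset.prod_eq_zero hz (ind_neg hp)).symm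

/-- the directions leaving `S` -/
noncomputable def outD (S : Finset (ℤ × ℤ)) (z : ℤ × ℤ) : Finset (Bool × Bool) := by
  classical exact Finset.univ.filter fun e => step2 z e ∉ S

theorem mem_outD {S : Finset (ℤ × ℤ)} {z : ℤ × ℤ} {e : Bool × Bool} :
    e ∈ outD S z ↔ step2 z e ∉ S := by
  classical
  simp [outD]

theorem closed_iff (S : Finset (ℤ × ℤ)) (ω : ℤ × ℤ → Finset (Bool × Bool)) :
    (∀ z ∈ S, ∀ e ∈ ω z, step2 z e ∈ S) ↔ ∀ z ∈ S, Disjoint (ω z) (outD S z) := by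
  constructor
  · intro h z hz
    rw [Finset.disjoint_left]
    intro e he he'
    exact mem_outD.1 he' (h z hz e he)
  · intro h z hz e he
    by_contra hcon
    exact Finset.disjoint_left.1 (h z hz) he (mem_outD.2 hcon)

theorem ind_closed (S : Finset (ℤ × ℤ)) (ω : ℤ × ℤ → Finset (Bool × Bool)) :
    ind (∀ z ∈ S, ∀ e ∈ ω z, step2 z e ∈ S) = ∏ z ∈ S, ind (Disjoint (ω z) (outD S z)) := by
  rw [ind_congr (closed_iff S ω), ind_forall_mem]

theorem avd_nu_nonneg {t : ℝ} (h0 : 0 ≤ t) (h1 : t ≤ 1) (A : Finset (Bool × Bool)) :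
    0 ≤ avd (nu t) A :=
  Finset.sum_nonneg fun s _ => mul_nonneg (nu_nonneg h0 h1 s) (ind_nonneg _)

theorem Pr_closed (t : ℝ) (S : Finset (ℤ × ℤ)) :
    Pr (fun _ => nu t) S (fun ω => ∀ z ∈ S, ∀ e ∈ ω z, step2 z e ∈ S) =
      ∏ z ∈ S, avd (nu t) (outD S z) := by
  unfold Pr
  have h1 : (fun ω : ℤ × ℤ → Finset (Bool × Bool) =>
      ind (∀ z ∈ S, ∀ e ∈ ω z, step2 z e ∈ S)) =
      fun ω => (∏ z ∈ S, ind (Disjoint (ω z) (outD S z))) * (1 : ℝ) := by
    funext ω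
    rw [ind_closed, mul_one]
  have h2 : Ex (fun _ => nu t) S (fun ω : ℤ × ℤ → Finset (Bool × Bool) =>
      (∏ z ∈ S, ind (Disjoint (ω z) (outD S z))) * (1 : ℝ)) =
      Ex (fun z s => nu t s * ind (Disjoint s (outD S z))) S (fun _ => (1 : ℝ)) :=
    Ex_tilt (w := fun _ => nu t) (F := fun _ => (1 : ℝ)) (fun z s => ind (Disjoint s (outD S z)))
  rw [h1, h2, Ex_const]
  rw [mul_one]
  rfl

/-- `S` is the set of points of the box which do not exit -/
def NonEx (n : ℕ) (S : Finset (ℤ × ℤ)) (ω : ℤ × ℤ → Finset (Bool × Bool)) : Prop :=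
  ∀ z ∈ box n, (¬ Exits n ω z ↔ z ∈ S)

theorem nonEx_iff {n : ℕ} {S : Finset (ℤ × ℤ)} (hS : S ⊆ box n)
    (ω : ℤ × ℤ → Finset (Bool × Bool)) :
    NonEx n S ω ↔ (∀ z ∈ S, ∀ e ∈ ω z, step2 z e ∈ S) ∧
      ∀ z ∈ box n \ S, Rch step2 ((box n \ S : Finset (ℤ × ℤ)) : Set (ℤ × ℤ))
        (box n : Set (ℤ × ℤ))ᶜ ω z := by
  constructor
  · intro h
    constructor
    · intro z hz e he
      by_contra hcon
      have hex : Exits n ω (step2 z e) := by
        by_cases hb : step2 z e ∈ box n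
        · by_contra hne
          exact hcon ((h _ hb).1 hne)
        · exact .hit (fun hb' => hb (Finset.mem_coe.1 hb'))
      exact (h z (hS hz)).2 hz (.go (Finset.mem_coe.2 (hS hz)) he hex)
    · have key : ∀ z, Exits n ω z → Rch step2 ((box n \ S : Finset (ℤ × ℤ)) : Set (ℤ × ℤ))
          (box n : Set (ℤ × ℤ))ᶜ ω z := by
        intro z hz
        induction hz with
        | hit h => exact .hit h
        | @go x e h1 h2 h3 ih =>
          refine .go ?_ h2 ih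
          rw [Finset.mem_coe, Finset.mem_sdiff]
          refine ⟨Finset.mem_coe.1 h1, fun hxS => ?_⟩
          exact (h x (Finset.mem_coe.1 h1)).2 hxS (.go h1 h2 h3)
      intro z hz
      rw [Finset.mem_sdiff] at hz
      refine key z ?_
      by_contra hne
      exact hz.2 ((h z hz.1).1 hne)
  · rintro ⟨hF, hG⟩ z hz
    constructor
    · intro hne
      by_contra hzS
      refine hne (rch_mono ?_ subset_rfl (hG z (Finset.mem_sdiff.2 ⟨hz, hzS⟩)))
      rw [Finset.coe_sdiff]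
      exact Set.sdiff_subset
    · intro hzS hex
      obtain ⟨y, hy, hyS⟩ := rch_mem_of_closed (C := (S : Set (ℤ × ℤ)))
        (fun z hz _ e he => Finset.mem_coe.2 (hF z (Finset.mem_coe.1 hz) e he))
        (Finset.mem_coe.2 hzS) hex
      exact hy (Finset.mem_coe.2 (hS (Finset.mem_coe.1 hyS)))

theorem nonEx_unique {n : ℕ} {S S' : Finset (ℤ × ℤ)} (hS : S ⊆ box n) (hS' : S' ⊆ box n)
    {ω : ℤ × ℤ → Finset (Bool × Bool)} (h : NonEx n S ω) (h' : NonEx n S' ω) : S = S' := by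
  ext z
  constructor
  · intro hz
    exact (h' z (hS hz)).1 ((h z (hS hz)).2 hz)
  · intro hz
    exact (h z (hS' hz)).1 ((h' z (hS' hz)).2 hz)

theorem dependsOn_closed (S : Finset (ℤ × ℤ)) :
    DependsOn (fun ω : ℤ × ℤ → Finset (Bool × Bool) => ∀ z ∈ S, ∀ e ∈ ω z, step2 z e ∈ S)
      (S : Set (ℤ × ℤ)) := by
  intro ω ω' h
  refine propext (forall_congr' fun z => forall_congr' fun hz => ?_)
  rw [h z (Finset.mem_coe.2 hz)]

theorem dependsOn_closed_rch (S : Finset (ℤ × ℤ)) (x : ℤ × ℤ) :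
    DependsOn (fun ω : ℤ × ℤ → Finset (Bool × Bool) => (∀ z ∈ S, ∀ e ∈ ω z, step2 z e ∈ S) ∧
      Rch step2 (S : Set (ℤ × ℤ)) {x} ω 0) (S : Set (ℤ × ℤ)) := by
  intro ω ω' h
  have h1 := dependsOn_closed S h
  have h2 := rch_congr (step := step2) (T := {x}) (x := 0) h
  simp only at h1
  exact propext (and_congr (iff_of_eq h1) h2)

theorem dependsOn_G (n : ℕ) (S : Finset (ℤ × ℤ)) :
    DependsOn (fun ω : ℤ × ℤ → Finset (Bool × Bool) => ∀ z ∈ box n \ S,
      Rch step2 ((box n \ S : Finset (ℤ × ℤ)) : Set (ℤ × ℤ)) (box n : Set (ℤ × ℤ))ᶜ ω z)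
      ((box n \ S : Finset (ℤ × ℤ)) : Set (ℤ × ℤ)) := by
  intro ω ω' h
  exact propext (forall_congr' fun z => forall_congr' fun _ => rch_congr h)

theorem Pr_nonEx {t : ℝ} {n : ℕ} {S : Finset (ℤ × ℤ)} (hS : S ⊆ box n) :
    Pr (fun _ => nu t) (box n) (NonEx n S) =
      Pr (fun _ => nu t) S (fun ω => ∀ z ∈ S, ∀ e ∈ ω z, step2 z e ∈ S) *
      Pr (fun _ => nu t) (box n \ S) (fun ω => ∀ z ∈ box n \ S,
        Rch step2 ((box n \ S : Finset (ℤ × ℤ)) : Set (ℤ × ℤ)) (box n : Set (ℤ × ℤ))ᶜ ω z) := by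
  rw [← Pr_and (dependsOn_closed S) (dependsOn_G n S) Finset.disjoint_sdiff
    (fun i hi hi' => (Finset.mem_sdiff.1 hi).2 (Finset.mem_coe.1 hi'))
    (fun i hi hi' => (Finset.mem_sdiff.1 (Finset.mem_coe.1 hi')).2 hi)]
  rw [Finset.union_sdiff_of_subset hS]
  exact congrArg (Pr (fun _ => nu t) (box n)) (funext fun ω => propext (nonEx_iff hS ω))

theorem Pr_nonEx_rch {t : ℝ} {n : ℕ} {S : Finset (ℤ × ℤ)} (hS : S ⊆ box n) (x : ℤ × ℤ) :
    Pr (fun _ => nu t) (box n) (fun ω => NonEx n S ω ∧ Rch step2 (S : Set (ℤ × ℤ)) {x} ω 0) =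
      Pr (fun _ => nu t) S (fun ω => (∀ z ∈ S, ∀ e ∈ ω z, step2 z e ∈ S) ∧
        Rch step2 (S : Set (ℤ × ℤ)) {x} ω 0) *
      Pr (fun _ => nu t) (box n \ S) (fun ω => ∀ z ∈ box n \ S,
        Rch step2 ((box n \ S : Finset (ℤ × ℤ)) : Set (ℤ × ℤ)) (box n : Set (ℤ × ℤ))ᶜ ω z) := by
  rw [← Pr_and (dependsOn_closed_rch S x) (dependsOn_G n S) Finset.disjoint_sdiff
    (fun i hi hi' => (Finset.mem_sdiff.1 hi).2 (Finset.mem_coe.1 hi'))
    (fun i hi hi' => (Finset.mem_sdiff.1 (Finset.mem_coe.1 hi')).2 hi)]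
  rw [Finset.union_sdiff_of_subset hS]
  refine congrArg (Pr (fun _ => nu t) (box n)) (funext fun ω => propext ?_)
  rw [nonEx_iff hS]
  tauto

theorem Pr_sum {ι : Type*} {w : ℤ × ℤ → Finset (Bool × Bool) → ℝ} {B : Finset (ℤ × ℤ)}
    (s : Finset ι) (A : ι → (ℤ × ℤ → Finset (Bool × Bool)) → Prop) :
    ∑ i ∈ s, Pr w B (A i) = Ex w B (fun ω => ∑ i ∈ s, ind (A i ω)) (fun _ => ∅) := by
  rw [Ex_sum]
  rfl

theorem zero_mem_box (n : ℕ) : (0 : ℤ × ℤ) ∈ box n := by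
  simp [box]

/-- the finite sets containing the origin -/
noncomputable def fam (n : ℕ) : Finset (Finset (ℤ × ℤ)) :=
  (box n).powerset.filter fun S => (0 : ℤ × ℤ) ∈ S

theorem mem_fam {n : ℕ} {S : Finset (ℤ × ℤ)} : S ∈ fam n ↔ S ⊆ box n ∧ (0 : ℤ × ℤ) ∈ S := by
  rw [fam, Finset.mem_filter, Finset.mem_powerset]

theorem one_sub_exitP_le {t : ℝ} (h0 : 0 ≤ t) (h1 : t ≤ 1) (n : ℕ) :
    1 - exitP t n ≤ ∑ S ∈ fam n, Pr (fun _ => nu t) (box n) (NonEx n S) := by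
  classical
  rw [exitP, ← Pr_not fun _ _ => nu_sum t, Pr_sum]
  refine Ex_mono (fun _ _ s => nu_nonneg h0 h1 s) (fun ω => ?_) _
  by_cases hex : Exits n ω 0
  · rw [ind_neg (not_not.2 hex)]
    exact Finset.sum_nonneg fun S _ => ind_nonneg _
  · have hS : NonEx n ((box n).filter fun z => ¬ Exits n ω z) ω := by
      intro z hz
      rw [Finset.mem_filter]
      exact ⟨fun h => ⟨hz, h⟩, fun h => h.2⟩
    have hmem : ((box n).filter fun z => ¬ Exits n ω z) ∈ fam n := by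
      rw [mem_fam]
      exact ⟨Finset.filter_subset _ _, Finset.mem_filter.2 ⟨zero_mem_box n, hex⟩⟩
    calc ind (¬ Exits n ω 0) ≤ 1 := ind_le_one _
      _ = ind (NonEx n ((box n).filter fun z => ¬ Exits n ω z) ω) := (ind_pos hS).symm
      _ ≤ _ := Finset.single_le_sum (f := fun S => ind (NonEx n S ω))
        (fun _ _ => ind_nonneg _) hmem

theorem K1_pointwise (n : ℕ) (ω : ℤ × ℤ → Finset (Bool × Bool)) :
    ∑ S ∈ fam n, ∑ x ∈ S, ind (∃ e, step2 x e ∉ S) *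
      ind (NonEx n S ω ∧ Rch step2 (S : Set (ℤ × ℤ)) {x} ω 0) ≤
    ∑ x ∈ box n, ind (K1 n x ω) := by
  classical
  by_cases h : ∃ S ∈ fam n, NonEx n S ω
  · obtain ⟨S, hS, hSω⟩ := h
    have hS' := mem_fam.1 hS
    rw [Finset.sum_eq_single_of_mem S hS]
    · refine (Finset.sum_le_sum (g := fun x => ind (K1 n x ω)) fun x hx => ?_).trans
        (Finset.sum_le_sum_of_subset_of_nonneg hS'.1 fun _ _ _ => ind_nonneg _)
      rw [← ind_and]
      refine ind_mono ?_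
      rintro ⟨⟨e, he⟩, _, hr⟩
      refine ⟨(hSω 0 (zero_mem_box n)).2 hS'.2, rch_mono ?_ subset_rfl hr, e, ?_⟩
      · exact Finset.coe_subset.2 hS'.1
      · by_cases hb : step2 x e ∈ box n
        · by_contra hne
          exact he ((hSω _ hb).1 hne)
        · exact .hit (fun hb' => hb (Finset.mem_coe.1 hb'))
    · intro S' hS'mem hne
      refine Finset.sum_eq_zero fun x _ => ?_
      rw [ind_neg (p := NonEx n S' ω ∧ _), mul_zero]
      rintro ⟨h', _⟩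
      exact hne (nonEx_unique (mem_fam.1 hS'mem).1 hS'.1 h' hSω)
  · refine le_trans (le_of_eq ?_) (Finset.sum_nonneg fun _ _ => ind_nonneg _)
    refine Finset.sum_eq_zero fun S hS => Finset.sum_eq_zero fun x _ => ?_
    rw [ind_neg (p := NonEx n S ω ∧ _), mul_zero]
    rintro ⟨h', _⟩
    exact h ⟨S, hS, h'⟩

end Bar

open Bar

theorem FS_rch {t : ℝ} (h0 : 0 ≤ t) (h1 : t ≤ 1) {S : Finset (ℤ × ℤ)} {x : ℤ × ℤ} (hx : x ∈ S) :
    Pr (fun _ => nu t) S (fun ω => ∀ z ∈ S, ∀ e ∈ ω z, step2 z e ∈ S) *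
        Pr (fun _ => nu t) S (fun ω => Rch step2 (S : Set (ℤ × ℤ)) {x} ω 0) ≤
      Pr (fun _ => nu t) S (fun ω => (∀ z ∈ S, ∀ e ∈ ω z, step2 z e ∈ S) ∧
        Rch step2 (S : Set (ℤ × ℤ)) {x} ω 0) := by
  rw [Pr_closed]
  unfold Pr
  have h2 : (fun ω : ℤ × ℤ → Finset (Bool × Bool) =>
      ind ((∀ z ∈ S, ∀ e ∈ ω z, step2 z e ∈ S) ∧ Rch step2 (S : Set (ℤ × ℤ)) {x} ω 0)) =
      fun ω => (∏ z ∈ S, ind (Disjoint (ω z) (outD S z))) *
        ind (Rch step2 (S : Set (ℤ × ℤ)) {x} ω 0) := by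
    funext ω
    rw [ind_and, ind_closed]
  have h2' : Ex (fun _ => nu t) S (fun ω : ℤ × ℤ → Finset (Bool × Bool) =>
      (∏ z ∈ S, ind (Disjoint (ω z) (outD S z))) *
        ind (Rch step2 (S : Set (ℤ × ℤ)) {x} ω 0)) =
      Ex (fun z s => nu t s * ind (Disjoint s (outD S z))) S
        (fun ω => ind (Rch step2 (S : Set (ℤ × ℤ)) {x} ω 0)) :=
    Ex_tilt (w := fun _ => nu t) (F := fun ω => ind (Rch step2 (S : Set (ℤ × ℤ)) {x} ω 0))
      (fun z s => ind (Disjoint s (outD S z)))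
  rw [h2, h2']
  have h3 := congrFun (Ex_scale (w := fun _ => nu t) (B := S)
    (F := fun ω => ind (Rch step2 (S : Set (ℤ × ℤ)) {x} ω 0))
    (fun z => avd (nu t) (outD S z))) (fun _ => ∅)
  rw [← h3]
  refine Ex_rch_le ?_ ?_ ?_ ?_ _
  · intro i _ s
    exact mul_nonneg (nu_nonneg h0 h1 s) (avd_nu_nonneg h0 h1 _)
  · intro i _ s
    exact mul_nonneg (nu_nonneg h0 h1 s) (ind_nonneg _)
  · intro i _
    rw [← Finset.sum_mul, nu_sum, one_mul]
    rfl
  · intro i _ A hA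
    have hdis : Disjoint (outD S i) A := by
      rw [Finset.disjoint_left]
      intro e he he'
      rcases hA e he' with h | h
      · exact mem_outD.1 he h
      · rw [Set.mem_singleton_iff] at h
        exact mem_outD.1 he (h ▸ hx)
    have h4 : avd (fun s => nu t s * ind (Disjoint s (outD S i))) A =
        avd (nu t) (outD S i ∪ A) := by
      unfold avd
      refine Finset.sum_congr rfl fun s _ => ?_
      rw [ind_congr (Finset.disjoint_union_right (s := s) (t := outD S i) (u := A)), ind_and]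
      ring
    have h5 : avd (fun s => nu t s * avd (nu t) (outD S i)) A =
        avd (nu t) (outD S i) * avd (nu t) A := by
      rw [avd, avd.eq_def (nu t) A, Finset.mul_sum]
      refine Finset.sum_congr rfl fun s _ => ?_
      ring
    rw [h4, h5]
    exact avd_nu_union_le h0 h1 hdis

theorem barrier {t : ℝ} (h0 : 0 ≤ t) (h1 : t ≤ 1) (n : ℕ) {c : ℝ} (hc0 : 0 ≤ c)
    (hc : ∀ S ⊆ box n, (0 : ℤ × ℤ) ∈ S → c ≤ psi t S) :
    c * (1 - exitP t n) ≤ ∑ x ∈ box n, Pr (fun _ => nu t) (box n) (K1 n x) := by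
  have hnn : ∀ (B : Finset (ℤ × ℤ)) (A : (ℤ × ℤ → Finset (Bool × Bool)) → Prop),
      0 ≤ Pr (fun _ => nu t) B A := fun B A => Pr_nonneg fun _ _ s => nu_nonneg h0 h1 s
  have hstep1 : Ex (fun _ => nu t) (box n) (fun ω => ∑ S ∈ fam n, ∑ x ∈ S,
      ind (∃ e, step2 x e ∉ S) *
        ind (NonEx n S ω ∧ Rch step2 (S : Set (ℤ × ℤ)) {x} ω 0)) (fun _ => ∅) ≤
      ∑ x ∈ box n, Pr (fun _ => nu t) (box n) (K1 n x) := by
    rw [Pr_sum]
    exact Ex_mono (fun _ _ s => nu_nonneg h0 h1 s) (K1_pointwise n) _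
  have hstep2 : Ex (fun _ => nu t) (box n) (fun ω => ∑ S ∈ fam n, ∑ x ∈ S,
      ind (∃ e, step2 x e ∉ S) *
        ind (NonEx n S ω ∧ Rch step2 (S : Set (ℤ × ℤ)) {x} ω 0)) (fun _ => ∅) =
      ∑ S ∈ fam n, ∑ x ∈ S, ind (∃ e, step2 x e ∉ S) *
        Pr (fun _ => nu t) (box n)
          (fun ω => NonEx n S ω ∧ Rch step2 (S : Set (ℤ × ℤ)) {x} ω 0) := by
    rw [Ex_sum]
    refine Finset.sum_congr rfl fun S _ => ?_
    rw [Ex_sum]
    refine Finset.sum_congr rfl fun x _ => ?_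
    rw [Ex_smul]
    rfl
  rw [hstep2] at hstep1
  refine le_trans ?_ hstep1
  calc c * (1 - exitP t n)
      ≤ c * ∑ S ∈ fam n, Pr (fun _ => nu t) (box n) (NonEx n S) :=
        mul_le_mul_of_nonneg_left (one_sub_exitP_le h0 h1 n) hc0
    _ = ∑ S ∈ fam n, c * Pr (fun _ => nu t) (box n) (NonEx n S) := Finset.mul_sum _ _ _
    _ ≤ ∑ S ∈ fam n, psi t S * Pr (fun _ => nu t) (box n) (NonEx n S) := by
        refine Finset.sum_le_sum fun S hS => ?_
        have hS' := mem_fam.1 hS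
        exact mul_le_mul_of_nonneg_right (hc S hS'.1 hS'.2) (hnn _ _)
    _ ≤ _ := by
        refine Finset.sum_le_sum fun S hS => ?_
        have hS' := mem_fam.1 hS
        rw [psi, Finset.sum_mul]
        refine Finset.sum_le_sum fun x hx => ?_
        rw [mul_assoc]
        refine mul_le_mul_of_nonneg_left ?_ (ind_nonneg _)
        rw [Pr_nonEx hS'.1, Pr_nonEx_rch hS'.1, ← mul_assoc]
        refine mul_le_mul_of_nonneg_right ?_ (hnn _ _)
        rw [mul_comm]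
        exact FS_rch h0 h1 hx

end NN
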