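import Pool.Agent.H87.NN.Model

/-!
# Dimension one and measurability (module NN-DONE)

`thetaD_one`: for `d = 1` every vertex picks both directions almost surely
(`powersetCard 2 univ = {univ}` as `Dir 1` has two elements), so almost surely `γ n = fun _ => n` is
an infinite self-avoiding directed path.  (The event contains
`⋂ n, {ω | (0, true) ∈ ω (fun _ => n)}`, a countable intersection of events of probability one:
each is the preimage under the evaluation map, `measurePreserving_eval_infinitePi`, of
`{s | (0, true) ∈ s}`, which has `pick`-measure one.)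

`measurableSet_evD`, `measurableSet_evU`: by compactness (König) the event is the intersection over
`n` of the events there is a self-avoiding path of length `n`, each of which is a finite union,
over the `(2d)^n` sequences of directions `δ`, of finite intersections of conditions
`δ k ∈ ω (x)` (or `reverse (δ k) ∈ ω (x')`) with fixed vertices. For the compactness: the sets
`K n ω = {δ : ℕ → Dir d | the first n steps from 0 along δ are valid and the first n+1 positions
are distinct}` are clopen and decreasing in the compact space `ℕ → Dir d`. A path `γ` of `evU` is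
followed by the directions `δ` with `γ (n+1) = nbr (γ n) (δ n)` (in the second case the reverse
direction, `nbr (nbr y e) (e.1, !e.2) = y`).
-/

open Finset MeasureTheory ENNReal

namespace TwoNbr

theorem thetaD_one : 0 < thetaD 2 1 (by omega) := by
  have hpick : ∀ᵐ s ∂(pick 2 1 (by omega)).toMeasure, ((0 : Fin 1), true) ∈ s := by
    rw [ae_iff, PMF.toMeasure_apply_eq_zero_iff _
      (measurableSet_notMem_finset ((0 : Fin 1), true))]
    rw [Set.disjoint_left]
    intro s hs hs2
    unfold pick at hs
    rw [PMF.support_uniformOfFinset, Finset.mem_coe, Finset.mem_powersetCard_univ] at hs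
    apply hs2
    have : s = Finset.univ := by
      apply Finset.eq_univ_of_card
      rw [hs]; simp
    rw [this]; exact Finset.mem_univ _
  have hae : ∀ᵐ ω ∂(law 2 1 (by omega)), ∀ n : ℕ, ((0 : Fin 1), true) ∈ ω (fun _ => (n : ℤ)) := by
    rw [ae_all_iff]
    intro n
    exact (measurePreserving_eval_infinitePi
      (fun _ : Site 1 => (pick 2 1 (by omega)).toMeasure)
      (fun _ => (n : ℤ))).quasiMeasurePreserving.ae hpick
  have hae2 : ∀ᵐ ω ∂(law 2 1 (by omega)), ω ∈ evD 1 := by
    filter_upwards [hae] with ω hω
    refine ⟨fun n _ => (n : ℤ), ?_, ?_, ?_⟩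
    · intro m n h
      have h2 : (m : ℤ) = (n : ℤ) := congrFun h 0
      exact_mod_cast h2
    · funext i; simp
    · intro n
      refine ⟨_, hω n, ?_⟩
      funext i
      have : i = 0 := Subsingleton.elim _ _
      subst this
      simp [nbr]
  rw [pos_iff_ne_zero]
  intro h0
  have h1 : ∀ᵐ ω ∂(law 2 1 (by omega)), ω ∉ evD 1 := measure_eq_zero_iff_ae_notMem.mp h0
  have : IsProbabilityMeasure (law 2 1 (by omega)) := by unfold law; infer_instance
  obtain ⟨ω, h2, h3⟩ := (hae2.and h1).exists
  exact h3 h2

/-! ### measurability of path events -/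

section paths

variable {Ω V E : Type*}

/-- position after `k` steps -/
def wlk (step : V → E → V) (x : V) (δ : ℕ → E) : ℕ → V
  | 0 => x
  | k + 1 => step (wlk step x δ k) (δ k)

theorem wlk_congr (step : V → E → V) (x : V) {δ δ' : ℕ → E} {n : ℕ} (h : ∀ k < n, δ k = δ' k) :
    ∀ k ≤ n, wlk step x δ k = wlk step x δ' k := by
  intro k hk
  induction k with
  | zero => rfl
  | succ k ih =>
    simp only [wlk]
    rw [ih (by omega), h k (by omega)]

/-- the first `n` steps are admissible and the first `n+1` positions are distinct -/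
def KK (step : V → E → V) (x : V) (A : V → E → Prop) (n : ℕ) : Set (ℕ → E) :=
  {δ | (∀ k < n, A (wlk step x δ k) (δ k)) ∧
    ∀ i j, i < j → j ≤ n → wlk step x δ i ≠ wlk step x δ j}

theorem KK_congr (step : V → E → V) (x : V) (A : V → E → Prop) {n : ℕ} {δ δ' : ℕ → E}
    (h : ∀ k < n, δ k = δ' k) (hδ : δ ∈ KK step x A n) : δ' ∈ KK step x A n := by
  refine ⟨fun k hk => ?_, fun i j hij hj => ?_⟩
  · rw [← wlk_congr step x h k hk.le, ← h k hk]
    exact hδ.1 k hk
  · rw [← wlk_congr step x h i (by omega), ← wlk_congr step x h j hj]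
    exact hδ.2 i j hij hj

theorem path_iff [Finite E] (step : V → E → V) (x : V) (A : V → E → Prop) :
    (∃ γ : ℕ → V, Function.Injective γ ∧ γ 0 = x ∧
      ∀ n, ∃ e, A (γ n) e ∧ γ (n + 1) = step (γ n) e) ↔ ∀ n, (KK step x A n).Nonempty := by
  constructor
  · rintro ⟨γ, hinj, h0, hstep⟩ n
    choose δ hδ using hstep
    have hw : ∀ k, wlk step x δ k = γ k := by
      intro k
      induction k with
      | zero => exact h0.symm
      | succ k ih => simp only [wlk]; rw [ih, (hδ k).2]
    refine ⟨δ, fun k _ => by rw [hw]; exact (hδ k).1, fun i j hij _ h => ?_⟩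
    rw [hw, hw] at h
    exact hij.ne (hinj h)
  · intro h
    let : TopologicalSpace E := ⊥
    have : DiscreteTopology E := ⟨rfl⟩
    let : TopologicalSpace V := ⊥
    have : DiscreteTopology V := ⟨rfl⟩
    have hc : ∀ k, Continuous fun δ : ℕ → E => wlk step x δ k := by
      intro k
      induction k with
      | zero => exact continuous_const
      | succ k ih =>
        exact (continuous_of_discreteTopology (f := fun q : V × E => step q.1 q.2)).comp
          (ih.prodMk (continuous_apply k))
    have hcl : ∀ n, IsClosed (KK step x A n) := by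
      intro n
      have e : KK step x A n = (⋂ k, ⋂ (_ : k < n), {δ : ℕ → E | A (wlk step x δ k) (δ k)}) ∩
          ⋂ i, ⋂ j, ⋂ (_ : i < j), ⋂ (_ : j ≤ n),
            {δ : ℕ → E | wlk step x δ i ≠ wlk step x δ j} := by
        ext δ; simp [KK]
      rw [e]
      refine IsClosed.inter ?_ ?_
      · refine isClosed_iInter fun k => isClosed_iInter fun _ => ?_
        exact (isClosed_discrete {q : V × E | A q.1 q.2}).preimage
          ((hc k).prodMk (continuous_apply k))
      · refine isClosed_iInter fun i => isClosed_iInter fun j => isClosed_iInter fun _ =>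
          isClosed_iInter fun _ => ?_
        exact (isClosed_discrete {q : V × V | q.1 ≠ q.2}).preimage ((hc i).prodMk (hc j))
    obtain ⟨δ, hδ⟩ := IsCompact.nonempty_iInter_of_sequence_nonempty_isCompact_isClosed
      (KK step x A) (fun n δ hδ => ⟨fun k hk => hδ.1 k (by omega),
        fun i j hij hj => hδ.2 i j hij (by omega)⟩) h (hcl 0).isCompact hcl
    rw [Set.mem_iInter] at hδ
    refine ⟨wlk step x δ, ?_, rfl, fun n => ⟨δ n, (hδ (n + 1)).1 n (by omega), rfl⟩⟩
    intro i j hij
    rcases lt_trichotomy i j with h' | h' | h'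
    · exact absurd hij ((hδ j).2 i j h' le_rfl)
    · exact h'
    · exact absurd hij.symm ((hδ i).2 j i h' le_rfl)

theorem measurableSet_path [MeasurableSpace Ω] [Finite E] (step : V → E → V) (x : V)
    (A : Ω → V → E → Prop) (hA : ∀ y e, MeasurableSet {ω | A ω y e}) :
    MeasurableSet {ω | ∃ γ : ℕ → V, Function.Injective γ ∧ γ 0 = x ∧
      ∀ n, ∃ e, A ω (γ n) e ∧ γ (n + 1) = step (γ n) e} := by
  simp only [path_iff]
  rw [Set.ofPred_forall]
  refine MeasurableSet.iInter fun n => ?_
  rcases isEmpty_or_nonempty E with hE | ⟨⟨e0⟩⟩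
  · convert MeasurableSet.empty
    rw [Set.eq_empty_iff_forall_notMem]
    rintro ω ⟨δ, _⟩
    exact hE.elim (δ 0)
  have e : {ω | (KK step x (A ω) n).Nonempty}
      = ⋃ l : List E, {ω | (fun k => l.getD k e0) ∈ KK step x (A ω) n} := by
    ext ω
    simp only [Set.mem_ofPred_eq, Set.mem_iUnion]
    constructor
    · rintro ⟨δ, hδ⟩
      refine ⟨(List.range n).map δ, KK_congr step x (A ω) (fun k hk => ?_) hδ⟩
      simp [List.getD, hk]
    · rintro ⟨l, hl⟩
      exact ⟨_, hl⟩
  rw [e]
  have : Countable E := Finite.to_countable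
  refine MeasurableSet.iUnion fun l => ?_
  have e2 : {ω | (fun k => l.getD k e0) ∈ KK step x (A ω) n}
      = (⋂ k, ⋂ (_ : k < n), {ω | A ω (wlk step x (fun k => l.getD k e0) k) (l.getD k e0)}) ∩
        {_ω | ∀ i j, i < j → j ≤ n → wlk step x (fun k => l.getD k e0) i
          ≠ wlk step x (fun k => l.getD k e0) j} := by
    ext ω
    simp [KK]
  rw [e2]
  exact (MeasurableSet.iInter fun k => MeasurableSet.iInter fun _ => hA _ _).inter
    (MeasurableSet.const _)

end paths

theorem measurableSet_mem_pick {d : ℕ} (x : Site d) (e : Dir d) :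
    MeasurableSet {ω : Site d → Finset (Dir d) | e ∈ ω x} := by
  have h : Measurable fun ω : Site d → Finset (Dir d) => ω x := measurable_pi_apply x
  exact h (measurableSet_mem_finset e)

theorem measurableSet_evD (d : ℕ) : MeasurableSet (evD d) :=
  measurableSet_path (Ω := Site d → Finset (Dir d)) nbr 0 (fun ω x e => e ∈ ω x)
    fun x e => measurableSet_mem_pick x e

theorem nbr_nbr {d : ℕ} (x : Site d) (e : Dir d) : nbr (nbr x e) (e.1, !e.2) = x := by
  rcases e with ⟨c, σ⟩
  funext i
  by_cases h : i = c
  · subst h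
    cases σ <;> simp [nbr]
  · cases σ <;> simp [nbr, h]

theorem measurableSet_evU (d : ℕ) : MeasurableSet (evU d) := by
  have h := measurableSet_path (Ω := Site d → Finset (Dir d)) nbr 0
    (fun ω x e => e ∈ ω x ∨ (e.1, !e.2) ∈ ω (nbr x e))
    (fun x e => (measurableSet_mem_pick x e).union (measurableSet_mem_pick _ _))
  convert h using 1
  unfold evU
  ext ω
  simp only [Set.mem_ofPred_eq]
  refine exists_congr fun γ => and_congr_right fun _ => and_congr_right fun _ =>
    forall_congr' fun n => ?_
  constructor
  · rintro (⟨e, he, h1⟩ | ⟨e, he, h1⟩)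
    · exact ⟨e, .inl he, h1⟩
    · have h2 : nbr (γ n) (e.1, !e.2) = γ (n + 1) := by rw [h1, nbr_nbr]
      refine ⟨(e.1, !e.2), .inr ?_, h2.symm⟩
      rw [h2]
      simpa using he
  · rintro ⟨e, he | he, h1⟩
    · exact .inl ⟨e, he, h1⟩
    · refine .inr ⟨(e.1, !e.2), by rw [h1]; exact he, ?_⟩
      rw [h1, nbr_nbr]

end TwoNbr
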