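import Pool.Agent.H87.NN.Trans

/-!
# Exponential decay when `phi < 1` (module NN-DECAY)

`phi_le_psi`: there are at most 4 directions and `Pr (A ∧ e ∈ ω x) ≤ Pr A`.

`decay`. Let `N = n + L + 1`, `0 ∈ S ⊆ box L`, `P = Pr (nu t) (box N)`. For a configuration `ω` let
`C(ω)` be the set of `z ∈ S` with `Rch S {z} ω 0`. If `Exits N ω 0` then there are `x ∈ C(ω)` and
`e ∈ ω x` with `step2 x e ∉ S` and `Rch (box N \ C(ω)) (box N)ᶜ ω (step2 x e)`: induction on the
path from a point `z ∈ C(ω)` to the complement of the box, or: for a path from a point `z` to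
`(box N)ᶜ`, either it avoids `C(ω)` altogether, or its part after the last point `x ∈ C(ω)` works
(the point after `x` is not in `S`, otherwise it would be in `C(ω)`). In Lean prove by induction
on `Rch`: `Rch (box N) (box N)ᶜ ω z → Rch (box N \ C) (box N)ᶜ ω z ∨ ∃ x ∈ C, ∃ e ∈ ω x,
Rch (box N \ C) (box N)ᶜ ω (step2 x e)`; for `z = 0 ∈ C` only the second alternative remains
(the first needs `0 ∈ (box N)ᶜ` or `0 ∉ C`), and in it `step2 x e ∉ S` because
`step2 x e ∈ S` would give `step2 x e ∈ C`, contradiction with `Rch (box N \ C) (box N)ᶜ ω (step2 x e)`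
(as `C ⊆ box N`).

Hence `ind (Exits N ω 0) ≤ ∑ C' ∈ powerset S, ∑ x ∈ C', ∑ e, ind (step2 x e ∉ S) *
ind (C(ω) = C' ∧ e ∈ ω x) * ind (Rch (box N \ C') (box N)ᶜ ω (step2 x e))`. The event
`C(ω) = C' ∧ e ∈ ω x`, `x ∈ C'`, depends only on `ω` on `C'`: `C(ω) = C'` iff
(`0 ∈ C'` and) every `z ∈ C'` satisfies `Rch C' {z} ω 0` and no pick from a point of `C'` leads to
`S \ C'`. The last event depends on `box N \ C'`. By `Pr_and` and `Pr_rch_le_exitP` (with
`y = step2 x e`: for `z ∉ box N`, `z - y ∉ box n` because `y ∈ box (L + 1)`),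
`exitP t N ≤ ∑ C', ∑ x ∈ C', ∑ e, ind (step2 x e ∉ S) * Pr C' (C = C' ∧ e ∈ ω x) * exitP t n`, and
`∑ C' ∋ x, Pr C' (C = C' ∧ e ∈ ω x) = ∑ C' ∋ x, Pr S (C = C' ∧ e ∈ ω x)
= Pr S (x ∈ C ∧ e ∈ ω x)`, so the right side is `phi t S * exitP t n`.
-/

open Finset

namespace NN

theorem phi_le_psi {t : ℝ} (h0 : 0 ≤ t) (h1 : t ≤ 1) (S : Finset (ℤ × ℤ)) :
    phi t S ≤ 4 * psi t S := by
  unfold phi psi
  rw [Finset.mul_sum]
  refine Finset.sum_le_sum fun x _ => ?_
  have hle : ∀ e : Bool × Bool, ind (step2 x e ∉ S) *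
      Pr (fun _ => nu t) S (fun ω => Rch step2 (S : Set (ℤ × ℤ)) {x} ω 0 ∧ e ∈ ω x) ≤
      ind (∃ e, step2 x e ∉ S) *
        Pr (fun _ => nu t) S (fun ω => Rch step2 (S : Set (ℤ × ℤ)) {x} ω 0) := by
    intro e
    refine mul_le_mul (ind_mono fun h => ⟨e, h⟩)
      (Pr_mono (fun _ _ s => nu_nonneg h0 h1 s) fun ω h => h.1)
      (Pr_nonneg fun _ _ s => nu_nonneg h0 h1 s) (ind_nonneg _)
  calc _ ≤ ∑ _e : Bool × Bool, ind (∃ e, step2 x e ∉ S) *
        Pr (fun _ => nu t) S (fun ω => Rch step2 (S : Set (ℤ × ℤ)) {x} ω 0) :=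
        Finset.sum_le_sum fun e _ => hle e
    _ = _ := by
      rw [Finset.sum_const, Finset.card_univ]
      simp

section cluster

open Classical in
/-- the points of `S` reached from `0` inside `S` -/
noncomputable def clus (S : Finset (ℤ × ℤ)) (ω : ℤ × ℤ → Finset (Bool × Bool)) :
    Finset (ℤ × ℤ) :=
  S.filter fun z => Rch step2 (S : Set (ℤ × ℤ)) {z} ω 0

variable {S C : Finset (ℤ × ℤ)} {ω : ℤ × ℤ → Finset (Bool × Bool)} {x z : ℤ × ℤ}

theorem mem_clus : z ∈ clus S ω ↔ z ∈ S ∧ Rch step2 (S : Set (ℤ × ℤ)) {z} ω 0 := by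
  simp [clus]

theorem clus_subset : clus S ω ⊆ S := fun _ h => (mem_clus.1 h).1

theorem zero_mem_clus (h : (0 : ℤ × ℤ) ∈ S) : (0 : ℤ × ℤ) ∈ clus S ω :=
  mem_clus.2 ⟨h, .hit rfl⟩

theorem clus_closed (hx : x ∈ clus S ω) {e : Bool × Bool} (he : e ∈ ω x)
    (hS : step2 x e ∈ S) : step2 x e ∈ clus S ω :=
  mem_clus.2 ⟨hS, rch_snoc (mem_clus.1 hx).2 (mem_clus.1 hx).1 he⟩

theorem rch_clus {T : Set (ℤ × ℤ)} (h : Rch step2 (S : Set (ℤ × ℤ)) T ω x)
    (hx : Rch step2 (S : Set (ℤ × ℤ)) {x} ω 0) :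
    Rch step2 (clus S ω : Set (ℤ × ℤ)) T ω x := by
  induction h with
  | hit h => exact .hit h
  | go h1 h2 _ ih =>
    exact .go (mem_clus.2 ⟨h1, hx⟩) h2 (ih (rch_snoc hx h1 h2))

/-- the event that the cluster is `C`, seen from `C` -/
theorem clus_eq_iff (h0 : (0 : ℤ × ℤ) ∈ S) (hC : C ⊆ S) :
    clus S ω = C ↔ ((0 : ℤ × ℤ) ∈ C ∧ (∀ z ∈ C, Rch step2 (C : Set (ℤ × ℤ)) {z} ω 0) ∧
      ∀ z ∈ C, ∀ e ∈ ω z, step2 z e ∈ S → step2 z e ∈ C) := by
  constructor
  · rintro rfl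
    refine ⟨zero_mem_clus h0, fun z hz => ?_, fun z hz e he h => clus_closed hz he h⟩
    exact rch_clus (mem_clus.1 hz).2 (.hit rfl)
  · rintro ⟨h1, h2, h3⟩
    ext z
    constructor
    · intro hz
      obtain ⟨hzS, hz⟩ := mem_clus.1 hz
      have key : ∀ x, Rch step2 (S : Set (ℤ × ℤ)) {z} ω x → x ∈ C → z ∈ C := by
        intro x h
        induction h with
        | hit h => intro hx; rw [Set.mem_singleton_iff] at h; exact h ▸ hx
        | @go x e hx he hr ih =>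
          intro hxC
          refine ih (h3 x hxC e he ?_)
          rcases rch_or_mem hr with h | h
          · rw [Set.mem_singleton_iff] at h; exact h ▸ hzS
          · exact h
      exact key 0 hz h1
    · intro hz
      exact mem_clus.2 ⟨hC hz, rch_mono (by exact_mod_cast hC) subset_rfl (h2 z hz)⟩

theorem dependsOn_clus (h0 : (0 : ℤ × ℤ) ∈ S) (hC : C ⊆ S) (hx : x ∈ C) (e : Bool × Bool) :
    DependsOn (fun ω : ℤ × ℤ → Finset (Bool × Bool) => clus S ω = C ∧ e ∈ ω x)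
      (C : Set (ℤ × ℤ)) := by
  intro ω ω' h
  have hx' : ω x = ω' x := h x hx
  refine propext ?_
  change (clus S ω = C ∧ e ∈ ω x) ↔ (clus S ω' = C ∧ e ∈ ω' x)
  rw [clus_eq_iff h0 hC, clus_eq_iff h0 hC, hx']
  refine and_congr (and_congr_right fun _ => and_congr ?_ ?_) Iff.rfl
  · exact forall₂_congr fun z hz => rch_congr h
  · refine forall₂_congr fun z hz => ?_
    rw [h z hz]

/-- the last point in the cluster -/
theorem rch_last {D T : Set (ℤ × ℤ)} (h : Rch step2 D T ω z) :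
    Rch step2 (D \ C) T ω z ∨ ∃ x ∈ C, ∃ e ∈ ω x, Rch step2 (D \ C) T ω (step2 x e) := by
  induction h with
  | hit h => exact .inl (.hit h)
  | @go x e h1 h2 _ ih =>
    rcases ih with ih | ih
    · by_cases hx : x ∈ C
      · exact .inr ⟨x, hx, e, h2, ih⟩
      · exact .inl (.go ⟨h1, by exact_mod_cast hx⟩ h2 ih)
    · exact .inr ih

theorem box_mono {m n : ℕ} (h : m ≤ n) : box m ⊆ box n := by
  unfold box
  refine Finset.product_subset_product ?_ ?_ <;>
  · intro a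
    simp only [Finset.mem_Icc]
    omega

theorem step2_sub_not_mem {L n : ℕ} (hx : x ∈ box L) (e : Bool × Bool)
    (hz : z ∉ box (n + L + 1)) : z - step2 x e ∉ box n := by
  intro hc
  apply hz
  obtain ⟨z1, z2⟩ := z
  obtain ⟨x1, x2⟩ := x
  obtain ⟨a, b⟩ := e
  simp only [box, Finset.mem_product, Finset.mem_Icc] at *
  rcases a <;> rcases b <;> simp [step2, sg] at * <;> omega

end cluster

theorem decay {t : ℝ} (h0 : 0 ≤ t) (h1 : t ≤ 1) {S : Finset (ℤ × ℤ)} (hS0 : (0 : ℤ × ℤ) ∈ S)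
    {L : ℕ} (hS : S ⊆ box L) (n : ℕ) : exitP t (n + L + 1) ≤ phi t S * exitP t n := by
  set N := n + L + 1 with hN
  have hw : ∀ s, 0 ≤ nu t s := fun s => nu_nonneg h0 h1 s
  have hSN : S ⊆ box N := hS.trans (box_mono (by omega))
  -- the pointwise estimate
  have hpt : ∀ ω : ℤ × ℤ → Finset (Bool × Bool), ind (Exits N ω 0) ≤
      ∑ x ∈ S, ∑ e : Bool × Bool, ∑ C ∈ S.powerset, (ind (step2 x e ∉ S) * ind (x ∈ C)) *
        ind ((clus S ω = C ∧ e ∈ ω x) ∧
          Rch step2 ((box N \ C : Finset (ℤ × ℤ)) : Set (ℤ × ℤ)) (box N : Set (ℤ × ℤ))ᶜ ω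
            (step2 x e)) := by
    intro ω
    by_cases h : Exits N ω 0
    swap
    · rw [ind_neg h]
      exact Finset.sum_nonneg fun x _ => Finset.sum_nonneg fun e _ => Finset.sum_nonneg fun C _ =>
        mul_nonneg (mul_nonneg (ind_nonneg _) (ind_nonneg _)) (ind_nonneg _)
    have hc0 : (0 : ℤ × ℤ) ∈ clus S ω := zero_mem_clus hS0
    obtain ⟨x, hx, e, he, hr⟩ : ∃ x ∈ clus S ω, ∃ e ∈ ω x,
        Rch step2 ((box N : Set (ℤ × ℤ)) \ clus S ω) (box N : Set (ℤ × ℤ))ᶜ ω (step2 x e) := by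
      rcases rch_last (C := clus S ω) h with h | h
      · exfalso
        rcases rch_or_mem h with h | h
        · exact h (hSN hS0)
        · exact h.2 hc0
      · exact h
    have hxe : step2 x e ∉ S := by
      intro hc
      have hcl := clus_closed hx he hc
      rcases rch_or_mem hr with h | h
      · exact h (hSN hc)
      · exact h.2 hcl
    have hr' : Rch step2 ((box N \ clus S ω : Finset (ℤ × ℤ)) : Set (ℤ × ℤ))
        (box N : Set (ℤ × ℤ))ᶜ ω (step2 x e) := by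
      rwa [Finset.coe_sdiff]
    rw [ind_pos h]
    have hnn : ∀ (x : ℤ × ℤ) (e : Bool × Bool) (C : Finset (ℤ × ℤ)),
        0 ≤ (ind (step2 x e ∉ S) * ind (x ∈ C)) *
        ind ((clus S ω = C ∧ e ∈ ω x) ∧
          Rch step2 ((box N \ C : Finset (ℤ × ℤ)) : Set (ℤ × ℤ)) (box N : Set (ℤ × ℤ))ᶜ ω
            (step2 x e)) := fun x e C =>
      mul_nonneg (mul_nonneg (ind_nonneg _) (ind_nonneg _)) (ind_nonneg _)
    calc (1 : ℝ) = (ind (step2 x e ∉ S) * ind (x ∈ clus S ω)) *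
        ind ((clus S ω = clus S ω ∧ e ∈ ω x) ∧
          Rch step2 ((box N \ clus S ω : Finset (ℤ × ℤ)) : Set (ℤ × ℤ))
            (box N : Set (ℤ × ℤ))ᶜ ω (step2 x e)) := by
          rw [ind_pos hxe, ind_pos hx, ind_pos ⟨⟨rfl, he⟩, hr'⟩]
          norm_num
      _ ≤ ∑ C ∈ S.powerset, (ind (step2 x e ∉ S) * ind (x ∈ C)) *
        ind ((clus S ω = C ∧ e ∈ ω x) ∧
          Rch step2 ((box N \ C : Finset (ℤ × ℤ)) : Set (ℤ × ℤ)) (box N : Set (ℤ × ℤ))ᶜ ω
            (step2 x e)) :=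
          Finset.single_le_sum (f := fun C => (ind (step2 x e ∉ S) * ind (x ∈ C)) *
            ind ((clus S ω = C ∧ e ∈ ω x) ∧
              Rch step2 ((box N \ C : Finset (ℤ × ℤ)) : Set (ℤ × ℤ)) (box N : Set (ℤ × ℤ))ᶜ ω
                (step2 x e))) (fun C _ => hnn x e C) (Finset.mem_powerset.2 clus_subset)
      _ ≤ ∑ e : Bool × Bool, ∑ C ∈ S.powerset, (ind (step2 x e ∉ S) * ind (x ∈ C)) *
        ind ((clus S ω = C ∧ e ∈ ω x) ∧
          Rch step2 ((box N \ C : Finset (ℤ × ℤ)) : Set (ℤ × ℤ)) (box N : Set (ℤ × ℤ))ᶜ ω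
            (step2 x e)) :=
          Finset.single_le_sum (f := fun e => ∑ C ∈ S.powerset,
            (ind (step2 x e ∉ S) * ind (x ∈ C)) *
            ind ((clus S ω = C ∧ e ∈ ω x) ∧
              Rch step2 ((box N \ C : Finset (ℤ × ℤ)) : Set (ℤ × ℤ)) (box N : Set (ℤ × ℤ))ᶜ ω
                (step2 x e))) (fun e _ => Finset.sum_nonneg fun C _ => hnn x e C)
            (Finset.mem_univ e)
      _ ≤ _ :=
          Finset.single_le_sum (f := fun x => ∑ e : Bool × Bool, ∑ C ∈ S.powerset,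
            (ind (step2 x e ∉ S) * ind (x ∈ C)) *
            ind ((clus S ω = C ∧ e ∈ ω x) ∧
              Rch step2 ((box N \ C : Finset (ℤ × ℤ)) : Set (ℤ × ℤ)) (box N : Set (ℤ × ℤ))ᶜ ω
                (step2 x e))) (fun x _ => Finset.sum_nonneg fun e _ =>
                  Finset.sum_nonneg fun C _ => hnn x e C) (clus_subset hx)
  have hEx : exitP t N ≤ ∑ x ∈ S, ∑ e : Bool × Bool, ∑ C ∈ S.powerset,
      (ind (step2 x e ∉ S) * ind (x ∈ C)) *
        Pr (fun _ => nu t) (box N) (fun ω => (clus S ω = C ∧ e ∈ ω x) ∧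
          Rch step2 ((box N \ C : Finset (ℤ × ℤ)) : Set (ℤ × ℤ)) (box N : Set (ℤ × ℤ))ᶜ ω
            (step2 x e)) := by
    unfold exitP Pr
    refine (Ex_mono (fun _ _ => hw) hpt _).trans (le_of_eq ?_)
    simp only [Ex_sum, Ex_smul]
  refine hEx.trans ?_
  -- the product estimate
  have hprod : ∀ x ∈ S, ∀ (e : Bool × Bool), ∀ C ∈ S.powerset,
      (ind (step2 x e ∉ S) * ind (x ∈ C)) *
        Pr (fun _ => nu t) (box N) (fun ω => (clus S ω = C ∧ e ∈ ω x) ∧
          Rch step2 ((box N \ C : Finset (ℤ × ℤ)) : Set (ℤ × ℤ)) (box N : Set (ℤ × ℤ))ᶜ ω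
            (step2 x e)) ≤
      (ind (step2 x e ∉ S) * ind (x ∈ C)) *
        (Pr (fun _ => nu t) S (fun ω => clus S ω = C ∧ e ∈ ω x) * exitP t n) := by
    intro x hx e C hC
    rw [Finset.mem_powerset] at hC
    by_cases hxC : x ∈ C
    swap
    · rw [ind_neg hxC]; simp
    refine mul_le_mul_of_nonneg_left ?_ (mul_nonneg (ind_nonneg _) (ind_nonneg _))
    have hdep := dependsOn_clus hS0 hC hxC e
    have hCN : C ⊆ box N := hC.trans hSN
    have hunion : C ∪ (box N \ C) = box N := Finset.union_sdiff_of_subset hCN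
    have hand := Pr_and (w := fun _ => nu t) (B₁ := C) (B₂ := box N \ C) hdep
      (dependsOn_rch (step := step2) (Av := ((box N \ C : Finset (ℤ × ℤ)) : Set (ℤ × ℤ)))
        (T := (box N : Set (ℤ × ℤ))ᶜ) (x := step2 x e))
      Finset.disjoint_sdiff (fun i hi h => (Finset.mem_sdiff.1 hi).2 (by exact_mod_cast h))
      (fun i hi h => (Finset.mem_sdiff.1 (by exact_mod_cast h : i ∈ box N \ C)).2 hi)
    rw [hunion] at hand
    rw [hand, ← Pr_restrict (w := fun _ => nu t) hC hdep (fun _ _ => nu_sum t)]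
    refine mul_le_mul_of_nonneg_left ?_ (Pr_nonneg fun _ _ => hw)
    refine Pr_rch_le_exitP h0 h1 subset_rfl ?_
    intro z hz
    exact step2_sub_not_mem (hS hx) e (by rw [← hN]; simpa using hz)
  -- the sum over the clusters
  have hsum : ∀ x ∈ S, ∀ (e : Bool × Bool), ∑ C ∈ S.powerset, ind (x ∈ C) *
        Pr (fun _ => nu t) S (fun ω => clus S ω = C ∧ e ∈ ω x) =
      Pr (fun _ => nu t) S (fun ω => Rch step2 (S : Set (ℤ × ℤ)) {x} ω 0 ∧ e ∈ ω x) := by
    intro x hx e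
    unfold Pr
    have hfun : (fun ω : ℤ × ℤ → Finset (Bool × Bool) =>
        ind (Rch step2 (S : Set (ℤ × ℤ)) {x} ω 0 ∧ e ∈ ω x)) =
        fun ω => ∑ C ∈ S.powerset, ind (x ∈ C) * ind (clus S ω = C ∧ e ∈ ω x) := by
      funext ω
      rw [Finset.sum_eq_single (clus S ω)]
      · rw [← ind_and]
        refine ind_congr ?_
        rw [mem_clus]
        tauto
      · intro C _ hC
        rw [ind_neg (p := clus S ω = C ∧ e ∈ ω x) (fun h => hC h.1.symm), mul_zero]
      · intro h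
        exact absurd (Finset.mem_powerset.2 clus_subset) h
    rw [hfun]
    simp only [Ex_sum, Ex_smul]
  calc _ ≤ ∑ x ∈ S, ∑ e : Bool × Bool, ∑ C ∈ S.powerset,
      (ind (step2 x e ∉ S) * ind (x ∈ C)) *
        (Pr (fun _ => nu t) S (fun ω => clus S ω = C ∧ e ∈ ω x) * exitP t n) :=
        Finset.sum_le_sum fun x hx => Finset.sum_le_sum fun e _ => Finset.sum_le_sum fun C hC =>
          hprod x hx e C hC
    _ = phi t S * exitP t n := by
      unfold phi
      rw [Finset.sum_mul]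
      refine Finset.sum_congr rfl fun x hx => ?_
      rw [Finset.sum_mul]
      refine Finset.sum_congr rfl fun e _ => ?_
      rw [← hsum x hx e, Finset.mul_sum, Finset.sum_mul]
      refine Finset.sum_congr rfl fun C _ => ?_
      ring

end NN
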