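import Mathlib

/-!
# MP_e2dabb_pr : common definitions

`V` sites, `E` directions, `step x e` the site seen from `x` in direction `e`, a configuration
`ω : V → Finset E` tells which directions every site picks.

`Rch step Av T ω x`: there is a directed path of `ω` from `x` to the set `T`, all vertices of which
except the last one are in `Av`.

`Rs w i F` resamples the site `i` with the (possibly signed) law `w i`; `Ex w B F` resamples all
sites of the finite set `B`, so `Ex w B F ω` is the expectation of `F` when the sites of `B`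
are independent with laws `w i` and the other sites are frozen at `ω`.
-/

open Finset

namespace NN

variable {V E : Type*}

/-- indicator of a proposition -/
noncomputable def ind (p : Prop) : ℝ := by
  classical exact if p then 1 else 0

section ind

variable {p q : Prop}

theorem ind_pos (h : p) : ind p = 1 := by simp [ind, h]
theorem ind_neg (h : ¬ p) : ind p = 0 := by simp [ind, h]
@[simp] theorem ind_true : ind True = 1 := ind_pos trivial
@[simp] theorem ind_false : ind False = 0 := ind_neg id
theorem ind_nonneg (p : Prop) : 0 ≤ ind p := by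
  by_cases h : p <;> simp [ind, h]
theorem ind_le_one (p : Prop) : ind p ≤ 1 := by
  by_cases h : p <;> simp [ind, h]
theorem ind_mono (h : p → q) : ind p ≤ ind q := by
  by_cases hp : p
  · rw [ind_pos hp, ind_pos (h hp)]
  · rw [ind_neg hp]; exact ind_nonneg _
theorem ind_and (p q : Prop) : ind (p ∧ q) = ind p * ind q := by
  by_cases hp : p <;> by_cases hq : q <;> simp [ind, hp, hq]
theorem ind_not (p : Prop) : ind (¬ p) = 1 - ind p := by
  by_cases hp : p <;> simp [ind, hp]
theorem ind_or_le (p q : Prop) : ind (p ∨ q) ≤ ind p + ind q := by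
  by_cases hp : p <;> by_cases hq : q <;> simp [ind, hp, hq]
theorem ind_congr (h : p ↔ q) : ind p = ind q := by rw [propext h]
theorem ind_eq_ite (p : Prop) [Decidable p] : ind p = if p then 1 else 0 := by
  by_cases h : p <;> simp [ind, h]
theorem ind_exists_le {ι : Type*} (s : Finset ι) (p : ι → Prop) :
    ind (∃ i ∈ s, p i) ≤ ∑ i ∈ s, ind (p i) := by
  by_cases h : ∃ i ∈ s, p i
  · obtain ⟨i, hi, hp⟩ := h
    calc ind _ ≤ 1 := ind_le_one _
      _ = ind (p i) := (ind_pos hp).symm
      _ ≤ _ := Finset.single_le_sum (f := fun i => ind (p i)) (fun j _ => ind_nonneg _) hi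
  · rw [ind_neg h]
    exact Finset.sum_nonneg fun j _ => ind_nonneg _

end ind

/-- `Rch step Av T ω x`: from `x` one can reach the target set `T` following picked directions,
all vertices before the target being in `Av`. -/
inductive Rch (step : V → E → V) (Av T : Set V) (ω : V → Finset E) : V → Prop
  | hit {x : V} : x ∈ T → Rch step Av T ω x
  | go {x : V} {e : E} : x ∈ Av → e ∈ ω x → Rch step Av T ω (step x e) → Rch step Av T ω x

section ops

variable [Fintype E] [DecidableEq V]

/-- resampling of the site `i` with the law `w i` -/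
noncomputable def Rs (w : V → Finset E → ℝ) (i : V) (F : (V → Finset E) → ℝ) :
    (V → Finset E) → ℝ :=
  fun ω => ∑ s : Finset E, w i s * F (Function.update ω i s)

theorem Rs_comm (w w' : V → Finset E → ℝ) {i j : V} (hij : i ≠ j)
    (F : (V → Finset E) → ℝ) : Rs w i (Rs w' j F) = Rs w' j (Rs w i F) := by
  funext ω
  simp only [Rs, Finset.mul_sum]
  rw [Finset.sum_comm]
  refine Finset.sum_congr rfl fun s _ => Finset.sum_congr rfl fun t _ => ?_
  rw [Function.update_comm hij]
  ring

instance (w : V → Finset E → ℝ) : LeftCommutative (Rs w) where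
  left_comm i j F := by
    rcases eq_or_ne i j with rfl | h
    · rfl
    · exact Rs_comm w w h F

/-- expectation over the sites of the finite set `B` -/
noncomputable def Ex (w : V → Finset E → ℝ) (B : Finset V) (F : (V → Finset E) → ℝ) :
    (V → Finset E) → ℝ :=
  B.val.foldr (Rs w) F

/-- probability of the event `A` when the sites of `B` are independent with laws `w i` and the
other sites pick nothing -/
noncomputable def Pr (w : V → Finset E → ℝ) (B : Finset V) (A : (V → Finset E) → Prop) : ℝ :=
  Ex w B (fun ω => ind (A ω)) (fun _ => ∅)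

/-- probability that a set with law `w` avoids `A` -/
noncomputable def avd (w : Finset E → ℝ) (A : Finset E) : ℝ :=
  ∑ s : Finset E, w s * ind (Disjoint s A)

end ops

/-! ### The planar model -/

/-- `±1` -/
def sg (b : Bool) : ℤ := if b then 1 else -1

/-- nearest neighbours in `ℤ × ℤ`; the first boolean is the axis -/
def step2 (x : ℤ × ℤ) (e : Bool × Bool) : ℤ × ℤ :=
  if e.1 then (x.1, x.2 + sg e.2) else (x.1 + sg e.2, x.2)

/-- the mixture `(1-t)` independent fair coins `+ t` uniform pairs -/
noncomputable def nu (t : ℝ) (s : Finset (Bool × Bool)) : ℝ :=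
  (1 - t) * (1 / 16) + t * (if s.card = 2 then 1 / 6 else 0)

/-- the box `[-n,n]²` -/
noncomputable def box (n : ℕ) : Finset (ℤ × ℤ) := Finset.Icc (-(n : ℤ)) n ×ˢ Finset.Icc (-(n : ℤ)) n

/-- `x` reaches the complement of the box `[-n,n]²` -/
def Exits (n : ℕ) (ω : ℤ × ℤ → Finset (Bool × Bool)) (x : ℤ × ℤ) : Prop :=
  Rch step2 (box n : Set (ℤ × ℤ)) (box n : Set (ℤ × ℤ))ᶜ ω x

/-- probability that the origin reaches the complement of the box -/
noncomputable def exitP (t : ℝ) (n : ℕ) : ℝ := Pr (fun _ => nu t) (box n) (fun ω => Exits n ω 0)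

/-- the origin does not exit, it reaches `x`, and a neighbour of `x` exits -/
def K1 (n : ℕ) (x : ℤ × ℤ) (ω : ℤ × ℤ → Finset (Bool × Bool)) : Prop :=
  ¬ Exits n ω 0 ∧ Rch step2 (box n : Set (ℤ × ℤ)) {x} ω 0 ∧ ∃ e, Exits n ω (step2 x e)

/-- the origin does not exit, it reaches `x`, and two neighbours of `x` exit -/
def K2 (n : ℕ) (x : ℤ × ℤ) (ω : ℤ × ℤ → Finset (Bool × Bool)) : Prop :=
  ¬ Exits n ω 0 ∧ Rch step2 (box n : Set (ℤ × ℤ)) {x} ω 0 ∧
    ∃ e e', e ≠ e' ∧ Exits n ω (step2 x e) ∧ Exits n ω (step2 x e')

/-- expected number of boundary points of `S` reached inside `S` -/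
noncomputable def psi (t : ℝ) (S : Finset (ℤ × ℤ)) : ℝ :=
  ∑ x ∈ S, ind (∃ e, step2 x e ∉ S) *
    Pr (fun _ => nu t) S (fun ω => Rch step2 (S : Set (ℤ × ℤ)) {x} ω 0)

/-- expected number of picked arcs leaving `S` from a point reached inside `S` -/
noncomputable def phi (t : ℝ) (S : Finset (ℤ × ℤ)) : ℝ :=
  ∑ x ∈ S, ∑ e : Bool × Bool, ind (step2 x e ∉ S) *
    Pr (fun _ => nu t) S (fun ω => Rch step2 (S : Set (ℤ × ℤ)) {x} ω 0 ∧ e ∈ ω x)

end NN
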