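import Pool.Agent.H87.NN.Reach
import Pool.Agent.H87.NN.Alg

/-!
# Domination (module NN-DOM)

Theorem. If at every site `i ∈ B` the laws `w i`, `w' i` have the same total mass and for every
set `A` of directions leading to `Av ∪ T` the law `w' i` avoids `A` with at most the mass of `w i`,
then `Rch step Av T · x` has at most the mass under `w` that it has under `w'`.

Proof.
(1) One site (`Rs_rch_le`), pointwise in `ω`. By `rch_update_iff`,
`Rch Av T (update ω i s) x ↔ R₁ ∨ (i ∈ Av ∧ R₂ ∧ ∃ e ∈ s, R₃ e)`, with `R₁, R₂, R₃` independent of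
`s`. If `R₁` both sides are the total masses. If not `R₁` and not (`i ∈ Av ∧ R₂`), both sides
vanish. Otherwise, with `A = {e | R₃ e}` (`Finset.univ.filter`), the indicator is
`1 - ind (Disjoint s A)`, so the side for `w` is `∑ s, w i s - avd (w i) A`; and `R₃ e`
implies `step i e ∈ T ∪ Av` (`rch_or_mem`).
(2) Induction on `B` (`Finset.induction_on`): `Ex w (insert i B) F = Ex w B (Rs w i F)`
(`Ex_insert'`) `≤ Ex w B (Rs w' i F)` (`Ex_mono` and (1)) `= Rs w' i (Ex w B F)` (this needs the
commutation of `Rs w' i` with `Ex w B`, `Rs_Ex_comm`) `≤ Rs w' i (Ex w' B F)` (`Rs_mono` and the induction hypothesis)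
`= Ex w' (insert i B) F`.
-/

open Finset

namespace NN

variable {V E : Type*} [Fintype E] [DecidableEq V] {w w' : V → Finset E → ℝ} {B : Finset V}
  {step : V → E → V} {Av T : Set V} {x : V}

theorem Rs_rch_le {i : V} (htot : ∑ s, w i s = ∑ s, w' i s)
    (hav : ∀ A : Finset E, (∀ e ∈ A, step i e ∈ Av ∪ T) → avd (w' i) A ≤ avd (w i) A)
    (ω : V → Finset E) :
    Rs w i (fun ω => ind (Rch step Av T ω x)) ω ≤ Rs w' i (fun ω => ind (Rch step Av T ω x)) ω := by
  classical
  by_cases h1 : Rch step (Av \ {i}) T ω x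
  · have key : ∀ s, ind (Rch step Av T (Function.update ω i s) x) = 1 := fun s =>
      ind_pos ((rch_update_iff i s).2 (.inl h1))
    simp only [Rs, key, mul_one]
    exact htot.le
  by_cases h2 : i ∈ Av ∧ Rch step (Av \ {i}) {i} ω x
  · have key : ∀ s, ind (Rch step Av T (Function.update ω i s) x) =
        1 - ind (Disjoint s (Finset.univ.filter fun e => Rch step (Av \ {i}) T ω (step i e))) := by
      intro s
      rw [← ind_not]
      refine ind_congr ?_
      rw [rch_update_iff, Finset.not_disjoint_iff]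
      constructor
      · rintro (h | ⟨_, _, e, he, h⟩)
        · exact absurd h h1
        · exact ⟨e, he, Finset.mem_filter.2 ⟨Finset.mem_univ _, h⟩⟩
      · rintro ⟨e, he, h⟩
        exact .inr ⟨h2.1, h2.2, e, he, (Finset.mem_filter.1 h).2⟩
    have hA := hav (Finset.univ.filter fun e => Rch step (Av \ {i}) T ω (step i e)) (by
      intro e he
      rcases rch_or_mem (Finset.mem_filter.1 he).2 with h | h
      · exact .inr h
      · exact .inl h.1)
    simp only [Rs, key, mul_sub, mul_one, Finset.sum_sub_distrib]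
    unfold avd at hA
    linarith
  · have key : ∀ s, ind (Rch step Av T (Function.update ω i s) x) = 0 := by
      intro s
      refine ind_neg ?_
      rw [rch_update_iff]
      rintro (h | ⟨ha, hb, _⟩)
      · exact h1 h
      · exact h2 ⟨ha, hb⟩
    simp only [Rs, key, mul_zero, le_refl]

theorem Ex_rch_le (hw : ∀ i ∈ B, ∀ s, 0 ≤ w i s) (hw' : ∀ i ∈ B, ∀ s, 0 ≤ w' i s)
    (htot : ∀ i ∈ B, ∑ s, w i s = ∑ s, w' i s)
    (hav : ∀ i ∈ B, ∀ A : Finset E, (∀ e ∈ A, step i e ∈ Av ∪ T) →
      avd (w' i) A ≤ avd (w i) A) (ω : V → Finset E) :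
    Ex w B (fun ω => ind (Rch step Av T ω x)) ω ≤
      Ex w' B (fun ω => ind (Rch step Av T ω x)) ω := by
  induction B using Finset.induction_on generalizing ω with
  | empty => exact le_rfl
  | insert i B hi ih =>
    have hB := ih (fun j hj => hw j (Finset.mem_insert_of_mem hj))
      (fun j hj => hw' j (Finset.mem_insert_of_mem hj))
      (fun j hj => htot j (Finset.mem_insert_of_mem hj))
      (fun j hj => hav j (Finset.mem_insert_of_mem hj))
    have hi' := Finset.mem_insert_self i B
    rw [Ex_insert' hi]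
    refine (Ex_mono (fun j hj => hw j (Finset.mem_insert_of_mem hj))
      (Rs_rch_le (htot i hi') (hav i hi')) ω).trans ?_
    rw [← Rs_Ex_comm hi, Ex_insert hi]
    exact Rs_mono (hw' i hi') hB ω

end NN
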