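import Mathlib

/-!
# The flux identity (module NN-FLUX)

For `c, c' : ℕ → ℕ → ℤ`, `n ≥ 1`, with `c 0 j = 1`, `c n j = 0`, `c' 0 i = 1`, `c' n i = 0` for
`i, j < n`,
`∑_{i<n} ∑_{j<n} (c i j - c (i+1) j) (c' j i - c' (j+1) i)
 + ∑_{i<n-1} ∑_{j<n-1} (c (i+1) (j+1) - c (i+1) j) (c' (j+1) i - c' (j+1) (i+1)) = 1`.

Proof (summation by parts twice). Fix `i`, let `g j = c i j - c (i+1) j`, `h j = c' j i`. Then
`∑_{j<n} g j (h j - h (j+1)) = g 0 h 0 + ∑_{j<n-1} (g (j+1) - g j) h (j+1) - g (n-1) h n`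
`= g 0 + ∑_{j<n-1} (g (j+1) - g j) c' (j+1) i`.
Sum over `i`: `∑_{i<n} (c i 0 - c (i+1) 0) = c 0 0 - c n 0 = 1`. For fixed `j`, with
`u i = c i (j+1) - c i j`, `u 0 = 0`, `u n = 0`, `v i = c' (j+1) i`:
`g (j+1) - g j = u i - u (i+1)` and
`∑_{i<n} (u i - u (i+1)) v i = u 0 v 0 + ∑_{i<n-1} u (i+1) (v (i+1) - v i) - u n v (n-1)
= ∑_{i<n-1} u (i+1) (v (i+1) - v i)`, which cancels with the second sum.
-/

open Finset

namespace NN

private theorem parts (f h : ℕ → ℤ) (m : ℕ) :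
    ∑ j ∈ range (m + 1), f j * (h j - h (j + 1)) =
      f 0 * h 0 - f m * h (m + 1) + ∑ j ∈ range m, (f (j + 1) - f j) * h (j + 1) := by
  induction m with
  | zero => simp; ring
  | succ m ih => rw [sum_range_succ, ih, sum_range_succ _ m]; ring

private theorem parts' (u v : ℕ → ℤ) (m : ℕ) :
    ∑ i ∈ range (m + 1), (u i - u (i + 1)) * v i =
      u 0 * v 0 - u (m + 1) * v m + ∑ i ∈ range m, u (i + 1) * (v (i + 1) - v i) := by
  induction m with
  | zero => simp; ring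
  | succ m ih => rw [sum_range_succ, ih, sum_range_succ _ m]; ring

theorem flux_identity (n : ℕ) (hn : 1 ≤ n) (c c' : ℕ → ℕ → ℤ)
    (h0 : ∀ j < n, c 0 j = 1) (h1 : ∀ j < n, c n j = 0)
    (h0' : ∀ i < n, c' 0 i = 1) (h1' : ∀ i < n, c' n i = 0) :
    ∑ i ∈ range n, ∑ j ∈ range n, (c i j - c (i + 1) j) * (c' j i - c' (j + 1) i) +
      ∑ i ∈ range (n - 1), ∑ j ∈ range (n - 1),
        (c (i + 1) (j + 1) - c (i + 1) j) * (c' (j + 1) i - c' (j + 1) (i + 1)) = 1 := by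
  obtain ⟨m, rfl⟩ : ∃ m, n = m + 1 := ⟨n - 1, by omega⟩
  rw [Nat.add_sub_cancel]
  have e1 : ∑ i ∈ range (m + 1), ∑ j ∈ range (m + 1),
      (c i j - c (i + 1) j) * (c' j i - c' (j + 1) i) =
      ∑ i ∈ range (m + 1), ((c i 0 - c (i + 1) 0) +
        ∑ j ∈ range m, ((c i (j + 1) - c i j) - (c (i + 1) (j + 1) - c (i + 1) j)) *
          c' (j + 1) i) := by
    refine sum_congr rfl fun i hi => ?_
    rw [parts (fun j => c i j - c (i + 1) j) (fun j => c' j i) m, h0' i (mem_range.1 hi),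
      h1' i (mem_range.1 hi), mul_one, mul_zero, sub_zero]
    congr 1
    refine sum_congr rfl fun j _ => ?_
    ring
  have e2 : ∑ i ∈ range (m + 1), (c i 0 - c (i + 1) 0) = 1 := by
    rw [sum_range_sub', h0 0 (by omega), h1 0 (by omega), sub_zero]
  have e3 : ∑ i ∈ range (m + 1), ∑ j ∈ range m,
      ((c i (j + 1) - c i j) - (c (i + 1) (j + 1) - c (i + 1) j)) * c' (j + 1) i =
      ∑ j ∈ range m, ∑ i ∈ range m,
        (c (i + 1) (j + 1) - c (i + 1) j) * (c' (j + 1) (i + 1) - c' (j + 1) i) := by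
    rw [sum_comm]
    refine sum_congr rfl fun j hj => ?_
    have hj := mem_range.1 hj
    rw [parts' (fun i => c i (j + 1) - c i j) (fun i => c' (j + 1) i) m]
    simp only [h0 (j + 1) (by omega), h0 j (by omega), h1 (j + 1) (by omega), h1 j (by omega),
      sub_self, zero_mul, zero_add]
  rw [e1, sum_add_distrib, e2, e3, sum_comm (s := range m) (t := range m), add_assoc,
    ← sum_add_distrib]
  rw [sum_eq_zero, add_zero]
  intro i _
  rw [← sum_add_distrib]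
  refine sum_eq_zero fun j _ => ?_
  ring

end NN
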