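import Pool.Agent.H87.NN.Reach
import Pool.Agent.H87.NN.Flux

/-!
# Directed self-duality (module NN-DUAL)

`Sq n` is the square `{0,…,n-1}²`, `Rt n` the segment `{n} × {0,…,n-1}` on its right. `Cross n ω`:
a directed path of picks leads from a point `(0, j)`, `0 ≤ j < n`, to `Rt n` through `Sq n`.

`bet n` is an involution of the arcs `(z, e)`, `z ∈ Sq n` (`R = (false, true)`, `L = (false, false)`,
`U = (true, true)`, `D = (true, false)`):
* `R` at `(p, q)` ↔ `R` at `(q, p)`;
* `L` at `(p, q)` ↔ `L` at `(q+1, p-1)` when `1 ≤ p`, `q ≤ n-2`; other `L` arcs are fixed;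
* `U` at `(p, q)` ↔ `D` at `(q+1, p)` when `1 ≤ p`, `q ≤ n-2`, i.e.
  `D` at `(p, q)` ↔ `U` at `(q, p-1)` when `1 ≤ p`, `1 ≤ q`; other `U`, `D` arcs are fixed.
`Phi n ω` picks the arc `(z, e)` iff `ω` does not pick `bet n (z, e)`.

**Theorem** (`cross_or_dual_cross`): if not `Cross n ω`, then `Cross n (Phi n ω)`.

Proof. Let `c i j = 1` if `(i, j) ∈ Sq n ∪ Rt n` is reached from some `(0, j')` through `Sq n`
(`Rch step2 (Sq n) {(i,j)} ω (0,j')`), else `0`, and `c'` the same for `ω' = Phi n ω`.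
Suppose there is no crossing for `ω` and for `ω'`. Then `c 0 j = c' 0 j = 1` and
`c n j = c' n j = 0` for `j < n`. By `flux_identity` one of the terms is positive, hence:
* (A+) `c i j = 1`, `c (i+1) j = 0`, `c' j i = 1`, `c' (j+1) i = 0` with `i, j < n`. `R` at `(i, j)` is
  not picked by `ω` (else `(i+1, j)` would be reached), so `R` at `(j, i)` is picked by `ω'`, and
  `(j+1, i)` is reached for `ω'`, contradiction.
* (A-) `c i j = 0`, `c (i+1) j = 1`, `c' j i = 0`, `c' (j+1) i = 1`: `i + 1 < n`, `j + 1 < n` (as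
  `c n j = 0`, `c' n i = 0`); `L` at `(i+1, j)` is not picked by `ω`, so `L` at `(j+1, i)` is picked
  by `ω'` and `(j, i)` is reached for `ω'`, contradiction.
* (B+) `i, j < n-1`, `c (i+1) (j+1) = 1`, `c (i+1) j = 0`, `c' (j+1) i = 1`, `c' (j+1) (i+1) = 0`:
  `D` at `(i+1, j+1)` is not picked by `ω`, so `U` at `(j+1, i)` is picked by `ω'`: contradiction.
* (B-) `c (i+1) (j+1) = 0`, `c (i+1) j = 1`, `c' (j+1) i = 0`, `c' (j+1) (i+1) = 1`: `U` at `(i+1, j)` is
  not picked by `ω`, so `D` at `(j+1, i+1)` is picked by `ω'`: contradiction.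
-/

open Finset

namespace NN

def Sq (n : ℕ) : Set (ℤ × ℤ) := {z | 0 ≤ z.1 ∧ z.1 < n ∧ 0 ≤ z.2 ∧ z.2 < n}

def Rt (n : ℕ) : Set (ℤ × ℤ) := {z | z.1 = n ∧ 0 ≤ z.2 ∧ z.2 < n}

/-- there is a directed crossing -/
def Cross (n : ℕ) (ω : ℤ × ℤ → Finset (Bool × Bool)) : Prop :=
  ∃ j : ℤ, 0 ≤ j ∧ j < n ∧ Rch step2 (Sq n) (Rt n) ω (0, j)

/-- the involution of arcs -/
def bet (n : ℕ) (z : ℤ × ℤ) (e : Bool × Bool) : (ℤ × ℤ) × (Bool × Bool) :=
  match e with
  | (false, true) => ((z.2, z.1), (false, true))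
  | (false, false) =>
      if 1 ≤ z.1 ∧ z.2 ≤ n - 2 then ((z.2 + 1, z.1 - 1), (false, false)) else (z, (false, false))
  | (true, true) =>
      if 1 ≤ z.1 ∧ z.2 ≤ n - 2 then ((z.2 + 1, z.1), (true, false)) else (z, (true, true))
  | (true, false) =>
      if 1 ≤ z.1 ∧ 1 ≤ z.2 then ((z.2, z.1 - 1), (true, true)) else (z, (true, false))

theorem bet_mem {n : ℕ} {z : ℤ × ℤ} (hz : z ∈ Sq n) (e : Bool × Bool) : (bet n z e).1 ∈ Sq n := by
  obtain ⟨p, q⟩ := z
  obtain ⟨h1, h2, h3, h4⟩ := hz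
  simp only at h1 h2 h3 h4
  rcases e with ⟨_ | _, _ | _⟩
  · simp only [bet]
    split_ifs with h
    · exact ⟨by simp only; omega, by simp only; omega, by simp only; omega, by simp only; omega⟩
    · exact ⟨h1, h2, h3, h4⟩
  · exact ⟨h3, h4, h1, h2⟩
  · simp only [bet]
    split_ifs with h
    · exact ⟨by simp only; omega, by simp only; omega, by simp only; omega, by simp only; omega⟩
    · exact ⟨h1, h2, h3, h4⟩
  · simp only [bet]
    split_ifs with h
    · exact ⟨by simp only; omega, by simp only; omega, by simp only; omega, by simp only; omega⟩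
    · exact ⟨h1, h2, h3, h4⟩

theorem bet_bet {n : ℕ} {z : ℤ × ℤ} (hz : z ∈ Sq n) (e : Bool × Bool) :
    bet n (bet n z e).1 (bet n z e).2 = (z, e) := by
  obtain ⟨p, q⟩ := z
  obtain ⟨h1, h2, h3, h4⟩ := hz
  simp only at h1 h2 h3 h4
  rcases e with ⟨_ | _, _ | _⟩
  · by_cases h : 1 ≤ p ∧ q ≤ n - 2
    · have e1 : bet n (p, q) (false, false) = ((q + 1, p - 1), (false, false)) := if_pos h
      have e2 : bet n (q + 1, p - 1) (false, false) = ((p - 1 + 1, q + 1 - 1), (false, false)) :=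
        if_pos ⟨by simp only; omega, by simp only; omega⟩
      rw [e1]
      simp only
      rw [e2, sub_add_cancel, add_sub_cancel_right]
    · have e1 : bet n (p, q) (false, false) = ((p, q), (false, false)) := if_neg h
      rw [e1]
      exact e1
  · rfl
  · by_cases h : 1 ≤ p ∧ 1 ≤ q
    · have e1 : bet n (p, q) (true, false) = ((q, p - 1), (true, true)) := if_pos h
      have e2 : bet n (q, p - 1) (true, true) = ((p - 1 + 1, q), (true, false)) :=
        if_pos ⟨by simp only; omega, by simp only; omega⟩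
      rw [e1]
      simp only
      rw [e2, sub_add_cancel]
    · have e1 : bet n (p, q) (true, false) = ((p, q), (true, false)) := if_neg h
      rw [e1]
      exact e1
  · by_cases h : 1 ≤ p ∧ q ≤ n - 2
    · have e1 : bet n (p, q) (true, true) = ((q + 1, p), (true, false)) := if_pos h
      have e2 : bet n (q + 1, p) (true, false) = ((p, q + 1 - 1), (true, true)) :=
        if_pos ⟨by simp only; omega, by simp only; omega⟩
      rw [e1]
      simp only
      rw [e2, add_sub_cancel_right]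
    · have e1 : bet n (p, q) (true, true) = ((p, q), (true, true)) := if_neg h
      rw [e1]
      exact e1

open Classical in
/-- the dual configuration -/
noncomputable def Phi (n : ℕ) (ω : ℤ × ℤ → Finset (Bool × Bool)) (z : ℤ × ℤ) :
    Finset (Bool × Bool) :=
  Finset.univ.filter fun e => (bet n z e).2 ∉ ω (bet n z e).1

private theorem mem_Phi {n : ℕ} {ω : ℤ × ℤ → Finset (Bool × Bool)} {z z' : ℤ × ℤ}
    {e e' : Bool × Bool} (hz : z ∈ Sq n) (hb : bet n z e = (z', e')) (he : e ∉ ω z) :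
    e' ∈ Phi n ω z' := by
  have h1 := bet_bet hz e
  rw [hb] at h1
  simp only at h1
  simp only [Phi, mem_filter, mem_univ, true_and]
  rw [h1]
  exact he

/-- `z` is reached from the left side through the square -/
private def Rd (n : ℕ) (ω : ℤ × ℤ → Finset (Bool × Bool)) (z : ℤ × ℤ) : Prop :=
  ∃ j : ℤ, 0 ≤ j ∧ j < n ∧ Rch step2 (Sq n) {z} ω (0, j)

private theorem Rd.step {n : ℕ} {ω : ℤ × ℤ → Finset (Bool × Bool)} {z z' : ℤ × ℤ}
    {e : Bool × Bool} (h : Rd n ω z) (hz : z ∈ Sq n) (he : e ∈ ω z) (hs : step2 z e = z') :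
    Rd n ω z' := by
  obtain ⟨j, h1, h2, h3⟩ := h
  rw [← hs]
  exact ⟨j, h1, h2, rch_snoc h3 hz he⟩

private theorem rd_zero {n : ℕ} {ω : ℤ × ℤ → Finset (Bool × Bool)} {j : ℕ} (hj : j < n) :
    Rd n ω (((0 : ℕ) : ℤ), (j : ℤ)) :=
  ⟨j, by omega, by omega, .hit rfl⟩

private theorem not_rd {n : ℕ} {ω : ℤ × ℤ → Finset (Bool × Bool)} (h : ¬ Cross n ω) {j : ℕ}
    (hj : j < n) : ¬ Rd n ω ((n : ℤ), (j : ℤ)) := by
  rintro ⟨k, h1, h2, h3⟩
  refine h ⟨k, h1, h2, rch_iff_exists_target.2 ⟨_, ?_, h3⟩⟩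
  exact ⟨rfl, by simp only; omega, by simp only; omega⟩

private theorem prod_le {P Q P' Q' : Prop} [Decidable P] [Decidable Q] [Decidable P']
    [Decidable Q'] (h1 : P → ¬ Q → P' → ¬ Q' → False) (h2 : ¬ P → Q → ¬ P' → Q' → False) :
    ((if P then (1 : ℤ) else 0) - (if Q then 1 else 0)) *
      ((if P' then 1 else 0) - (if Q' then 1 else 0)) ≤ 0 := by
  by_cases hP : P <;> by_cases hQ : Q <;> by_cases hP' : P' <;> by_cases hQ' : Q' <;>
    simp [hP, hQ, hP', hQ'] <;> first | exact h1 hP hQ hP' hQ' | exact h2 hP hQ hP' hQ'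

theorem cross_or_dual_cross {n : ℕ} (hn : 1 ≤ n) {ω : ℤ × ℤ → Finset (Bool × Bool)}
    (h : ¬ Cross n ω) : Cross n (Phi n ω) := by
  classical
  by_contra h'
  have key := flux_identity n hn
    (fun i j => if Rd n ω ((i : ℤ), (j : ℤ)) then 1 else 0)
    (fun i j => if Rd n (Phi n ω) ((i : ℤ), (j : ℤ)) then 1 else 0)
    (fun j hj => if_pos (rd_zero hj)) (fun j hj => if_neg (not_rd h hj))
    (fun j hj => if_pos (rd_zero hj)) (fun j hj => if_neg (not_rd h' hj))
  have hSq : ∀ {i j : ℤ}, 0 ≤ i → i < n → 0 ≤ j → j < n → ((i, j) : ℤ × ℤ) ∈ Sq n :=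
    fun h1 h2 h3 h4 => ⟨h1, h2, h3, h4⟩
  have hA : ∑ i ∈ range n, ∑ j ∈ range n,
      ((if Rd n ω ((i : ℤ), (j : ℤ)) then (1 : ℤ) else 0) -
        (if Rd n ω (((i + 1 : ℕ) : ℤ), (j : ℤ)) then 1 else 0)) *
      ((if Rd n (Phi n ω) ((j : ℤ), (i : ℤ)) then 1 else 0) -
        (if Rd n (Phi n ω) (((j + 1 : ℕ) : ℤ), (i : ℤ)) then 1 else 0)) ≤ 0 := by
    refine sum_nonpos fun i hi => sum_nonpos fun j hj => ?_
    rw [mem_range] at hi hj
    apply prod_le
    · intro a1 a2 a3 a4
      have h1 : ((false, true) : Bool × Bool) ∉ ω ((i : ℤ), (j : ℤ)) := by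
        intro he
        exact a2 (a1.step (hSq (by omega) (by omega) (by omega) (by omega)) he
          (by simp [step2, sg]))
      exact a4 (a3.step (hSq (by omega) (by omega) (by omega) (by omega))
        (mem_Phi (hSq (by omega) (by omega) (by omega) (by omega)) rfl h1)
          (by simp [step2, sg]))
    · intro a1 a2 a3 a4
      have hi' : i + 1 ≠ n := fun hh => not_rd h hj (hh ▸ a2)
      have hj' : j + 1 ≠ n := fun hh => not_rd h' hi (hh ▸ a4)
      have h1 : ((false, false) : Bool × Bool) ∉ ω (((i + 1 : ℕ) : ℤ), (j : ℤ)) := by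
        intro he
        exact a1 (a2.step (hSq (by omega) (by omega) (by omega) (by omega)) he
          (by simp [step2, sg]))
      refine a3 (a4.step (hSq (by omega) (by omega) (by omega) (by omega))
        (mem_Phi (z := (((i + 1 : ℕ) : ℤ), (j : ℤ))) (e := (false, false)) (e' := (false, false))
          (hSq (by omega) (by omega) (by omega) (by omega)) ?_ h1)
          (by simp [step2, sg]))
      simp only [bet]
      rw [if_pos ⟨by omega, by omega⟩]
      simp
  have hB : ∑ i ∈ range (n - 1), ∑ j ∈ range (n - 1),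
      ((if Rd n ω (((i + 1 : ℕ) : ℤ), ((j + 1 : ℕ) : ℤ)) then (1 : ℤ) else 0) -
        (if Rd n ω (((i + 1 : ℕ) : ℤ), (j : ℤ)) then 1 else 0)) *
      ((if Rd n (Phi n ω) (((j + 1 : ℕ) : ℤ), (i : ℤ)) then 1 else 0) -
        (if Rd n (Phi n ω) (((j + 1 : ℕ) : ℤ), ((i + 1 : ℕ) : ℤ)) then 1 else 0)) ≤ 0 := by
    refine sum_nonpos fun i hi => sum_nonpos fun j hj => ?_
    rw [mem_range] at hi hj
    apply prod_le
    · intro a1 a2 a3 a4
      have h1 : ((true, false) : Bool × Bool) ∉ ω (((i + 1 : ℕ) : ℤ), ((j + 1 : ℕ) : ℤ)) := by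
        intro he
        exact a2 (a1.step (hSq (by omega) (by omega) (by omega) (by omega)) he
          (by simp [step2, sg]))
      refine a4 (a3.step (hSq (by omega) (by omega) (by omega) (by omega))
        (mem_Phi (z := (((i + 1 : ℕ) : ℤ), ((j + 1 : ℕ) : ℤ))) (e := (true, false))
          (e' := (true, true)) (hSq (by omega) (by omega) (by omega) (by omega)) ?_ h1)
          (by simp [step2, sg]))
      simp only [bet]
      rw [if_pos ⟨by omega, by omega⟩]
      simp
    · intro a1 a2 a3 a4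
      have h1 : ((true, true) : Bool × Bool) ∉ ω (((i + 1 : ℕ) : ℤ), (j : ℤ)) := by
        intro he
        exact a1 (a2.step (hSq (by omega) (by omega) (by omega) (by omega)) he
          (by simp [step2, sg]))
      refine a3 (a4.step (hSq (by omega) (by omega) (by omega) (by omega))
        (mem_Phi (z := (((i + 1 : ℕ) : ℤ), (j : ℤ))) (e := (true, true))
          (e' := (true, false)) (hSq (by omega) (by omega) (by omega) (by omega)) ?_ h1)
          (by simp [step2, sg]))
      simp only [bet]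
      rw [if_pos ⟨by omega, by omega⟩]
      simp
  have := add_nonpos hA hB
  linarith

end NN
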