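import Pool.Agent.H87.NN.Reach
import Pool.Agent.H87.NN.Alg2
import Pool.Agent.H87.NN.Laws

/-!
# Derivative of the exit probability (module NN-ENH)

`nu t s = (1-t) * nu 0 s + t * nu 1 s`, so `hasDerivAt_Ex` (with `w0 = nu 0`, `w1 = nu 1`) gives the
derivative `D = ∑ i ∈ box n, Ex (nu t) (box n) (Rs (nu 1 - nu 0) i F) ∅`, `F ω = ind (Exits n ω 0)`.

Pointwise bound: `(1/16) * ind (K2 n i ω) ≤ Rs (nu 1 - nu 0) i F ω` for `i ∈ box n`.
By `rch_update_iff`, `Exits n (update ω i s) 0 ↔ R₁ ∨ (i ∈ box n ∧ R₂ ∧ ∃ e ∈ s, R₃ e)`, where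
`R₁ = Rch (box n \ {i}) (box n)ᶜ ω 0`, `R₂ = Rch (box n \ {i}) {i} ω 0`,
`R₃ e = Rch (box n \ {i}) (box n)ᶜ ω (step2 i e)`.
* `R₁`: the left side is `0` (since `R₁` implies `Exits n ω 0`), the right side is the total mass
  of `nu 1 - nu 0`, which is `0`.
* not `R₁`, not `R₂`: the right side is `0`, the left too (`K2` implies `R₂`:
  `rch_single_remove`).
* not `R₁`, `R₂`: with `A = {e | R₃ e}` the right side is
  `∑ s, (nu 1 s - nu 0 s) * (1 - ind (Disjoint s A)) = avd (nu 0) A - avd (nu 1) A ≥ 0` (`gain`),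
  and if `K2 n i ω` then by `rch_avoid_of_not` both `e`, `e'` are in `A`, so `2 ≤ A.card` and the
  right side is at least `1/16`.
-/

open Finset

namespace NN

theorem nu_mix (t : ℝ) (s : Finset (Bool × Bool)) : nu t s = (1 - t) * nu 0 s + t * nu 1 s := by
  unfold nu; ring

theorem Rs_gain (n : ℕ) {i : ℤ × ℤ} (hi : i ∈ box n) (ω : ℤ × ℤ → Finset (Bool × Bool)) :
    (1 / 16) * ind (K2 n i ω) ≤
      Rs (fun _ s => nu 1 s - nu 0 s) i (fun ω => ind (Exits n ω 0)) ω := by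
  classical
  have hsum : ∑ s, (nu 1 s - nu 0 s) = 0 := by
    rw [Finset.sum_sub_distrib, nu_sum, nu_sum, sub_self]
  have hex : ∀ s, Exits n (Function.update ω i s) 0 ↔
      Rch step2 ((box n : Set (ℤ × ℤ)) \ {i}) (box n : Set (ℤ × ℤ))ᶜ ω 0 ∨
        (i ∈ (box n : Set (ℤ × ℤ)) ∧ Rch step2 ((box n : Set (ℤ × ℤ)) \ {i}) {i} ω 0 ∧
          ∃ e ∈ s, Rch step2 ((box n : Set (ℤ × ℤ)) \ {i}) (box n : Set (ℤ × ℤ))ᶜ ω
            (step2 i e)) := fun s => rch_update_iff i s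
  have hK2 : K2 n i ω → ¬ Rch step2 ((box n : Set (ℤ × ℤ)) \ {i}) (box n : Set (ℤ × ℤ))ᶜ ω 0 :=
    fun h hr => h.1 (rch_mono Set.sdiff_subset subset_rfl hr)
  simp only [Rs]
  by_cases h1 : Rch step2 ((box n : Set (ℤ × ℤ)) \ {i}) (box n : Set (ℤ × ℤ))ᶜ ω 0
  · have h2 : ∑ s, (nu 1 s - nu 0 s) * ind (Exits n (Function.update ω i s) 0) = 0 := by
      refine Eq.trans (Finset.sum_congr rfl fun s _ => ?_) hsum
      rw [ind_pos ((hex s).2 (.inl h1)), mul_one]
    rw [h2, ind_neg fun h => hK2 h h1, mul_zero]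
  by_cases h2 : Rch step2 ((box n : Set (ℤ × ℤ)) \ {i}) {i} ω 0
  · set A : Finset (Bool × Bool) := Finset.univ.filter fun e =>
      Rch step2 ((box n : Set (ℤ × ℤ)) \ {i}) (box n : Set (ℤ × ℤ))ᶜ ω (step2 i e) with hA
    have h3 : ∀ s, ind (Exits n (Function.update ω i s) 0) = 1 - ind (Disjoint s A) := by
      intro s
      rw [← ind_not]
      refine ind_congr ?_
      rw [hex s]
      constructor
      · rintro (h | ⟨_, _, e, he, h⟩)
        · exact absurd h h1
        · intro hd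
          exact (Finset.disjoint_left.1 hd he) (by simp [hA, h])
      · intro hd
        rw [Finset.not_disjoint_iff] at hd
        obtain ⟨e, he, heA⟩ := hd
        rw [hA, Finset.mem_filter] at heA
        exact .inr ⟨Finset.mem_coe.2 hi, h2, e, he, heA.2⟩
    have h4 : ∑ s, (nu 1 s - nu 0 s) * ind (Exits n (Function.update ω i s) 0) =
        avd (nu 0) A - avd (nu 1) A := by
      have h5 : ∀ s : Finset (Bool × Bool),
          (nu 1 s - nu 0 s) * ind (Exits n (Function.update ω i s) 0) =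
            (nu 1 s - nu 0 s) - (nu 1 s * ind (Disjoint s A) - nu 0 s * ind (Disjoint s A)) := by
        intro s
        rw [h3 s]
        ring
      rw [Finset.sum_congr rfl fun s _ => h5 s, Finset.sum_sub_distrib, hsum,
        Finset.sum_sub_distrib, avd, avd]
      ring
    rw [h4]
    by_cases hk : K2 n i ω
    · rw [ind_pos hk, mul_one]
      refine (gain A).2 ?_
      obtain ⟨k1, k2, e, e', hne, k3, k4⟩ := hk
      have m1 : e ∈ A := by
        rw [hA, Finset.mem_filter]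
        exact ⟨Finset.mem_univ _, rch_avoid_of_not k1 k2 k3⟩
      have m2 : e' ∈ A := by
        rw [hA, Finset.mem_filter]
        exact ⟨Finset.mem_univ _, rch_avoid_of_not k1 k2 k4⟩
      exact Finset.one_lt_card.2 ⟨e, m1, e', m2, hne⟩
    · rw [ind_neg hk, mul_zero]
      exact (gain A).1
  · have h3 : ∑ s, (nu 1 s - nu 0 s) * ind (Exits n (Function.update ω i s) 0) = 0 := by
      refine Finset.sum_eq_zero fun s _ => ?_
      rw [ind_neg, mul_zero]
      rw [hex s]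
      rintro (h | ⟨_, h, _⟩)
      · exact h1 h
      · exact h2 h
    rw [h3, ind_neg, mul_zero]
    intro hk
    exact h2 (rch_single_remove i |>.2 hk.2.1)

theorem deriv_exitP {t : ℝ} (h0 : 0 ≤ t) (h1 : t ≤ 1) (n : ℕ) :
    ∃ D, HasDerivAt (fun t => exitP t n) D t ∧
      (1 / 16) * ∑ x ∈ box n, Pr (fun _ => nu t) (box n) (K2 n x) ≤ D := by
  classical
  have hmix : ∀ t : ℝ, (fun (_ : ℤ × ℤ) (s : Finset (Bool × Bool)) =>
      (1 - t) * nu 0 s + t * nu 1 s) = fun _ => nu t := by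
    intro t
    funext _ s
    exact (nu_mix t s).symm
  have hd := hasDerivAt_Ex (V := ℤ × ℤ) (B := box n) (F := fun ω => ind (Exits n ω 0))
    (nu_sum 0) (nu_sum 1) (fun _ => ∅) t
  simp only [hmix] at hd
  refine ⟨_, hd, ?_⟩
  rw [Finset.mul_sum]
  refine Finset.sum_le_sum fun i hi => ?_
  have h2 : (1 / 16) * Pr (fun _ => nu t) (box n) (K2 n i) =
      Ex (fun _ => nu t) (box n) (fun ω => (1 / 16) * ind (K2 n i ω)) (fun _ => ∅) := by
    rw [Ex_smul, Pr]
  rw [h2]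
  exact Ex_mono (fun _ _ s => nu_nonneg h0 h1 s) (fun ω => Rs_gain n hi ω) _

end NN
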