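import Pool.Agent.H87.NN.Good

/-!
# Ordered exploration of a fibre (module NN-FIBRE)

`Fin d → ℤ` is projected to `ℤ × ℤ` by `proj m`: the first coordinate is the sum of the coordinates
`c < m`, the second one the sum of the coordinates `m ≤ c < 2m`. Directions `(c, σ)` with `c < 2m`
are *exits* with base direction `bdir m (c, σ)`, the others stay in the fibre.

The picks of a site are a uniform pair of directions: `pl d s = 1 / C(2d, 2)` if `s.card = 2`.

`Sub0 k y` is the set of `z` with `z c = y c` for all `c < k` (free coordinates `c ≥ k`).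

`Recu d m j a b` are the recursion inequalities, for sets `A` of `j` base directions:
with `Σ t = 2 d - j m - 2 ∑_{t' < t} (1 - b t')`, `Q t = 2 d - j m - 2 ∑_{t' < t} (1 - (b t')²)`,
`(Σ t ² - Q t) / (2d (2d-1)) ≤ a t` for `t ≤ d - 2m`, and with `Σ' = Σ t - (1 - a t)`,
`Q' = Q t - (1 - (a t)²)`: `(Σ' ² - Q') / (2d (2d-1)) ≤ b t` for `t < d - 2m`.

**Claim.** Let `proj m y = x0`, `hit z β : proj m z = step2 x0 β`. For `t ≤ d - 2m`,
(A t) `Good N hit (Sub0 (d-t) y) y (fun A => a A.card t)`, and for `t < d - 2m`, `c0 = d-t-1`,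
(B t) for `σ : Bool`, `y' = stepd y (c0, σ)`:
`Good N hit (Sub0 (d-t) y ∪ Sub0 (d-t) y') y (fun A => b A.card t)`.
(For all `y` in the fibre at once.) Strong induction on `t`: (A t) uses (B t') for `t' < t`; (B t)
uses (B t'), `t' < t`, and (A t).

(A t): `good_step` with, for `e = (c, σ)`:
* `c < 2m`: `sub e = ∅`, `v e A = ind (bdir m e ∉ A)` (`good_exit`, `proj_stepd_base`);
* `2m ≤ c < d - t`: `sub e = ∅`, `v e A = 1` (`good_waste`);
* `c ≥ d - t`: put `t' = d - 1 - c < t`: `sub e = Sub0 (d-t') (y+e) ∪ Sub0 (d-t') (y+2e)`,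
  `v e A = b A.card t'` by (B t').
Regions: for `z ∈ sub (c, σ)`: `z c ∈ {y c + σ, y c + 2σ}` and `z c' = y c'` for `c' < c`. So they are
inside `Sub0 (d-t) y \ {y}` and pairwise disjoint (compare the smaller of the two coordinates, or the
signs).
The value: `∑ s, pl d s * ∏ e ∈ s, v e A = (Σ² - Q) / (2d (2d-1))` where `Σ = ∑ e, v e A`,
`Q = ∑ e, (v e A)²` (`pair_sum`), and `Σ = m (4 - |A|) + 2 (d - 2m - t) + 2 ∑_{t'<t} b t'`
is `Σ t`, same for `Q`: each base direction is the `bdir` of exactly `m` directions.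

(B t): the same, with in addition for `e = (c0, σ)` (the run direction) `sub e = Sub0 (d-t) y'`,
`v e A = a A.card t` by (A t) at `y'`. The region of `e` is disjoint from the others (on it
`z c0 = y c0 ± 1`, on the others `z c0 = y c0`).
-/

open Finset

namespace NN

/-- steps in `ℤ^d` -/
def stepd {d : ℕ} (x : Fin d → ℤ) (e : Fin d × Bool) : Fin d → ℤ :=
  Function.update x e.1 (x e.1 + sg e.2)

/-- the law of the picks: uniform pairs -/
noncomputable def pl (d : ℕ) (s : Finset (Fin d × Bool)) : ℝ :=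
  if s.card = 2 then 1 / (d * (2 * d - 1)) else 0

/-- projection to the plane -/
def proj {d : ℕ} (m : ℕ) (x : Fin d → ℤ) : ℤ × ℤ :=
  (∑ c : Fin d, if c.val < m then x c else 0,
    ∑ c : Fin d, if m ≤ c.val ∧ c.val < 2 * m then x c else 0)

/-- base direction of an exit -/
def bdir {d : ℕ} (m : ℕ) (e : Fin d × Bool) : Bool × Bool :=
  if e.1.val < m then (false, e.2) else (true, e.2)

theorem Fib.sum_upd {d : ℕ} (P : Fin d → Prop) [DecidablePred P] (x : Fin d → ℤ) (i : Fin d)
    (a : ℤ) : (∑ c, if P c then Function.update x i (x i + a) c else 0) =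
      (∑ c, if P c then x c else 0) + if P i then a else 0 := by
  have h : ∀ c, (if P c then Function.update x i (x i + a) c else 0) =
      (if P c then x c else 0) + (if c = i then (if P i then a else 0) else 0) := by
    intro c
    by_cases hc : c = i
    · subst hc
      by_cases hp : P c <;> simp [hp]
    · simp [hc]
  rw [Finset.sum_congr rfl fun c _ => h c, Finset.sum_add_distrib, Finset.sum_ite_eq']
  simp

theorem proj_stepd_base {d m : ℕ} (x : Fin d → ℤ) {e : Fin d × Bool} (he : e.1.val < 2 * m) :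
    proj m (stepd x e) = step2 (proj m x) (bdir m e) := by
  unfold proj stepd
  rw [Fib.sum_upd, Fib.sum_upd]
  by_cases h : e.1.val < m
  · have h2 : ¬ (m ≤ e.1.val ∧ e.1.val < 2 * m) := by omega
    rw [if_pos h, if_neg h2]
    simp [bdir, h, step2]
  · have h2 : m ≤ e.1.val ∧ e.1.val < 2 * m := by omega
    rw [if_neg h, if_pos h2]
    simp [bdir, h, step2]

theorem proj_stepd_fibre {d m : ℕ} (x : Fin d → ℤ) {e : Fin d × Bool} (he : 2 * m ≤ e.1.val) :
    proj m (stepd x e) = proj m x := by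
  unfold proj stepd
  rw [Fib.sum_upd, Fib.sum_upd, if_neg (by omega), if_neg (by omega), add_zero, add_zero]

theorem Fib.sum_pairs {ι : Type*} [DecidableEq ι] (v : ι → ℝ) (T : Finset ι) :
    2 * ∑ s ∈ Finset.powersetCard 2 T, ∏ e ∈ s, v e = (∑ e ∈ T, v e) ^ 2 - ∑ e ∈ T, v e ^ 2 := by
  induction T using Finset.induction_on with
  | empty =>
    rw [Finset.powersetCard_eq_empty.2 (by simp)]
    simp
  | insert x T hx ih =>
    rw [Finset.powersetCard_succ_insert hx, Finset.sum_union, mul_add, ih,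
      Finset.sum_insert hx, Finset.sum_insert hx]
    · have h1 : ∑ s ∈ (Finset.powersetCard 1 T).image (insert x), ∏ e ∈ s, v e =
          v x * ∑ e ∈ T, v e := by
        rw [Finset.sum_image, Finset.powersetCard_one, Finset.sum_map, Finset.mul_sum]
        · refine Finset.sum_congr rfl fun e he => ?_
          have hxe : x ∉ ({e} : Finset ι) := by
            rw [Finset.mem_singleton]
            rintro rfl
            exact hx he
          simp only [Function.Embedding.coeFn_mk]
          rw [Finset.prod_insert hxe, Finset.prod_singleton]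
        · intro s hs s' hs' h
          have hs1 : x ∉ s := fun h' => hx ((Finset.mem_powersetCard.1 hs).1 h')
          have hs1' : x ∉ s' := fun h' => hx ((Finset.mem_powersetCard.1 hs').1 h')
          rw [← Finset.erase_insert hs1, ← Finset.erase_insert hs1', h]
      rw [h1]
      ring
    · rw [Finset.disjoint_left]
      intro s hs hs'
      obtain ⟨s', _, rfl⟩ := Finset.mem_image.1 hs'
      exact hx ((Finset.mem_powersetCard.1 hs).1 (Finset.mem_insert_self _ _))

theorem pair_sum {d : ℕ} (hd : 1 ≤ d) (v : Fin d × Bool → ℝ) :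
    ∑ s, pl d s * ∏ e ∈ s, v e =
      ((∑ e, v e) ^ 2 - ∑ e, v e ^ 2) / (2 * d * (2 * d - 1)) := by
  have h1 : ∑ s, pl d s * ∏ e ∈ s, v e =
      1 / (d * (2 * d - 1)) * ∑ s ∈ Finset.powersetCard 2 Finset.univ, ∏ e ∈ s, v e := by
    rw [Finset.mul_sum]
    have h2 : ∀ s : Finset (Fin d × Bool), pl d s * ∏ e ∈ s, v e =
        if s.card = 2 then 1 / (d * (2 * d - 1)) * ∏ e ∈ s, v e else 0 := by
      intro s
      rw [pl]
      by_cases h : s.card = 2 <;> simp [h]
    rw [Finset.sum_congr rfl fun s _ => h2 s, ← Finset.sum_filter]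
    refine Finset.sum_congr ?_ fun _ _ => rfl
    ext s
    simp [Finset.mem_powersetCard]
  have h3 := Fib.sum_pairs v Finset.univ
  have hd1 : (1 : ℝ) ≤ d := by exact_mod_cast hd
  rw [h1, ← h3]
  have hd2 : (2 * d - 1 : ℝ) ≠ 0 := by
    have : (1 : ℝ) ≤ 2 * d - 1 := by linarith
    exact (zero_lt_one.trans_le this).ne'
  have hd3 : (d : ℝ) ≠ 0 := (zero_lt_one.trans_le hd1).ne'
  field_simp

/-- `∑` of the values of the directions -/
noncomputable def SS (d m j : ℕ) (b : ℕ → ℝ) (t : ℕ) : ℝ :=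
  2 * d - j * m - 2 * ∑ u ∈ range t, (1 - b u)

/-- `∑` of the squares of the values of the directions -/
noncomputable def QQ (d m j : ℕ) (b : ℕ → ℝ) (t : ℕ) : ℝ :=
  2 * d - j * m - 2 * ∑ u ∈ range t, (1 - b u ^ 2)

/-- the recursion inequalities -/
structure Recu (d m j : ℕ) (a b : ℕ → ℝ) : Prop where
  a_nonneg : ∀ t, 0 ≤ a t
  b_nonneg : ∀ t, 0 ≤ b t
  ha : ∀ t ≤ d - 2 * m, (SS d m j b t ^ 2 - QQ d m j b t) / (2 * d * (2 * d - 1)) ≤ a t
  hb : ∀ t < d - 2 * m, ((SS d m j b t - (1 - a t)) ^ 2 - (QQ d m j b t - (1 - a t ^ 2))) /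
    (2 * d * (2 * d - 1)) ≤ b t

/-- sites agreeing with `y` on the coordinates `< k` -/
def Sub0 {d : ℕ} (k : ℕ) (y : Fin d → ℤ) : Set (Fin d → ℤ) := {z | ∀ c : Fin d, c.val < k → z c = y c}

namespace Fib

theorem cnt {d k : ℕ} (hk : k ≤ d) (x : ℝ) :
    ∑ i ∈ range d, (if i < k then x else 0) = k * x := by
  rw [← Finset.sum_filter]
  have : (range d).filter (fun i => i < k) = range k := by
    ext i
    rw [mem_filter, mem_range, mem_range]
    omega
  rw [this, Finset.sum_const, card_range, nsmul_eq_mul]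

theorem sum_dirs {d : ℕ} (F : ℕ → Bool → ℝ) :
    ∑ e : Fin d × Bool, F e.1.val e.2 = ∑ i ∈ range d, (F i true + F i false) := by
  rw [Fintype.sum_prod_type]
  rw [← Fin.sum_univ_eq_sum_range (fun i => F i true + F i false)]
  refine Finset.sum_congr rfl fun c _ => ?_
  rw [Fintype.sum_bool]

theorem sum_tail {d k : ℕ} (h : ℕ → ℝ) :
    ∑ i ∈ range d, (if k ≤ i then h (d - 1 - i) else 0) = ∑ u ∈ range (d - k), h u := by
  rw [← Finset.sum_range_reflect]
  have h1 : ∀ i ∈ range d, (if k ≤ d - 1 - i then h (d - 1 - (d - 1 - i)) else 0) =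
      if i < d - k then h i else 0 := by
    intro i hi
    rw [mem_range] at hi
    have h2 : d - 1 - (d - 1 - i) = i := by omega
    rw [h2]
    by_cases hik : i < d - k
    · rw [if_pos hik, if_pos (by omega)]
    · rw [if_neg hik, if_neg (by omega)]
  rw [Finset.sum_congr rfl h1, ← Finset.sum_filter]
  refine Finset.sum_congr ?_ fun _ _ => rfl
  ext i
  rw [mem_filter, mem_range, mem_range]
  omega

/-- the values of the directions -/
noncomputable def vv (d m k : ℕ) (f : ℕ → ℝ) (A : Finset (Bool × Bool)) (e : Fin d × Bool) : ℝ :=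
  if e.1.val < 2 * m then ind (bdir m e ∉ A) else if e.1.val < k then 1 else f (d - 1 - e.1.val)

theorem sum_ind_mem (A : Finset (Bool × Bool)) :
    ind ((false, true) ∈ A) + ind ((false, false) ∈ A) +
      (ind ((true, true) ∈ A) + ind ((true, false) ∈ A)) = (A.card : ℝ) := by
  have h1 : ∑ β : Bool × Bool, ind (β ∈ A) = (A.card : ℝ) := by
    have h2 : ∀ β : Bool × Bool, ind (β ∈ A) = if β ∈ A then 1 else 0 := fun β => ind_eq_ite _
    rw [Finset.sum_congr rfl fun β _ => h2 β, Finset.sum_ite_mem, Finset.univ_inter,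
      Finset.sum_const, nsmul_eq_mul, mul_one]
  rw [← h1, Fintype.sum_prod_type, Fintype.sum_bool, Fintype.sum_bool, Fintype.sum_bool]
  ring

/-- the values of the directions, rearranged -/
noncomputable def ww (d m k : ℕ) (f : ℕ → ℝ) (A : Finset (Bool × Bool)) (i : ℕ) (σ : Bool) : ℝ :=
  1 - ((if i < m then ind ((false, σ) ∈ A) else 0) +
    ((if i < 2 * m then ind ((true, σ) ∈ A) else 0) -
      (if i < m then ind ((true, σ) ∈ A) else 0))) -
    (if k ≤ i then 1 - f (d - 1 - i) else 0)

theorem sum_vv {d m k : ℕ} (hm : 2 * m ≤ k) (hk : k ≤ d) (f : ℕ → ℝ) (A : Finset (Bool × Bool)) :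
    ∑ e, vv d m k f A e =
      2 * d - A.card * m - 2 * ∑ u ∈ range (d - k), (1 - f u) := by
  have h1 : ∀ e : Fin d × Bool, vv d m k f A e = ww d m k f A e.1.val e.2 := by
    intro e
    simp only [vv, ww]
    by_cases h1 : e.1.val < m
    · rw [if_pos (show e.1.val < 2 * m by omega), if_pos h1, if_pos (show e.1.val < 2 * m by omega),
        if_pos h1, if_neg (show ¬ k ≤ e.1.val by omega), ind_not, bdir, if_pos h1]
      ring
    · by_cases h2 : e.1.val < 2 * m
      · rw [if_pos h2, if_neg h1, if_pos h2, if_neg h1, if_neg (show ¬ k ≤ e.1.val by omega),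
          ind_not, bdir, if_neg h1]
        ring
      · rw [if_neg h2, if_neg h1, if_neg h2, if_neg h1]
        by_cases h3 : e.1.val < k
        · rw [if_pos h3, if_neg (show ¬ k ≤ e.1.val by omega)]
          ring
        · rw [if_neg h3, if_pos (show k ≤ e.1.val by omega)]
          ring
  rw [Finset.sum_congr rfl fun e _ => h1 e, sum_dirs (ww d m k f A)]
  have h2 : ∑ i ∈ range d, (ww d m k f A i true + ww d m k f A i false) =
      ∑ i ∈ range d, ((2 : ℝ) - ((if i < m then
        (ind ((false, true) ∈ A) + ind ((false, false) ∈ A) -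
          (ind ((true, true) ∈ A) + ind ((true, false) ∈ A))) else 0) +
        (if i < 2 * m then ind ((true, true) ∈ A) + ind ((true, false) ∈ A) else 0)) -
        2 * (if k ≤ i then 1 - f (d - 1 - i) else 0)) := by
    refine Finset.sum_congr rfl fun i _ => ?_
    simp only [ww]
    split_ifs <;> ring
  rw [h2, Finset.sum_sub_distrib, Finset.sum_sub_distrib, Finset.sum_add_distrib,
    ← Finset.mul_sum, cnt (by omega), cnt (by omega), sum_tail (fun u => 1 - f u),
    Finset.sum_const, card_range, nsmul_eq_mul, ← sum_ind_mem A]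
  push_cast
  ring

theorem sum_vv_sq {d m k : ℕ} (hm : 2 * m ≤ k) (hk : k ≤ d) (f : ℕ → ℝ)
    (A : Finset (Bool × Bool)) :
    ∑ e, vv d m k f A e ^ 2 =
      2 * d - A.card * m - 2 * ∑ u ∈ range (d - k), (1 - f u ^ 2) := by
  rw [← sum_vv hm hk (fun u => f u ^ 2) A]
  refine Finset.sum_congr rfl fun e _ => ?_
  unfold vv
  split_ifs with h1 h2
  · by_cases h : bdir m e ∉ A
    · rw [ind_pos h]; ring
    · rw [ind_neg h]; ring
  · ring
  · rfl

/-- the regions of the directions -/
def sb {d : ℕ} (k : ℕ) (y : Fin d → ℤ) (e : Fin d × Bool) : Set (Fin d → ℤ) :=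
  {z | k ≤ e.1.val ∧ (z ∈ Sub0 (e.1.val + 1) (stepd y e) ∨
    z ∈ Sub0 (e.1.val + 1) (stepd (stepd y e) e))}

theorem stepd_self {d : ℕ} (y : Fin d → ℤ) (e : Fin d × Bool) :
    stepd y e e.1 = y e.1 + sg e.2 := by
  simp [stepd]

theorem stepd_ne {d : ℕ} (y : Fin d → ℤ) (e : Fin d × Bool) {c : Fin d} (h : c ≠ e.1) :
    stepd y e c = y c := by
  simp [stepd, h]

theorem sb_lt {d k : ℕ} {y z : Fin d → ℤ} {e : Fin d × Bool} (h : z ∈ sb k y e) {c : Fin d}
    (hc : c.val < e.1.val) : z c = y c := by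
  have hne : c ≠ e.1 := fun h' => by rw [h'] at hc; exact lt_irrefl _ hc
  rcases h.2 with h | h
  · rw [h c (by omega), stepd_ne _ _ hne]
  · rw [h c (by omega), stepd_ne _ _ hne, stepd_ne _ _ hne]

theorem sb_self {d k : ℕ} {y z : Fin d → ℤ} {e : Fin d × Bool} (h : z ∈ sb k y e) :
    z e.1 = y e.1 + sg e.2 ∨ z e.1 = y e.1 + sg e.2 + sg e.2 := by
  rcases h.2 with h | h
  · left
    rw [h e.1 (by omega), stepd_self]
  · right
    rw [h e.1 (by omega), stepd_self, stepd_self]

theorem sb_ne {d k : ℕ} {y z : Fin d → ℤ} {e : Fin d × Bool} (h : z ∈ sb k y e) :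
    z e.1 ≠ y e.1 := by
  have h1 := sb_self h
  cases hσ : e.2 <;> simp only [hσ, sg] at h1 <;> simp at h1 <;> omega

theorem sb_disjoint {d k : ℕ} {y : Fin d → ℤ} {e e' : Fin d × Bool} (hne : e ≠ e') :
    Disjoint (sb k y e) (sb k y e') := by
  rw [Set.disjoint_left]
  intro z hz hz'
  rcases lt_trichotomy e.1.val e'.1.val with h | h | h
  · exact sb_ne hz (sb_lt hz' h)
  · have h1 : e.1 = e'.1 := Fin.ext h
    have h2 : e.2 ≠ e'.2 := fun h2 => hne (Prod.ext h1 h2)
    have h3 := sb_self hz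
    have h4 := sb_self hz'
    rw [← h1] at h4
    cases hσ : e.2 <;> cases hσ' : e'.2
    · exact h2 (hσ.trans hσ'.symm)
    · simp only [hσ, hσ', sg] at h3 h4
      simp at h3 h4
      omega
    · simp only [hσ, hσ', sg] at h3 h4
      simp at h3 h4
      omega
    · exact h2 (hσ.trans hσ'.symm)
  · exact sb_ne hz' (sb_lt hz h)

theorem sb_subset {d k : ℕ} {y : Fin d → ℤ} {e : Fin d × Bool} : sb k y e ⊆ Sub0 k y \ {y} := by
  intro z hz
  refine ⟨fun c hc => sb_lt hz (lt_of_lt_of_le hc hz.1), fun h => ?_⟩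
  rw [Set.mem_singleton_iff] at h
  exact sb_ne hz (by rw [h])

section

variable {d m : ℕ} {a b : ℕ → ℕ → ℝ} {N : Set (Fin d → ℤ) → Set (Fin d → ℤ) → ℝ}
  {x0 : ℤ × ℤ}

/-- claim (A) -/
def ClA (m : ℕ) (a : ℕ → ℕ → ℝ) (N : Set (Fin d → ℤ) → Set (Fin d → ℤ) → ℝ) (x0 : ℤ × ℤ)
    (k : ℕ) : Prop :=
  ∀ y : Fin d → ℤ, proj m y = x0 → Good N (fun z β => proj m z = step2 x0 β) (Sub0 k y) y
    (fun A => a A.card (d - k))

/-- claim (B) -/
def ClB (m : ℕ) (b : ℕ → ℕ → ℝ) (N : Set (Fin d → ℤ) → Set (Fin d → ℤ) → ℝ) (x0 : ℤ × ℤ)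
    (c : Fin d) : Prop :=
  ∀ (y : Fin d → ℤ) (σ : Bool), proj m y = x0 →
    Good N (fun z β => proj m z = step2 x0 β)
      (Sub0 (c.val + 1) y ∪ Sub0 (c.val + 1) (stepd y (c, σ))) y
      (fun A => b A.card (d - 1 - c.val))

theorem vv_nonneg {k : ℕ} {f : ℕ → ℝ} (hf : ∀ t, 0 ≤ f t) (A : Finset (Bool × Bool))
    (e : Fin d × Bool) : 0 ≤ vv d m k f A e := by
  unfold vv
  split_ifs
  · exact ind_nonneg _
  · exact zero_le_one
  · exact hf _

theorem good_dir
    (hanti : ∀ {Av Av' X X' : Set (Fin d → ℤ)}, Av ⊆ Av' → X ⊆ X' → N Av' X' ≤ N Av X)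
    {k : ℕ} (hmk : 2 * m ≤ k) (hB : ∀ c : Fin d, k ≤ c.val → ClB m b N x0 c)
    {y : Fin d → ℤ} (hy : proj m y = x0) (e : Fin d × Bool) :
    Good N (fun z β => proj m z = step2 x0 β) (sb k y e) (stepd y e)
      (fun A => vv d m k (b A.card) A e) := by
  by_cases h1 : e.1.val < 2 * m
  · have hs : sb k y e = ∅ := by
      ext z
      simp only [sb, Set.mem_ofPred_eq, Set.mem_empty_iff_false, iff_false]
      omega
    have hv : (fun A => vv d m k (b A.card) A e) =
        fun A : Finset (Bool × Bool) => ind (bdir m e ∉ A) := by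
      funext A
      rw [vv, if_pos h1]
    rw [hs, hv]
    refine good_exit ?_
    rw [proj_stepd_base y h1, hy]
  · by_cases h2 : e.1.val < k
    · have hs : sb k y e = ∅ := by
        ext z
        simp only [sb, Set.mem_ofPred_eq, Set.mem_empty_iff_false, iff_false]
        omega
      have hv : (fun A => vv d m k (b A.card) A e) =
          fun _ : Finset (Bool × Bool) => (1 : ℝ) := by
        funext A
        rw [vv, if_neg h1, if_pos h2]
      rw [hs, hv]
      exact good_waste hanti _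
    · have hs : sb k y e = Sub0 (e.1.val + 1) (stepd y e) ∪
          Sub0 (e.1.val + 1) (stepd (stepd y e) (e.1, e.2)) := by
        ext z
        simp only [sb, Set.mem_ofPred_eq, Set.mem_union]
        constructor
        · exact fun h => h.2
        · exact fun h => ⟨by omega, h⟩
      have hv : (fun A => vv d m k (b A.card) A e) =
          fun A : Finset (Bool × Bool) => b A.card (d - 1 - e.1.val) := by
        funext A
        rw [vv, if_neg h1, if_neg h2]
      rw [hs, hv]
      refine hB e.1 (by omega) (stepd y e) e.2 ?_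
      rw [proj_stepd_fibre y (by omega), hy]

theorem pl_nonneg (hd : 1 ≤ d) (s : Finset (Fin d × Bool)) : 0 ≤ pl d s := by
  unfold pl
  have hd1 : (1 : ℝ) ≤ d := by exact_mod_cast hd
  split_ifs
  · have h2 : (0 : ℝ) ≤ 2 * d - 1 := by linarith
    positivity
  · exact le_rfl

theorem card_le_four (A : Finset (Bool × Bool)) : A.card ≤ 4 := by
  have := Finset.card_le_univ A
  simpa using this

theorem self_mem_Sub0 (k : ℕ) (y : Fin d → ℤ) : y ∈ Sub0 k y := fun _ _ => rfl

theorem stepA (hm : 1 ≤ m)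
    (hrec : ∀ j ≤ 4, Recu d m j (a j) (b j))
    (hanti : ∀ {Av Av' X X' : Set (Fin d → ℤ)}, Av ⊆ Av' → X ⊆ X' → N Av' X' ≤ N Av X)
    (hN : ∀ {Av X : Set (Fin d → ℤ)} {y : Fin d → ℤ}, y ∈ Av →
      N Av (insert y X) ≤
        ∑ s, pl d s * N (Av \ {y}) (X ∪ stepd y '' (s : Set (Fin d × Bool))))
    {k : ℕ} (hmk : 2 * m ≤ k) (hk : k ≤ d)
    (hB : ∀ c : Fin d, k ≤ c.val → ClB m b N x0 c) : ClA m a N x0 k := by
  intro y hy
  have h1 := good_step (step := stepd) (p := pl d) hanti (pl_nonneg (by omega)) hN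
    (self_mem_Sub0 k y) (sb k y) (fun e A => vv d m k (b A.card) A e)
    (fun e => sb_subset) (fun e e' h => sb_disjoint h) (good_dir hanti hmk hB hy)
    (fun e A => vv_nonneg (hrec A.card (card_le_four A)).b_nonneg A e)
  refine good_mono h1 fun A => ?_
  have h2 := (hrec A.card (card_le_four A)).ha (d - k) (by omega)
  rw [pair_sum (by omega), sum_vv hmk hk, sum_vv_sq hmk hk]
  exact h2

theorem sum_ite_one {ι : Type*} [Fintype ι] [DecidableEq ι] (f : ι → ℝ) (i : ι) (x : ℝ) :
    ∑ e, (if e = i then x else f e) = ∑ e, f e - (f i - x) := by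
  have h : ∀ e, (if e = i then x else f e) = f e - if e = i then f i - x else 0 := by
    intro e
    by_cases he : e = i
    · subst he
      simp
    · simp [he]
  rw [Finset.sum_congr rfl fun e _ => h e, Finset.sum_sub_distrib, Finset.sum_ite_eq']
  simp

theorem stepB (hm : 1 ≤ m)
    (hrec : ∀ j ≤ 4, Recu d m j (a j) (b j))
    (hanti : ∀ {Av Av' X X' : Set (Fin d → ℤ)}, Av ⊆ Av' → X ⊆ X' → N Av' X' ≤ N Av X)
    (hN : ∀ {Av X : Set (Fin d → ℤ)} {y : Fin d → ℤ}, y ∈ Av →
      N Av (insert y X) ≤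
        ∑ s, pl d s * N (Av \ {y}) (X ∪ stepd y '' (s : Set (Fin d × Bool))))
    {c : Fin d} (hmk : 2 * m ≤ c.val)
    (hB : ∀ c' : Fin d, c.val + 1 ≤ c'.val → ClB m b N x0 c')
    (hA : ClA m a N x0 (c.val + 1)) : ClB m b N x0 c := by
  classical
  intro y σ hy
  have hc := c.isLt
  have hyy : stepd y (c, σ) c ≠ y c := by
    have := stepd_self y (c, σ)
    simp only at this
    rw [this]
    cases σ <;> simp [sg]
  have hz : ∀ z ∈ Sub0 (c.val + 1) (stepd y (c, σ)), z c ≠ y c := by
    intro z hz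
    rw [hz c (by omega)]
    exact hyy
  have hz' : ∀ z ∈ Sub0 (c.val + 1) y, z c = y c := fun z hz => hz c (by omega)
  have h1 := good_step (step := stepd) (p := pl d) hanti (pl_nonneg (by omega)) hN
    (Sub := Sub0 (c.val + 1) y ∪ Sub0 (c.val + 1) (stepd y (c, σ))) (y := y)
    (hit := fun z β => proj m z = step2 x0 β)
    (Or.inl (self_mem_Sub0 _ y))
    (fun e => if e = (c, σ) then Sub0 (c.val + 1) (stepd y (c, σ)) else sb (c.val + 1) y e)
    (fun e A => if e = (c, σ) then a A.card (d - (c.val + 1)) else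
      vv d m (c.val + 1) (b A.card) A e)
    ?_ ?_ ?_ ?_
  · refine good_mono h1 fun A => ?_
    have h2 := (hrec A.card (card_le_four A)).hb (d - 1 - c.val) (by omega)
    have h3 : d - (c.val + 1) = d - 1 - c.val := by omega
    have h4 : vv d m (c.val + 1) (b A.card) A (c, σ) = 1 := by
      simp only [vv]
      rw [if_neg (by omega), if_pos (by omega)]
    have h5 : ∀ e : Fin d × Bool, (if e = (c, σ) then a A.card (d - (c.val + 1)) else
        vv d m (c.val + 1) (b A.card) A e) ^ 2 =
        if e = (c, σ) then a A.card (d - (c.val + 1)) ^ 2 else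
          vv d m (c.val + 1) (b A.card) A e ^ 2 := by
      intro e
      split_ifs <;> rfl
    rw [pair_sum (by omega), Finset.sum_congr rfl fun e _ => h5 e, sum_ite_one, sum_ite_one,
      sum_vv (by omega) (by omega), sum_vv_sq (by omega) (by omega), h4, h3, one_pow]
    exact h2
  · intro e
    by_cases he : e = (c, σ)
    · rw [if_pos he]
      intro z hzz
      refine ⟨Or.inr hzz, fun h => ?_⟩
      rw [Set.mem_singleton_iff] at h
      exact hz z hzz (by rw [h])
    · rw [if_neg he]
      intro z hzz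
      have := sb_subset hzz
      exact ⟨Or.inl this.1, this.2⟩
  · intro e e' hne
    have key : ∀ e : Fin d × Bool, Disjoint (Sub0 (c.val + 1) (stepd y (c, σ)))
        (sb (c.val + 1) y e) := by
      intro e
      rw [Set.disjoint_left]
      intro z h1 h2
      exact hz z h1 (hz' z (sb_subset h2).1)
    by_cases he : e = (c, σ)
    · have he' : e' ≠ (c, σ) := fun h => hne (he.trans h.symm)
      rw [if_pos he, if_neg he']
      exact key e'
    · rw [if_neg he]
      by_cases he' : e' = (c, σ)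
      · rw [if_pos he']
        exact (key e).symm
      · rw [if_neg he']
        exact sb_disjoint hne
  · intro e
    by_cases he : e = (c, σ)
    · subst he
      simp only [if_true]
      refine hA _ ?_
      rw [proj_stepd_fibre y hmk, hy]
    · simp only [if_neg he]
      exact good_dir hanti (by omega) hB hy e
  · intro e A
    split_ifs
    · exact (hrec A.card (card_le_four A)).a_nonneg _
    · exact vv_nonneg (hrec A.card (card_le_four A)).b_nonneg A e

end

end Fib

open Fib

theorem root_good {d m : ℕ} (hm : 1 ≤ m) (hd : 2 * m ≤ d) {a b : ℕ → ℕ → ℝ}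
    (hrec : ∀ j ≤ 4, Recu d m j (a j) (b j)) {N : Set (Fin d → ℤ) → Set (Fin d → ℤ) → ℝ}
    (hanti : ∀ {Av Av' X X' : Set (Fin d → ℤ)}, Av ⊆ Av' → X ⊆ X' → N Av' X' ≤ N Av X)
    (hN : ∀ {Av X : Set (Fin d → ℤ)} {y : Fin d → ℤ}, y ∈ Av →
      N Av (insert y X) ≤
        ∑ s, pl d s * N (Av \ {y}) (X ∪ stepd y '' (s : Set (Fin d × Bool))))
    {x0 : ℤ × ℤ} {y : Fin d → ℤ} (hy : proj m y = x0) :
    Good N (fun z β => proj m z = step2 x0 β) (Sub0 (2 * m) y) y
      (fun A => a A.card (d - 2 * m)) := by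
  have hall : ∀ t ≤ d - 2 * m, ∀ c : Fin d, d - t ≤ c.val → ClB m b N x0 c := by
    intro t
    induction t with
    | zero =>
      intro _ c hc
      have := c.isLt
      omega
    | succ t ih =>
      intro ht c hc
      have ih' := ih (by omega)
      rcases Nat.lt_or_ge c.val (d - t) with h | h
      · have hct : c.val + 1 = d - t := by omega
        refine stepB hm hrec hanti hN (by omega) (fun c' hc' => ih' c' (by omega)) ?_
        rw [hct]
        exact stepA hm hrec hanti hN (by omega) (by omega) ih'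
      · exact ih' c h
  refine stepA hm hrec hanti hN le_rfl hd (fun c hc => hall (d - 2 * m) le_rfl c (by omega)) y hy

end NN
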