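import Pool.Agent.H87.NN.Defs

/-!
# Exploration trees (module NN-GOOD)

`N Av X` is abstract; think of the probability that no point of `X` reaches the target through
`Av`. `hit z b` (`z` lies over the neighbour in direction `b` of the base point).
`Good N hit Sub y r`: exploring from `y` inside the region `Sub`, the probability that no exit in a
direction of `A` is found is at most `r A`, formulated with weights.

`good_step`. Claim: for every finite set `s` of directions, all `Av`, `X`, all weights `c ≥ 0`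
with `sub e ⊆ Av` for `e ∈ s` and
(H) for all `Y`, `S` with `∀ b ∈ S, ∃ z ∈ Y, hit z b`:
`N (Av \ ⋃ e ∈ s, sub e) (X ∪ Y) ≤ ∑ A, c A * ind (Disjoint S A)`,
we have `N Av (X ∪ step y '' s) ≤ ∑ A, c A * ∏ e ∈ s, v e A`.
Induction on `s`. `s = ∅`: (H) with `Y = ∅`, `S = ∅`. For `insert e s`: apply `Good (sub e) (step y e)
(v e)` with `Av`, `X ∪ step y '' s` and the weights `c A * ∏ e ∈ s, v e A`; its hypothesis for
`Y₁, S₁` is the induction hypothesis with `Av \ sub e`, `X ∪ Y₁`, weights
`c A * ind (Disjoint S₁ A)` (`sub e' ⊆ Av \ sub e` by disjointness), whose hypothesis for `Y₂, S₂`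
is (H) with `Y₁ ∪ Y₂`, `S₁ ∪ S₂` (`ind (Disjoint S₁ A) * ind (Disjoint S₂ A) =
ind (Disjoint (S₁ ∪ S₂) A)`; `(Av \ sub e) \ ⋃ s = Av \ ⋃ (insert e s)`).

Then for `Good Sub y`: `N Av (insert y X) ≤ ∑ s, p s * N (Av \ {y}) (X ∪ step y '' s)` (`hrec`) and
the claim applies with `Av \ {y}` (`sub e ⊆ Sub \ {y} ⊆ Av \ {y}`; (H) from the
hypothesis of `Good` since `Av \ Sub ⊆ (Av \ {y}) \ ⋃ e, sub e` and `N` is antitone). Exchange
the sums.
-/

open Finset

namespace NN

variable {V E β : Type*} [Fintype E] [Fintype β] [DecidableEq β]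

/-- see the header -/
def Good (N : Set V → Set V → ℝ) (hit : V → β → Prop) (Sub : Set V) (y : V)
    (r : Finset β → ℝ) : Prop :=
  ∀ (Av X : Set V) (c : Finset β → ℝ), Sub ⊆ Av → (∀ A, 0 ≤ c A) →
    (∀ (Y : Set V) (S : Finset β), (∀ b ∈ S, ∃ z ∈ Y, hit z b) →
      N (Av \ Sub) (X ∪ Y) ≤ ∑ A, c A * ind (Disjoint S A)) →
    N Av (insert y X) ≤ ∑ A, c A * r A

variable {N : Set V → Set V → ℝ} {hit : V → β → Prop}

theorem good_mono {Sub : Set V} {y : V} {r r' : Finset β → ℝ} (h : Good N hit Sub y r)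
    (hr : ∀ A, r A ≤ r' A) : Good N hit Sub y r' := by
  intro Av X c hS hc hY
  exact (h Av X c hS hc hY).trans
    (Finset.sum_le_sum fun A _ => mul_le_mul_of_nonneg_left (hr A) (hc A))

/-- a wasted pick -/
theorem good_waste (hanti : ∀ {Av Av' X X' : Set V}, Av ⊆ Av' → X ⊆ X' → N Av' X' ≤ N Av X)
    (y : V) : Good N hit ∅ y (fun _ => 1) := by
  intro Av X c _ hc hY
  have h := hY ∅ ∅ (by simp)
  simp only [Set.sdiff_empty, Set.union_empty] at h
  refine (hanti subset_rfl (Set.subset_insert y X)).trans (h.trans (le_of_eq ?_))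
  exact Finset.sum_congr rfl fun A _ => by rw [ind_pos (Finset.disjoint_empty_left A)]

/-- an exit in direction `b` -/
theorem good_exit {y : V} {b : β} (hb : hit y b) :
    Good N hit ∅ y (fun A => ind (b ∉ A)) := by
  intro Av X c _ hc hY
  have h := hY {y} {b} (by simpa using hb)
  simp only [Set.sdiff_empty, Set.union_singleton] at h
  refine h.trans (le_of_eq ?_)
  exact Finset.sum_congr rfl fun A _ => by
    rw [ind_congr (show Disjoint ({b} : Finset β) A ↔ b ∉ A by simp)]

theorem good_step_aux {step : V → E → V} {y : V} (sub : E → Set V)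
    (v : E → Finset β → ℝ)
    (hdisj : ∀ e e', e ≠ e' → Disjoint (sub e) (sub e'))
    (hgood : ∀ e, Good N hit (sub e) (step y e) (v e)) (hv : ∀ e A, 0 ≤ v e A)
    (s : Finset E) : ∀ (Av X : Set V) (c : Finset β → ℝ), (∀ A, 0 ≤ c A) →
      (∀ e ∈ s, sub e ⊆ Av) →
      (∀ (Y : Set V) (S : Finset β), (∀ b ∈ S, ∃ z ∈ Y, hit z b) →
        N (Av \ ⋃ e ∈ s, sub e) (X ∪ Y) ≤ ∑ A, c A * ind (Disjoint S A)) →
      N Av (X ∪ step y '' (s : Set E)) ≤ ∑ A, c A * ∏ e ∈ s, v e A := by
  classical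
  induction s using Finset.induction_on with
  | empty =>
    intro Av X c hc _ hY
    have h := hY ∅ ∅ (by simp)
    simp only [Finset.notMem_empty, Set.iUnion_of_empty, Set.iUnion_empty, Set.sdiff_empty,
      Set.union_empty] at h
    simp only [Finset.coe_empty, Set.image_empty, Set.union_empty, Finset.prod_empty, mul_one]
    refine h.trans (le_of_eq (Finset.sum_congr rfl fun A _ => ?_))
    rw [ind_pos (Finset.disjoint_empty_left A), mul_one]
  | insert e s he ih =>
    intro Av X c hc hsub hY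
    have hset : X ∪ step y '' ((insert e s : Finset E) : Set E)
        = insert (step y e) (X ∪ step y '' (s : Set E)) := by
      rw [Finset.coe_insert, Set.image_insert_eq, Set.union_insert]
    have hprod : ∑ A, c A * ∏ e' ∈ insert e s, v e' A
        = ∑ A, (c A * ∏ e' ∈ s, v e' A) * v e A := by
      refine Finset.sum_congr rfl fun A _ => ?_
      rw [Finset.prod_insert he]
      ring
    rw [hset, hprod]
    refine hgood e Av (X ∪ step y '' (s : Set E)) (fun A => c A * ∏ e' ∈ s, v e' A)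
      (hsub e (Finset.mem_insert_self e s))
      (fun A => mul_nonneg (hc A) (Finset.prod_nonneg fun e' _ => hv e' A)) ?_
    intro Y₁ S₁ hS₁
    have h1 := ih (Av \ sub e) (X ∪ Y₁) (fun A => c A * ind (Disjoint S₁ A))
      (fun A => mul_nonneg (hc A) (ind_nonneg _)) ?_ ?_
    · have e1 : X ∪ step y '' (s : Set E) ∪ Y₁ = X ∪ Y₁ ∪ step y '' (s : Set E) := by
        rw [Set.union_right_comm]
      rw [e1]
      refine h1.trans (le_of_eq (Finset.sum_congr rfl fun A _ => ?_))
      ring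
    · intro e' he'
      refine fun z hz => ⟨hsub e' (Finset.mem_insert_of_mem he') hz, fun hz' => ?_⟩
      have hne : e' ≠ e := fun h => he (h ▸ he')
      exact Set.disjoint_left.1 (hdisj e' e hne) hz hz'
    · intro Y₂ S₂ hS₂
      have h2 := hY (Y₁ ∪ Y₂) (S₁ ∪ S₂) ?_
      · have e2 : (Av \ sub e) \ ⋃ e' ∈ s, sub e' = Av \ ⋃ e' ∈ insert e s, sub e' := by
          rw [Set.sdiff_sdiff, Finset.set_biUnion_insert]
        rw [e2, Set.union_assoc]
        refine h2.trans (le_of_eq (Finset.sum_congr rfl fun A _ => ?_))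
        have h3 : ind (Disjoint (S₁ ∪ S₂) A) = ind (Disjoint S₁ A) * ind (Disjoint S₂ A) := by
          rw [← ind_and]
          exact ind_congr Finset.disjoint_union_left
        rw [h3]
        ring
      · intro b hb
        rcases Finset.mem_union.1 hb with hb | hb
        · obtain ⟨z, hz, h⟩ := hS₁ b hb
          exact ⟨z, Or.inl hz, h⟩
        · obtain ⟨z, hz, h⟩ := hS₂ b hb
          exact ⟨z, Or.inr hz, h⟩

theorem good_step (hanti : ∀ {Av Av' X X' : Set V}, Av ⊆ Av' → X ⊆ X' → N Av' X' ≤ N Av X)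
    {step : V → E → V} {p : Finset E → ℝ} (hp : ∀ s, 0 ≤ p s)
    (hrec : ∀ {Av X : Set V} {y : V}, y ∈ Av →
      N Av (insert y X) ≤ ∑ s, p s * N (Av \ {y}) (X ∪ step y '' (s : Set E)))
    {Sub : Set V} {y : V} (hy : y ∈ Sub) (sub : E → Set V) (v : E → Finset β → ℝ)
    (hsub : ∀ e, sub e ⊆ Sub \ {y}) (hdisj : ∀ e e', e ≠ e' → Disjoint (sub e) (sub e'))
    (hgood : ∀ e, Good N hit (sub e) (step y e) (v e)) (hv : ∀ e A, 0 ≤ v e A) :
    Good N hit Sub y (fun A => ∑ s, p s * ∏ e ∈ s, v e A) := by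
  intro Av X c hSub hc hY
  refine (hrec (hSub hy)).trans ?_
  have hs : ∀ s : Finset E, N (Av \ {y}) (X ∪ step y '' (s : Set E))
      ≤ ∑ A, c A * ∏ e ∈ s, v e A := by
    intro s
    refine good_step_aux sub v hdisj hgood hv s (Av \ {y}) X c hc ?_ ?_
    · intro e _ z hz
      exact ⟨hSub (hsub e hz).1, (hsub e hz).2⟩
    · intro Y S hS
      refine (hanti ?_ subset_rfl).trans (hY Y S hS)
      intro z hz
      refine ⟨⟨hz.1, fun h => hz.2 ?_⟩, fun h => hz.2 ?_⟩
      · rw [Set.mem_singleton_iff] at h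
        rw [h]
        exact hy
      · obtain ⟨e, h⟩ := Set.mem_iUnion.1 h
        obtain ⟨_, h⟩ := Set.mem_iUnion.1 h
        exact (hsub e h).1
  calc ∑ s, p s * N (Av \ {y}) (X ∪ step y '' (s : Set E))
      ≤ ∑ s, p s * ∑ A, c A * ∏ e ∈ s, v e A :=
        Finset.sum_le_sum fun s _ => mul_le_mul_of_nonneg_left (hs s) (hp s)
    _ = ∑ A, c A * ∑ s, p s * ∏ e ∈ s, v e A := by
        simp_rw [Finset.mul_sum]
        rw [Finset.sum_comm]
        refine Finset.sum_congr rfl fun A _ => Finset.sum_congr rfl fun s _ => ?_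
        ring

end NN
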