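import Pool.Agent.H87.NN.Reach
import Pool.Agent.H87.NN.Alg2
import Pool.Agent.H87.NN.Laws

/-!
# Exits from translated boxes (module NN-TRANS)

`Pr_rch_le_exitP`: a path from `y` to a set `T` disjoint from `y + box n` has to leave `y + box n`.

Proof. Let `C = (box n).map (· + y)`. `Rch Av T ω y → Rch C Cᶜ ω y`, for every `Av` (induction on
`Rch`: a vertex which is not in `C` is a hit, a vertex in `C` is not in `T`). Enlarge `B` to
`B ∪ C` (`Pr_restrict`, both events depend only on `B`, `C`), use `Pr_mono`, and restrict to `C`.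
Finally `Pr (nu t) C (Rch C Cᶜ · y) = exitP t n` by `Ex_map` with `τ = Equiv.addRight y` and the
translation invariance of `Rch`: `Rch C Cᶜ (η ∘ τ.symm) (z + y) ↔ Rch (box n) (box n)ᶜ η z`
(induction on `Rch`, `step2 (z + y) e = step2 z e + y`).

`exitP_mono_t`: `Ex_rch_le` with `avd_nu_anti` and `nu_sum`.
-/

open Finset

namespace NN

theorem step2_add (z y : ℤ × ℤ) (e : Bool × Bool) : step2 (z + y) e = step2 z e + y := by
  unfold step2
  split_ifs
  · ext
    · rfl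
    · simp only [Prod.snd_add]
      ring
  · ext
    · simp only [Prod.fst_add]
      ring
    · rfl

theorem step2_sub (z y : ℤ × ℤ) (e : Bool × Bool) : step2 (z - y) e = step2 z e - y := by
  have h := step2_add (z - y) y e
  rw [sub_add_cancel] at h
  rw [h, add_sub_cancel_right]

/-- translation of a path -/
theorem rch_sub {A T : Set (ℤ × ℤ)} {η ω : ℤ × ℤ → Finset (Bool × Bool)} {x y : ℤ × ℤ}
    (hη : ∀ z, η (z - y) = ω z) (h : Rch step2 {z | z - y ∈ A} {z | z - y ∈ T} ω x) :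
    Rch step2 A T η (x - y) := by
  induction h with
  | hit h => exact .hit h
  | @go x e h1 h2 _ ih =>
    refine .go (e := e) h1 ?_ ?_
    · rwa [hη]
    · rwa [step2_sub]

/-- a path to `T` from `y` leaves every set `C` containing no point of `T` -/
theorem rch_exit {Av T C : Set (ℤ × ℤ)} {ω : ℤ × ℤ → Finset (Bool × Bool)} {x : ℤ × ℤ}
    (hT : ∀ z ∈ T, z ∉ C) (h : Rch step2 Av T ω x) : Rch step2 C Cᶜ ω x := by
  induction h with
  | hit h => exact .hit (hT _ h)
  | @go x e h1 h2 _ ih =>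
    by_cases hx : x ∈ C
    · exact .go hx h2 ih
    · exact .hit hx

theorem Pr_rch_le_exitP {t : ℝ} (h0 : 0 ≤ t) (h1 : t ≤ 1) {n : ℕ} {B : Finset (ℤ × ℤ)}
    {Av T : Set (ℤ × ℤ)} (hAv : Av ⊆ B) {y : ℤ × ℤ} (hT : ∀ z ∈ T, z - y ∉ box n) :
    Pr (fun _ => nu t) B (fun ω => Rch step2 Av T ω y) ≤ exitP t n := by
  set τ : ℤ × ℤ ≃ ℤ × ℤ := Equiv.addRight y with hτ
  set C : Finset (ℤ × ℤ) := (box n).map τ.toEmbedding with hC
  have hmem : ∀ z, z ∈ C ↔ z - y ∈ box n := by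
    intro z
    rw [hC, Finset.mem_map_equiv]
    rfl
  have hCset : (C : Set (ℤ × ℤ)) = {z | z - y ∈ (box n : Set (ℤ × ℤ))} := by
    ext z
    exact hmem z
  have hw : ∀ i ∈ B ∪ C, ∑ s, (fun _ : ℤ × ℤ => nu t) i s = 1 := fun _ _ => nu_sum t
  have hd1 : DependsOn (fun ω => Rch step2 Av T ω y) (B : Set (ℤ × ℤ)) :=
    fun ω ω' h => dependsOn_rch fun i hi => h i (hAv hi)
  have hd2 : DependsOn (fun ω => Rch step2 (C : Set (ℤ × ℤ)) (C : Set (ℤ × ℤ))ᶜ ω y)
      (C : Set (ℤ × ℤ)) := dependsOn_rch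
  rw [← Pr_restrict (Finset.subset_union_left (s₂ := C)) hd1 hw]
  refine (Pr_mono (A' := fun ω => Rch step2 (C : Set (ℤ × ℤ)) (C : Set (ℤ × ℤ))ᶜ ω y)
    (fun _ _ s => nu_nonneg h0 h1 s) fun ω h => ?_).trans ?_
  · refine rch_exit (fun z hz hzC => hT z hz ?_) h
    exact (hmem z).1 hzC
  rw [Pr_restrict (Finset.subset_union_right (s₁ := B)) hd2 hw]
  unfold exitP Pr
  rw [hC, Ex_map τ (fun _ => rfl)]
  refine Ex_mono (fun _ _ s => nu_nonneg h0 h1 s) (fun η => ind_mono fun h => ?_) _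
  have h2 := rch_sub (A := (box n : Set (ℤ × ℤ))) (T := (box n : Set (ℤ × ℤ))ᶜ) (η := η)
    (ω := η ∘ τ.symm) (x := y) (y := y) (fun z => rfl) (by
      have h3 : (((box n).map τ.toEmbedding : Finset (ℤ × ℤ)) : Set (ℤ × ℤ)) =
        {z | z - y ∈ (box n : Set (ℤ × ℤ))} := hCset
      rw [h3] at h
      exact h)
  rw [sub_self] at h2
  exact h2

end NN
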