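import Pool.Agent.H87.NN.Dual
import Pool.Agent.H87.NN.Trans
import Pool.Agent.H87.NN.Dom
import Pool.Agent.H87.NN.Alg2

/-!
# Lower bound for the exit probabilities (module NN-HALF)

(1) `half_of_involution`: let `B` be finite, `w` the uniform law on all subsets of `E`
(`w s = c` with `c * 2 ^ card E = 1`; here simply `∀ s, w i s = c`, total mass `1`), `A` an event
which depends only on `B`, `Φ` a map on configurations such that `Φ ω` on `B` depends only on `ω` on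
`B`, `Φ (Φ ω) = ω` on `B`, and `¬ A ω → A (Φ ω)`. Then `1/2 ≤ Pr w B A`.
Proof: `Ex_eq_sum` writes `Pr w B A` as `c ^ B.card * #{σ : B → Finset E | A (ext σ)}`, where
`ext σ` is `σ` on `B` and `∅` outside; `σ ↦ Φ (ext σ)` restricted to `B` is an involution of
`B → Finset E`, hence injective, and maps the complement of `A` into `A`; so
`#A ≥ #Aᶜ`, `2 #A ≥ (2 ^ card E) ^ B.card`.

(2) `Pr (nu 0) (SqF n) (Cross n) ≥ 1/2`, where `SqF n` is the finset of `Sq n`
(`bet_mem`, `bet_bet`, `cross_or_dual_cross`; `nu 0 s = 1/16`).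

(3) `ind (Cross n ω) ≤ ∑ j ∈ range n, ind (Rch (Sq n) (Rt n) ω (0, j))`, and
`Pr_rch_le_exitP` with `y = (0, j)`: points `z` of `Rt n` satisfy `(z - y).1 = n`, so
`z - y ∉ box (n - 1)`. Hence `1/2 ≤ n * exitP 0 (n-1)`.

(4) `exitP_mono_t`: `Ex_rch_le` with `w = nu 0`, `w' = nu t`, `avd_nu_anti`, `nu_sum`.
-/

open Finset

namespace NN

theorem half_of_involution {V E : Type*} [Fintype E] [DecidableEq V] {w : V → Finset E → ℝ}
    {c : ℝ} (hc : ∀ i s, w i s = c) (h1 : ∀ i, ∑ s, w i s = 1) {B : Finset V}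
    {A : (V → Finset E) → Prop} (hA : DependsOn A (B : Set V))
    (Φ : (V → Finset E) → (V → Finset E))
    (hΦ : ∀ ω ω', (∀ i ∈ B, ω i = ω' i) → ∀ i ∈ B, Φ ω i = Φ ω' i)
    (hinv : ∀ ω, ∀ i ∈ B, Φ (Φ ω) i = ω i) (hAΦ : ∀ ω, ¬ A ω → A (Φ ω)) :
    1 / 2 ≤ Pr w B A := by
  classical
  set ext : (B → Finset E) → (V → Finset E) :=
    fun σ x => if h : x ∈ B then σ ⟨x, h⟩ else ∅ with hext
  have hext_mem : ∀ σ : B → Finset E, ∀ i (h : i ∈ B), ext σ i = σ ⟨i, h⟩ := by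
    intro σ i h
    simp only [hext, dif_pos h]
  set Ψ : (B → Finset E) → (B → Finset E) := fun σ i => Φ (ext σ) i.1 with hΨ
  have hΨΨ : ∀ σ, Ψ (Ψ σ) = σ := by
    intro σ
    funext i
    have h1 : Φ (ext (Ψ σ)) i.1 = Φ (Φ (ext σ)) i.1 := by
      refine hΦ _ _ ?_ i.1 i.2
      intro k hk
      rw [hext_mem _ k hk]
    change Φ (ext (Ψ σ)) i.1 = σ i
    rw [h1, hinv _ _ i.2, hext_mem _ i.1 i.2]
  have hAext : ∀ σ, A (ext (Ψ σ)) ↔ A (Φ (ext σ)) := by
    intro σ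
    have := hA (x := ext (Ψ σ)) (y := Φ (ext σ)) (fun k hk => hext_mem _ k hk)
    rw [this]
  have hPr : Pr w B A = c ^ B.card * ∑ σ : B → Finset E, ind (A (ext σ)) := by
    unfold Pr
    rw [Ex_eq_sum, Finset.mul_sum]
    refine Finset.sum_congr rfl fun σ _ => ?_
    congr 1
    rw [Finset.prod_congr rfl fun i _ => hc i.1 (σ i), Finset.prod_const]
    simp
  have hone : (1 : ℝ) = c ^ B.card * ∑ σ : B → Finset E, (1 : ℝ) := by
    have h2 := congrFun (Ex_const (w := w) (B := B) (1 : ℝ)) (fun _ => (∅ : Finset E))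
    rw [Ex_eq_sum] at h2
    simp only [h1, Finset.prod_const_one, mul_one] at h2
    refine h2.symm.trans ?_
    rw [Finset.mul_sum]
    refine Finset.sum_congr rfl fun σ _ => ?_
    rw [Finset.prod_congr rfl fun i _ => hc i.1 (σ i), Finset.prod_const]
    simp
  have hcn : 0 ≤ c ^ B.card := by
    by_contra hneg
    have h3 : 0 ≤ ∑ σ : B → Finset E, (1 : ℝ) := Finset.sum_nonneg fun _ _ => zero_le_one
    nlinarith [mul_nonneg (neg_nonneg.2 (not_le.1 hneg).le) h3]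
  have hinvsum : ∑ σ : B → Finset E, ind (A (ext σ)) =
      ∑ σ : B → Finset E, ind (A (Φ (ext σ))) := by
    rw [← Equiv.sum_comp (⟨Ψ, Ψ, hΨΨ, hΨΨ⟩ : (B → Finset E) ≃ (B → Finset E))]
    exact Finset.sum_congr rfl fun σ _ => ind_congr (hAext σ)
  have hge : ∑ σ : B → Finset E, (1 : ℝ) ≤
      ∑ σ : B → Finset E, ind (A (ext σ)) + ∑ σ : B → Finset E, ind (A (Φ (ext σ))) := by
    rw [← Finset.sum_add_distrib]
    refine Finset.sum_le_sum fun σ _ => ?_
    by_cases h : A (ext σ)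
    · rw [ind_pos h]
      linarith [ind_nonneg (A (Φ (ext σ)))]
    · rw [ind_pos (hAΦ _ h)]
      linarith [ind_nonneg (A (ext σ))]
  rw [← hinvsum] at hge
  have := mul_le_mul_of_nonneg_left hge hcn
  rw [← hone, mul_add] at this
  rw [hPr]
  linarith

/-- `Sq n` as a finset -/
noncomputable def SqF (n : ℕ) : Finset (ℤ × ℤ) :=
  Finset.Ico (0 : ℤ) n ×ˢ Finset.Ico (0 : ℤ) n

theorem coe_SqF (n : ℕ) : (SqF n : Set (ℤ × ℤ)) = Sq n := by
  ext z
  simp only [SqF, Sq, Finset.coe_product, Finset.coe_Ico, Set.mem_prod, Set.mem_Ico,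
    Set.mem_ofPred_eq]
  tauto

theorem dependsOn_cross (n : ℕ) : DependsOn (Cross n) (SqF n : Set (ℤ × ℤ)) := by
  intro ω ω' h
  rw [coe_SqF] at h
  simp only [Cross]
  refine propext (exists_congr fun j => ?_)
  rw [rch_congr h]

theorem cross_half {n : ℕ} (hn : 1 ≤ n) : 1 / 2 ≤ Pr (fun _ => nu 0) (SqF n) (Cross n) := by
  have hmem : ∀ z, z ∈ SqF n ↔ z ∈ Sq n := by
    intro z
    rw [← coe_SqF, Finset.mem_coe]
  refine half_of_involution (c := 1 / 16) (fun i s => ?_) (fun _ => nu_sum 0)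
    (dependsOn_cross n) (Phi n) ?_ ?_ fun ω => cross_or_dual_cross hn
  · simp [nu]
  · intro ω ω' h i hi
    unfold Phi
    refine Finset.filter_congr fun e _ => ?_
    rw [h _ ((hmem _).2 (bet_mem ((hmem _).1 hi) e))]
  · intro ω i hi
    ext e
    simp only [Phi, Finset.mem_filter, Finset.mem_univ, true_and, not_not]
    rw [bet_bet ((hmem _).1 hi) e]

theorem exitP_zero_ge {n : ℕ} (hn : 1 ≤ n) : 1 / 2 ≤ n * exitP 0 (n - 1) := by
  refine (cross_half hn).trans ?_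
  have h1 : Pr (fun _ => nu 0) (SqF n) (Cross n) ≤
      ∑ j ∈ Finset.range n, Pr (fun _ => nu 0) (SqF n)
        (fun ω => Rch step2 (Sq n) (Rt n) ω (0, (j : ℤ))) := by
    unfold Pr
    have h2 := congrFun (Ex_sum (w := fun _ : ℤ × ℤ => nu 0) (B := SqF n) (Finset.range n)
      (fun (j : ℕ) ω => ind (Rch step2 (Sq n) (Rt n) ω (0, (j : ℤ))))) (fun _ => ∅)
    rw [← h2]
    refine Ex_mono (fun _ _ => nu_nonneg le_rfl zero_le_one) (fun ω => ?_) _
    refine (ind_mono ?_).trans (ind_exists_le _ _)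
    rintro ⟨j, hj0, hj, h⟩
    refine ⟨j.toNat, ?_, ?_⟩
    · rw [Finset.mem_range]; omega
    · rwa [Int.toNat_of_nonneg hj0]
  refine h1.trans ?_
  have h3 : ∀ j ∈ Finset.range n, Pr (fun _ => nu 0) (SqF n)
      (fun ω => Rch step2 (Sq n) (Rt n) ω (0, (j : ℤ))) ≤ exitP 0 (n - 1) := by
    intro j _
    refine Pr_rch_le_exitP le_rfl zero_le_one (coe_SqF n).symm.subset ?_
    rintro ⟨z1, z2⟩ ⟨hz, -⟩ hb
    simp only [box, Finset.mem_product, Finset.mem_Icc, Prod.fst_sub] at hb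
    simp only at hz
    have := hb.1.2
    push_cast [Nat.cast_sub hn] at this
    omega
  refine (Finset.sum_le_sum h3).trans ?_
  rw [Finset.sum_const, Finset.card_range, nsmul_eq_mul]

theorem exitP_mono_t {t : ℝ} (h0 : 0 ≤ t) (h1 : t ≤ 1) (n : ℕ) : exitP 0 n ≤ exitP t n := by
  unfold exitP Pr Exits
  refine Ex_rch_le (fun _ _ => nu_nonneg le_rfl zero_le_one) (fun _ _ => nu_nonneg h0 h1)
    (fun _ _ => ?_) (fun _ _ A _ => avd_nu_anti h0 A) _
  rw [nu_sum, nu_sum]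

end NN
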