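import Pool.Agent.H87.NN.Defs

/-!
# Reachability (module NN-REACH)

Elementary facts about the inductive predicate `Rch`.  Everything is by induction on `Rch`.

* `rch_update_iff` (removing a site): a path from `x` to `T` through `Av` in `update ω i s` either
  avoids `i` (as a non final vertex), or it visits `i` for a first time (path in `Av \ {i}` to
  `{i}`) and for a last time, and after the last visit it follows a direction `e ∈ s` and then goes
  to `T` through `Av \ {i}`.  Direction `→` is by induction on `Rch`: for the step `go hx he h`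
  with `x ≠ i` use the induction hypothesis and prepend; with `x = i` the hypothesis for
  `step i e` gives either the last visit (take `e`), or `Rch (Av \ {i}) T ω (step i e')` for some
  `e' ∈ s` (forget the first loop).  For `hit`, the first alternative.
* `rch_self_target`: if `0` reaches `x` and does not reach `T`, and a point `z` reaches `T`, then
  the path from `z` avoids `x` (otherwise `x`, hence `0` reaches `T`).
-/

open Finset

namespace NN

variable {V E : Type*} {step : V → E → V} {Av Av' T T' : Set V} {ω ω' : V → Finset E} {x y z : V}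

theorem rch_mono (hA : Av ⊆ Av') (hT : T ⊆ T') (h : Rch step Av T ω x) :
    Rch step Av' T' ω x := by
  induction h with
  | hit h => exact .hit (hT h)
  | go h1 h2 _ ih => exact .go (hA h1) h2 ih

/-- more picks, more paths -/
theorem rch_mono_cfg (h' : ∀ z ∈ Av, ω z ⊆ ω' z) (h : Rch step Av T ω x) :
    Rch step Av T ω' x := by
  induction h with
  | hit h => exact .hit h
  | go h1 h2 _ ih => exact .go h1 (h' _ h1 h2) ih

/-- `Rch` depends only on the configuration on `Av` -/
theorem rch_congr (h : ∀ z ∈ Av, ω z = ω' z) : Rch step Av T ω x ↔ Rch step Av T ω' x :=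
  ⟨rch_mono_cfg fun z hz => (h z hz).subset, rch_mono_cfg fun z hz => (h z hz).symm.subset⟩

theorem rch_trans (h1 : Rch step Av {y} ω x) (h2 : Rch step Av T ω y) : Rch step Av T ω x := by
  generalize hS : ({y} : Set V) = S at h1
  induction h1 with
  | hit h => subst hS; rw [Set.mem_singleton_iff] at h; rwa [h]
  | go h1 h2 _ ih => exact .go h1 h2 ih

theorem rch_iff_exists_target : Rch step Av T ω x ↔ ∃ y ∈ T, Rch step Av {y} ω x := by
  constructor
  · intro h
    induction h with
    | hit h => exact ⟨_, h, .hit rfl⟩
    | go h1 h2 _ ih =>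
      obtain ⟨y, hy, hr⟩ := ih
      exact ⟨y, hy, .go h1 h2 hr⟩
  · rintro ⟨y, hy, h⟩
    exact rch_mono subset_rfl (Set.singleton_subset_iff.2 hy) h

theorem rch_or_mem (h : Rch step Av T ω x) : x ∈ T ∨ x ∈ Av := by
  cases h with
  | hit h => exact .inl h
  | go h => exact .inr h

/-- targets outside of `Av` can be removed from the available sites -/
theorem rch_diff_target : Rch step (Av \ T) T ω x ↔ Rch step Av T ω x := by
  constructor
  · exact rch_mono Set.sdiff_subset subset_rfl
  · intro h
    induction h with
    | hit h => exact .hit h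
    | @go x e h1 h2 _ ih =>
      by_cases hx : x ∈ T
      · exact .hit hx
      · exact .go ⟨h1, hx⟩ h2 ih

/-- removing a site -/
theorem rch_update_iff [DecidableEq V] (i : V) (s : Finset E) :
    Rch step Av T (Function.update ω i s) x ↔
      Rch step (Av \ {i}) T ω x ∨
        (i ∈ Av ∧ Rch step (Av \ {i}) {i} ω x ∧ ∃ e ∈ s, Rch step (Av \ {i}) T ω (step i e)) := by
  constructor
  · intro h
    induction h with
    | hit h => exact .inl (.hit h)
    | @go x e h1 h2 _ ih =>
      by_cases hx : x = i
      · subst hx
        rw [Function.update_self] at h2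
        refine .inr ⟨h1, .hit rfl, ?_⟩
        rcases ih with ih | ⟨_, _, e', he', ih⟩
        · exact ⟨e, h2, ih⟩
        · exact ⟨e', he', ih⟩
      · rw [Function.update_of_ne hx] at h2
        rcases ih with ih | ⟨hi, ih1, ih2⟩
        · exact .inl (.go ⟨h1, hx⟩ h2 ih)
        · exact .inr ⟨hi, .go ⟨h1, hx⟩ h2 ih1, ih2⟩
  · have key : ∀ {T' : Set V} {z : V}, Rch step (Av \ {i}) T' ω z →
        Rch step Av T' (Function.update ω i s) z := by
      intro T' z h
      induction h with
      | hit h => exact .hit h
      | @go x e h1 h2 _ ih =>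
        refine .go h1.1 ?_ ih
        rwa [Function.update_of_ne h1.2]
    rintro (h | ⟨hi, h1, e, he, h2⟩)
    · exact key h
    · refine rch_trans (key h1) (.go hi (e := e) ?_ (key h2))
      rwa [Function.update_self]

/-- the same with `s = ω i` -/
theorem rch_remove (i : V) :
    Rch step Av T ω x ↔
      Rch step (Av \ {i}) T ω x ∨
        (i ∈ Av ∧ Rch step (Av \ {i}) {i} ω x ∧
          ∃ e ∈ ω i, Rch step (Av \ {i}) T ω (step i e)) := by
  classical
  conv_lhs => rw [← Function.update_eq_self i ω]
  exact rch_update_iff i (ω i)

theorem rch_single_remove (i : V) : Rch step (Av \ {i}) {i} ω x ↔ Rch step Av {i} ω x :=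
  rch_diff_target

/-- if `x` reaches `b` then it reaches `b` avoiding `a` or it reaches `a` avoiding `b` -/
theorem rch_first (a : V) {b : V} (hb : Rch step Av {b} ω x) :
    Rch step (Av \ {b}) {a} ω x ∨ Rch step (Av \ {a}) {b} ω x := by
  rw [← rch_single_remove] at hb
  generalize hS : ({b} : Set V) = S at hb
  induction hb with
  | hit h => exact .inr (.hit h)
  | @go x e h1 h2 h3 ih =>
    subst hS
    by_cases hxa : x = a
    · exact .inl (.hit hxa)
    rcases ih with ih | ih
    · exact .inl (.go h1 h2 ih)
    · exact .inr (.go ⟨h1.1, hxa⟩ h2 ih)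

/-- concatenation with different available sets -/
theorem rch_append (h1 : Rch step Av {y} ω x) (hA : Av ⊆ Av') (h2 : Rch step Av' T ω y) :
    Rch step Av' T ω x :=
  rch_trans (rch_mono hA subset_rfl h1) h2

/-- appending one step at the end -/
theorem rch_snoc {e : E} (h1 : Rch step Av {y} ω x) (hy : y ∈ Av) (he : e ∈ ω y) :
    Rch step Av {step y e} ω x :=
  rch_trans h1 (.go hy he (.hit rfl))

/-- a set containing the starting point and closed under the steps which stay in `Av` or hit `T`
catches the target -/
theorem rch_mem_of_closed {C : Set V} (hC : ∀ z ∈ C, z ∈ Av → ∀ e ∈ ω z, step z e ∈ C)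
    (hx : x ∈ C) (h : Rch step Av T ω x) : ∃ y ∈ T, y ∈ C := by
  induction h with
  | hit h => exact ⟨_, h, hx⟩
  | go h1 h2 _ ih => exact ih (hC _ hx h1 _ h2)

/-- if no path leads to the target, all sites reached also do not lead to the target -/
theorem not_rch_of_reached (h1 : Rch step Av {y} ω x) (h2 : ¬ Rch step Av T ω x) :
    ¬ Rch step Av T ω y :=
  fun h => h2 (rch_trans h1 h)

/-- a path to `T` from a point which cannot be reached ... : if `x` does not reach `T`
but reaches `i`, then the paths from `z` to `T` avoid `i` -/
theorem rch_avoid_of_not {i : V} (h0 : ¬ Rch step Av T ω x) (hi : Rch step Av {i} ω x)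
    (hz : Rch step Av T ω z) : Rch step (Av \ {i}) T ω z := by
  rcases (rch_remove i).1 hz with h | ⟨hi', _, e, he, h⟩
  · exact h
  · exact absurd (rch_trans hi (.go hi' he (rch_mono Set.sdiff_subset subset_rfl h))) h0

theorem dependsOn_rch : DependsOn (fun ω : V → Finset E => Rch step Av T ω x) Av :=
  fun _ _ h => propext (rch_congr h)

end NN
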