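import Pool.Agent.H87.NN.Fibre
import Pool.Agent.H87.NN.Reach

/-!
# From arbitrarily long paths to an infinite self-avoiding path (module NN-KOENIG)

`exists_inj_path`: `E` finite, `ω` a configuration, `x` a point, `A n` sets of sites such that `x`
reaches the complement of `A n` for every `n`, and every path (of any kind) with at most `n` steps
from `x` stays in `A n` (`hlen`; `x ∈ A 0` is needed only for empty `E`). Then there is an infinite self-avoiding directed path from `x`.

Proof. `walk step δ x k` is the position after `k` steps along `δ : ℕ → E`. Let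
`K n = {δ | (∀ k < n, δ k ∈ ω (walk δ x k)) ∧ Set.InjOn (walk δ x) (Set.Iic n)}`. It only depends on
`δ 0, …, δ (n-1)`, so it is clopen in the compact space `ℕ → E` (discrete topology on `E`), it
decreases with `n`. `K n ≠ ∅`: `Rch` gives a finite path to the complement of `A n`; take
one with the least number `l` of steps. `l > n` by `hlen`, and the path is self-avoiding
(otherwise cut the loop). So `⋂ K n ≠ ∅` by compactness
(`IsCompact.nonempty_iInter_of_sequence_nonempty_isCompact_isClosed`), and an element of the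
intersection is the required path. (Alternatively argue with extendable paths as usual.)

`proj_walk`: a walk of `k` steps in `ℤ^d` from `0` has projection in `box k`
(`proj_stepd_base`, `proj_stepd_fibre`), used for `hlen` with `A n = proj m ⁻¹' box n`.
-/

open Finset

namespace NN

/-- position after `k` steps -/
def walk {V E : Type*} (step : V → E → V) (δ : ℕ → E) (x : V) : ℕ → V
  | 0 => x
  | k + 1 => step (walk step δ x k) (δ k)

private theorem walk_congr {V E : Type*} (step : V → E → V) {δ δ' : ℕ → E} (x : V) {n : ℕ}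
    (h : ∀ k < n, δ k = δ' k) : ∀ k ≤ n, walk step δ x k = walk step δ' x k := by
  intro k
  induction k with
  | zero => intro _; rfl
  | succ k ih =>
    intro hk
    show step (walk step δ x k) (δ k) = step (walk step δ' x k) (δ' k)
    rw [ih (by omega), h k (by omega)]

private theorem exists_walk_of_rch {V E : Type*} [Nonempty E] {step : V → E → V} {Av T : Set V}
    {ω : V → Finset E} {x : V} (h : Rch step Av T ω x) :
    ∃ (δ : ℕ → E) (l : ℕ), (∀ k < l, δ k ∈ ω (walk step δ x k)) ∧ walk step δ x l ∈ T := by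
  induction h with
  | @hit x h =>
    exact ⟨fun _ => Classical.arbitrary E, 0, fun k hk => absurd hk (Nat.not_lt_zero _), h⟩
  | @go x e h1 h2 _ ih =>
    obtain ⟨δ, l, h3, h4⟩ := ih
    let δ' : ℕ → E := fun k => Nat.casesOn k e δ
    have hw : ∀ k, walk step δ' x (k + 1) = walk step δ (step x e) k := by
      intro k
      induction k with
      | zero => rfl
      | succ k ih' =>
        show step (walk step δ' x (k + 1)) (δ' (k + 1)) = step (walk step δ (step x e) k) (δ k)
        rw [ih']
    refine ⟨δ', l + 1, ?_, ?_⟩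
    · intro k hk
      cases k with
      | zero => exact h2
      | succ k => rw [hw]; exact h3 k (by omega)
    · rw [hw]; exact h4

/-- a shortest path is self-avoiding -/
private theorem exists_good_walk {V E : Type*} [Nonempty E] (step : V → E → V)
    (ω : V → Finset E) (x : V) (A : ℕ → Set V)
    (hlen : ∀ (n : ℕ) (δ : ℕ → E), ∀ k ≤ n, walk step δ x k ∈ A n)
    (h : ∀ n, Rch step (A n) (A n)ᶜ ω x) (n : ℕ) :
    ∃ δ : ℕ → E, (∀ k < n, δ k ∈ ω (walk step δ x k)) ∧
      ∀ i j, i < j → j ≤ n → walk step δ x i ≠ walk step δ x j := by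
  classical
  have hex : ∃ l, ∃ δ : ℕ → E, (∀ k < l, δ k ∈ ω (walk step δ x k)) ∧
      walk step δ x l ∈ (A n)ᶜ := by
    obtain ⟨δ, l, h1, h2⟩ := exists_walk_of_rch (h n)
    exact ⟨l, δ, h1, h2⟩
  obtain ⟨δ, h1, h2⟩ := Nat.find_spec hex
  have hmin : ∀ m < Nat.find hex, ¬ ∃ δ : ℕ → E, (∀ k < m, δ k ∈ ω (walk step δ x k)) ∧
      walk step δ x m ∈ (A n)ᶜ := fun m hm => Nat.find_min hex hm
  generalize Nat.find hex = l at h1 h2 hmin
  have hln : n < l := by
    by_contra hcon
    exact h2 (hlen n δ l (by omega))
  refine ⟨δ, fun k hk => h1 k (by omega), ?_⟩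
  intro i j hij hj heq
  let δ' : ℕ → E := fun k => if k < i then δ k else δ (k + (j - i))
  have hw1 : ∀ k ≤ i, walk step δ' x k = walk step δ x k :=
    walk_congr step x fun k hk => if_pos hk
  have hw2 : ∀ k, walk step δ' x (i + k) = walk step δ x (j + k) := by
    intro k
    induction k with
    | zero => exact (hw1 i le_rfl).trans heq
    | succ k ih =>
      show step (walk step δ' x (i + k)) (δ' (i + k)) = step (walk step δ x (j + k)) (δ (j + k))
      have e1 : δ' (i + k) = δ (j + k) := by
        have e2 : i + k + (j - i) = j + k := by omega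
        simp only [δ', if_neg (show ¬ i + k < i by omega), e2]
      rw [ih, e1]
  refine hmin (l - (j - i)) (by omega) ⟨δ', ?_, ?_⟩
  · intro k hk
    by_cases hki : k < i
    · rw [hw1 k hki.le]
      have e1 : δ' k = δ k := if_pos hki
      rw [e1]
      exact h1 k (by omega)
    · obtain ⟨m, rfl⟩ : ∃ m, k = i + m := ⟨k - i, by omega⟩
      rw [hw2]
      have e1 : δ' (i + m) = δ (j + m) := by
        have e2 : i + m + (j - i) = j + m := by omega
        simp only [δ', if_neg hki, e2]
      rw [e1]
      exact h1 _ (by omega)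
  · have e1 : l - (j - i) = i + (l - j) := by omega
    rw [e1, hw2]
    have e2 : j + (l - j) = l := by omega
    rw [e2]
    exact h2

/-- sequential compactness of `ℕ → E` for finite `E` -/
private theorem exists_limit {E : Type*} [Finite E] (f : ℕ → ℕ → E) :
    ∃ δ : ℕ → E, ∀ n, ∃ N, n ≤ N ∧ ∀ k < n, f N k = δ k := by
  let _ : TopologicalSpace E := ⊥
  have : DiscreteTopology E := ⟨rfl⟩
  obtain ⟨δ, hδ⟩ := exists_clusterPt_of_compactSpace (Filter.map f Filter.atTop)
  refine ⟨δ, fun n => ?_⟩
  have hU : {g : ℕ → E | ∀ k < n, g k = δ k} ∈ nhds δ := by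
    have h1 : {g : ℕ → E | ∀ k < n, g k = δ k} =
        ⋂ k ∈ Finset.range n, {g : ℕ → E | g k = δ k} := by
      ext g
      simp
    rw [h1]
    refine (Filter.biInter_finset_mem _).2 fun k _ => ?_
    have hc : Continuous fun g : ℕ → E => g k := continuous_apply k
    have h2 : IsOpen {g : ℕ → E | g k = δ k} :=
      (isOpen_discrete ({δ k} : Set E)).preimage hc
    exact h2.mem_nhds rfl
  have h3 : ∃ᶠ N in Filter.atTop, f N ∈ {g : ℕ → E | ∀ k < n, g k = δ k} :=
    (mapClusterPt_iff_frequently.1 hδ) _ hU
  obtain ⟨N, hN, h4⟩ := (Filter.frequently_atTop.1 h3) n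
  exact ⟨N, hN, h4⟩

theorem exists_inj_path {V E : Type*} [Finite E] (step : V → E → V) (ω : V → Finset E) (x : V)
    (A : ℕ → Set V) (hx : x ∈ A 0)
    (hlen : ∀ (n : ℕ) (δ : ℕ → E), ∀ k ≤ n, walk step δ x k ∈ A n)
    (h : ∀ n, Rch step (A n) (A n)ᶜ ω x) :
    ∃ γ : ℕ → V, Function.Injective γ ∧ γ 0 = x ∧ ∀ k, ∃ e ∈ ω (γ k), γ (k + 1) = step (γ k) e := by
  rcases isEmpty_or_nonempty E with hE | hE
  · exfalso
    cases h 0 with
    | hit h1 => exact h1 hx
    | @go _ e _ _ _ => exact hE.elim e
  choose f hf1 hf2 using exists_good_walk step ω x A hlen h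
  obtain ⟨δ, hδ⟩ := exists_limit f
  refine ⟨walk step δ x, ?_, rfl, ?_⟩
  · have key : ∀ i j, i < j → walk step δ x i ≠ walk step δ x j := by
      intro i j hij
      obtain ⟨N, hN, h1⟩ := hδ j
      have h2 := walk_congr step x h1
      rw [← h2 i hij.le, ← h2 j le_rfl]
      exact hf2 N i j hij hN
    intro i j hij
    rcases lt_trichotomy i j with h1 | h1 | h1
    · exact absurd hij (key i j h1)
    · exact h1
    · exact absurd hij.symm (key j i h1)
  · intro k
    refine ⟨δ k, ?_, rfl⟩
    obtain ⟨N, hN, h1⟩ := hδ (k + 1)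
    have h2 := walk_congr step x h1
    rw [← h2 k (by omega), ← h1 k (by omega)]
    exact hf1 N k (by omega)

theorem proj_walk {d : ℕ} (m : ℕ) (δ : ℕ → Fin d × Bool) (n : ℕ) :
    ∀ k ≤ n, proj m (walk stepd δ (0 : Fin d → ℤ) k) ∈ box n := by
  have key : ∀ k : ℕ, (-(k : ℤ) ≤ (proj m (walk stepd δ (0 : Fin d → ℤ) k)).1 ∧
      (proj m (walk stepd δ (0 : Fin d → ℤ) k)).1 ≤ k) ∧
      (-(k : ℤ) ≤ (proj m (walk stepd δ (0 : Fin d → ℤ) k)).2 ∧
      (proj m (walk stepd δ (0 : Fin d → ℤ) k)).2 ≤ k) := by
    intro k
    induction k with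
    | zero =>
      have h0 : proj m (walk stepd δ (0 : Fin d → ℤ) 0) = 0 := by
        simp [proj, walk]
      rw [h0]
      simp
    | succ k ih =>
      have hw : walk stepd δ (0 : Fin d → ℤ) (k + 1) =
        stepd (walk stepd δ (0 : Fin d → ℤ) k) (δ k) := rfl
      rw [hw]
      generalize walk stepd δ (0 : Fin d → ℤ) k = z at ih
      by_cases he : (δ k).1.val < 2 * m
      · rw [proj_stepd_base z he]
        generalize proj m z = w at ih
        generalize bdir m (δ k) = e
        have hs : sg e.2 = 1 ∨ sg e.2 = -1 := by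
          unfold sg
          split_ifs
          · exact Or.inl rfl
          · exact Or.inr rfl
        unfold step2
        push_cast
        split_ifs with h1
        · simp only
          omega
        · simp only
          omega
      · rw [proj_stepd_fibre z (not_lt.1 he)]
        push_cast
        omega
  intro k hk
  obtain ⟨⟨h1, h2⟩, h3, h4⟩ := key k
  unfold box
  rw [Finset.mem_product, Finset.mem_Icc, Finset.mem_Icc]
  omega

end NN
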