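import Pool.Agent.H87.NN.Reach

/-!
# Measure theory for the infinite product (module NN-MEAS)

`V` countable, `E` finite, `μ = Measure.infinitePi (fun _ : V => p.toMeasure)` with `p` a `PMF` on
`Finset E` (the σ-algebra on `Finset E` is Mathlib's `Finset.instMeasurableSpace`; as `E` is finite
all sets of `Finset E` are measurable: finite type with measurable singletons).

* `measurableSet_rch`: `{ω | Rch step Av T ω x}` is measurable. Proof: by induction on `n`, the set
  of `ω` with a path of at most `n` steps is measurable for all `x`
  (`R 0 x = (x ∈ T)`, `R (n+1) x = (x ∈ T) ∨ (x ∈ Av ∧ ∃ e, e ∈ ω x ∧ R n (step x e))`), and `Rch` is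
  the union over `n` (a countable union).
* `resample`: for a measurable set `A` of configurations and a site `i`,
  `μ.real A = ∑ s, (p s).toReal * μ.real {ω | update ω i s ∈ A}`.
  Proof: the image of `p.toMeasure.prod μ` under `(s, ω) ↦ Function.update ω i s` is `μ` by
  `Measure.eq_infinitePi` (the preimage of a box `Set.pi I t` is the product of `t i` (or everything,
  if `i ∉ I`) and the box `Set.pi (I \ {i}) t`), then `lintegral` over a finite type
  (`Measure.prod_apply`, `lintegral_fintype`, `PMF.toMeasure_apply_singleton`).
* `NS μ Av X` is the probability that no point of `X` reaches `T`. `NS_rec`: for `y ∈ Av`,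
  `NS Av (insert y X) ≤ ∑ s, (p s).toReal * NS (Av \ {y}) (X ∪ step y '' s)`: apply `resample` at `y`;
  by `rch_update_iff`, if no point of `insert y X` reaches `T` through `Av` for `update ω y s`, then
  no point of `X` reaches `T` through `Av \ {y}` for `ω`, and (because `y` reaches `{y}`) for
  `e ∈ s` the point `step y e` does not reach `T` through `Av \ {y}`.
-/

open Finset MeasureTheory

namespace NN

variable {V E : Type*} [Countable V] [Fintype E]

/-- the product measure -/
noncomputable def muP (V : Type*) {E : Type*} (p : PMF (Finset E)) : Measure (V → Finset E) :=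
  Measure.infinitePi fun _ : V => p.toMeasure

instance (p : PMF (Finset E)) : IsProbabilityMeasure (muP V p) := by
  unfold muP; infer_instance

/-- there is a path of at most `n` steps -/
def RchN (step : V → E → V) (Av T : Set V) (ω : V → Finset E) : ℕ → V → Prop
  | 0, x => x ∈ T
  | n + 1, x => x ∈ T ∨ (x ∈ Av ∧ ∃ e, e ∈ ω x ∧ RchN step Av T ω n (step x e))

omit [Countable V] [Fintype E] in
theorem rch_iff_exists_rchN {step : V → E → V} {Av T : Set V} {ω : V → Finset E} {x : V} :
    Rch step Av T ω x ↔ ∃ n, RchN step Av T ω n x := by
  constructor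
  · intro h
    induction h with
    | hit h => exact ⟨0, h⟩
    | @go x e h1 h2 _ ih =>
      obtain ⟨n, hn⟩ := ih
      exact ⟨n + 1, .inr ⟨h1, e, h2, hn⟩⟩
  · rintro ⟨n, hn⟩
    induction n generalizing x with
    | zero => exact .hit hn
    | succ n ih =>
      rcases hn with h | ⟨h1, e, h2, h3⟩
      · exact .hit h
      · exact .go h1 h2 (ih h3)

omit [Countable V] in
theorem measurableSet_rchN (step : V → E → V) (Av T : Set V) (n : ℕ) (x : V) :
    MeasurableSet {ω : V → Finset E | RchN step Av T ω n x} := by
  induction n generalizing x with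
  | zero => exact MeasurableSet.const _
  | succ n ih =>
    have h1 : {ω : V → Finset E | RchN step Av T ω (n + 1) x} =
        {_ω : V → Finset E | x ∈ T} ∪ ({_ω : V → Finset E | x ∈ Av} ∩
          ⋃ e, ({ω : V → Finset E | e ∈ ω x} ∩ {ω | RchN step Av T ω n (step x e)})) := by
      ext ω
      simp [RchN]
    rw [h1]
    refine (MeasurableSet.const _).union ((MeasurableSet.const _).inter ?_)
    refine MeasurableSet.iUnion fun e => MeasurableSet.inter ?_ (ih _)
    have hm : Measurable fun ω : V → Finset E => ω x := measurable_pi_apply x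
    exact hm (measurableSet_mem_finset e)

theorem measurableSet_rch (step : V → E → V) (Av T : Set V) (x : V) :
    MeasurableSet {ω : V → Finset E | Rch step Av T ω x} := by
  have h1 : {ω : V → Finset E | Rch step Av T ω x} = ⋃ n, {ω | RchN step Av T ω n x} := by
    ext ω
    simp [rch_iff_exists_rchN]
  rw [h1]
  exact MeasurableSet.iUnion fun n => measurableSet_rchN step Av T n x

omit [Countable V] in
theorem measurable_upd [DecidableEq V] (i : V) :
    Measurable fun q : Finset E × (V → Finset E) => Function.update q.2 i q.1 := by
  refine measurable_pi_lambda _ fun j => ?_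
  by_cases h : j = i
  · subst h
    simp only [Function.update_self]
    exact measurable_fst
  · simp only [Function.update_of_ne h]
    exact (measurable_pi_apply j).comp measurable_snd

omit [Countable V] in
theorem map_upd [DecidableEq V] (p : PMF (Finset E)) (i : V) :
    (p.toMeasure.prod (muP V p)).map (fun q => Function.update q.2 i q.1) = muP V p := by
  refine Measure.eq_infinitePi _ fun I t ht => ?_
  rw [Measure.map_apply (measurable_upd i) (MeasurableSet.pi I.countable_toSet fun j _ => ht j)]
  by_cases hi : i ∈ I
  · have h1 : (fun q : Finset E × (V → Finset E) => Function.update q.2 i q.1) ⁻¹' Set.pi I t =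
        t i ×ˢ Set.pi (I.erase i : Finset V) t := by
      ext q
      simp only [Set.mem_preimage, Set.mem_pi, Finset.mem_coe, Set.mem_prod, Finset.mem_erase]
      constructor
      · intro h
        refine ⟨by simpa using h i hi, fun j hj => ?_⟩
        have := h j hj.2
        rwa [Function.update_of_ne hj.1] at this
      · rintro ⟨h2, h3⟩ j hj
        by_cases hji : j = i
        · subst hji
          simpa using h2
        · rw [Function.update_of_ne hji]
          exact h3 j ⟨hji, hj⟩
    rw [h1, Measure.prod_prod, muP, Measure.infinitePi_pi _ fun j _ => ht j]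
    exact Finset.mul_prod_erase I (fun j => p.toMeasure (t j)) hi
  · have h1 : (fun q : Finset E × (V → Finset E) => Function.update q.2 i q.1) ⁻¹' Set.pi I t =
        Set.univ ×ˢ Set.pi (I : Finset V) t := by
      ext q
      simp only [Set.mem_preimage, Set.mem_pi, Finset.mem_coe, Set.mem_prod, Set.mem_univ,
        true_and]
      refine forall₂_congr fun j hj => ?_
      rw [Function.update_of_ne]
      rintro rfl
      exact hi hj
    rw [h1, Measure.prod_prod, muP, Measure.infinitePi_pi _ fun j _ => ht j, measure_univ,
      one_mul]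

theorem resample [DecidableEq V] (p : PMF (Finset E)) {A : Set (V → Finset E)}
    (hA : MeasurableSet A) (i : V) :
    (muP V p).real A = ∑ s, (p s).toReal * (muP V p).real {ω | Function.update ω i s ∈ A} := by
  have h1 : muP V p A = ∑ s, p s * muP V p {ω | Function.update ω i s ∈ A} := by
    conv_lhs => rw [← map_upd p i]
    rw [Measure.map_apply (measurable_upd i) hA, Measure.prod_apply (measurable_upd i hA),
      lintegral_fintype]
    refine Finset.sum_congr rfl fun s _ => ?_
    rw [PMF.toMeasure_apply_singleton _ _ (measurableSet_singleton s), mul_comm]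
    rfl
  rw [Measure.real, h1, ENNReal.toReal_sum fun s _ =>
    ENNReal.mul_ne_top (p.apply_ne_top s) (measure_ne_top _ _)]
  exact Finset.sum_congr rfl fun s _ => ENNReal.toReal_mul

/-- probability that no point of `X` reaches `T` through `Av` -/
noncomputable def NS (p : PMF (Finset E)) (step : V → E → V) (T Av X : Set V) : ℝ :=
  (muP V p).real {ω | ∀ x ∈ X, ¬ Rch step Av T ω x}

theorem measurableSet_NS (step : V → E → V) (T Av X : Set V) :
    MeasurableSet {ω : V → Finset E | ∀ x ∈ X, ¬ Rch step Av T ω x} := by
  have h1 : {ω : V → Finset E | ∀ x ∈ X, ¬ Rch step Av T ω x} =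
      ⋂ x, ⋂ (_ : x ∈ X), {ω : V → Finset E | Rch step Av T ω x}ᶜ := by
    ext ω
    simp
  rw [h1]
  exact MeasurableSet.iInter fun x => MeasurableSet.iInter fun _ =>
    (measurableSet_rch step Av T x).compl

theorem NS_anti (p : PMF (Finset E)) {step : V → E → V} {T Av Av' X X' : Set V} (hA : Av ⊆ Av')
    (hX : X ⊆ X') : NS p step T Av' X' ≤ NS p step T Av X :=
  measureReal_mono fun _ h x hx hr => h x (hX hx) (rch_mono hA subset_rfl hr)

theorem NS_le_one (p : PMF (Finset E)) {step : V → E → V} {T Av X : Set V} :
    NS p step T Av X ≤ 1 :=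
  measureReal_le_one

theorem NS_eq_zero (p : PMF (Finset E)) {step : V → E → V} {T Av X : Set V} {x : V}
    (hx : x ∈ X) (hT : x ∈ T) : NS p step T Av X = 0 := by
  have h1 : {ω : V → Finset E | ∀ x ∈ X, ¬ Rch step Av T ω x} = ∅ := by
    ext ω
    simp only [Set.mem_ofPred_eq, Set.mem_empty_iff_false, iff_false]
    exact fun h => h x hx (.hit hT)
  rw [NS, h1, measureReal_empty]

theorem NS_rec (p : PMF (Finset E)) {step : V → E → V} {T Av X : Set V} {y : V}
    (hy : y ∈ Av) :
    NS p step T Av (insert y X) ≤
      ∑ s, (p s).toReal * NS p step T (Av \ {y}) (X ∪ step y '' s) := by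
  classical
  rw [NS, resample p (measurableSet_NS step T Av (insert y X)) y]
  refine Finset.sum_le_sum fun s _ => mul_le_mul_of_nonneg_left ?_ ENNReal.toReal_nonneg
  refine measureReal_mono fun ω h x hx hr => ?_
  have h2 : ∀ x ∈ insert y X, ¬ Rch step Av T (Function.update ω y s) x := h
  rcases hx with hx | ⟨e, he, rfl⟩
  · exact h2 x (Set.mem_insert_of_mem _ hx) ((rch_update_iff y s).2 (.inl hr))
  · exact h2 y (Set.mem_insert _ _)
      ((rch_update_iff y s).2 (.inr ⟨hy, .hit rfl, e, he, hr⟩))

end NN
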