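import Pool.Agent.H87.NN.Num

/-!
# Numerical part, `d ≥ 41` (module NN-NUM2)

`m = ⌈d/4⌉`, `d = 4m - r` with `r ∈ {0,1,2,3}`, `m ≥ 11`. `j = 0` is `recu_zero`. Let `1 ≤ j ≤ 4`.

Sequences: `h 0 = 1 - j m / (2d)`, `b t = 1` if `h t ≤ 1/5` and `b t = (h t)²` otherwise,
`h (t+1) = h t - (1 - b t) / d`, `a t = (h t)²`. Then `1/5 - 1/d ≤ h t ≤ 1` (the sequence stops once
it is `≤ 1/5`), and `SS d m j b t = 2 d h t` exactly.

`Recu.ha` for `t ≤ d - 2m`: with `D = 2d`, `S = SS`, `Q = QQ`: `(S² - Q)/(D (D-1)) ≤ (S/D)²` is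
equivalent to `S² ≤ D Q`, which is Cauchy-Schwarz for `D` numbers: `j m` zeros, twice each `b u`,
`u < t`, and `D - j m - 2 t ≥ 0` ones (`S = ∑`, `Q = ∑` of squares). In Lean: `n₁ = D - j m - 2 t`,
`S = n₁ + 2 ∑ b u`, `Q = n₁ + 2 ∑ (b u)²`, `(n₁ + 2 ∑ b)² ≤ (n₁ + 2 t) (n₁ + 2 ∑ b²)`, from
`(∑ b)² ≤ t ∑ b²` and `2 ∑ b ≤ t + ∑ b²`.
`Recu.hb`: `(S - (1-a))² - (Q - (1 - a²)) = S² - Q - 2 (1-a) (S - 1)`, `a ≤ 1`,
`S = 2 d h t ≥ 2 d /5 - 2 ≥ 1`, so the quotient is `≤ (S² - Q)/(D (D-1)) ≤ a t ≤ b t`.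

Final value: `h (d-2m)` is `≤ 1/5` (then `a ≤ .04 < .05625`, all thresholds are fine), or all
`h t > 1/5` for `t ≤ d - 2m` (`h` is nonincreasing) and then with `Y t = (1 + h t)/(1 - h t)`:
`Y (t+1) = Y t * (d - 1 + h t)/(d + 1 + h t) ≤ Y t * d/(d+2)`, so
`Y (d-2m) ≤ (4 d - j m)/(j m) * (d/(d+2))^(d-2m)`. Now
`(d/(d+2))^(d-2m) ≤ exp (- 2 (d-2m)/(d+2)) = exp (-1 + (r+2)/(4m-r+2)) ≤
e⁻¹ * (4m-r+2)/(4m-2r)` (`1 - x ≤ exp (-x)` twice), and for `m ≥ 11` (rational inequalities for each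
`r ∈ {0,1,2,3}`, `(4 d - j m)/(j m) = (16 - j)/j - 4 r/(j m)`):
`(4 d - j m)/(j m) * (4m-r+2)/(4m-2r) ≤ 15.8, 7.4, 4.6, 3.2` for `j = 1, 2, 3, 4`; `e⁻¹ < .36788`
(`Real.exp_one_gt_d9`). So `Y ≤ 5.82, 2.73, 1.70, 1.18` and `h = (Y-1)/(Y+1)` gives
`h² ≤ .4995, .216, .068, .007`, below `.5, .24166, .1125, .05625`.
(`5.82`: `15.8 * .36788 = 5.8126`, `h² ≤ (4.8126/6.8126)² = .49904`.)
-/

open Finset

namespace NN

/-- the sequence `h` -/
noncomputable def hs (d m j : ℕ) : ℕ → ℝ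
  | 0 => 1 - j * m / (2 * d)
  | t + 1 => hs d m j t - (1 - (if hs d m j t ≤ 1 / 5 then 1 else hs d m j t ^ 2)) / d

/-- the sequence `b` -/
noncomputable def bs (d m j t : ℕ) : ℝ := if hs d m j t ≤ 1 / 5 then 1 else hs d m j t ^ 2

theorem hs_succ (d m j t : ℕ) : hs d m j (t + 1) = hs d m j t - (1 - bs d m j t) / d := rfl

theorem bs_nonneg (d m j t : ℕ) : 0 ≤ bs d m j t := by
  unfold bs
  split_ifs
  · exact zero_le_one
  · positivity

theorem SS_eq {d m j : ℕ} (hd : 0 < (d : ℝ)) (t : ℕ) :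
    SS d m j (bs d m j) t = 2 * d * hs d m j t := by
  induction t with
  | zero =>
    simp only [SS, hs, Finset.range_zero, Finset.sum_empty, mul_zero, sub_zero]
    field_simp
  | succ t ih =>
    rw [hs_succ, mul_sub, ← ih]
    simp only [SS, Finset.sum_range_succ]
    field_simp
    ring

theorem hs_bounds {d m j : ℕ} (hd : 41 ≤ (d : ℝ)) (hj : (j : ℝ) ≤ 4) (hm : 4 * (m : ℝ) ≤ d + 3)
    (t : ℕ) : 1 / 5 - 1 / d ≤ hs d m j t ∧ hs d m j t ≤ 1 := by
  have hd0 : (0 : ℝ) < d := by linarith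
  induction t with
  | zero =>
    have hm0 : (0 : ℝ) ≤ m := Nat.cast_nonneg m
    have hj0 : (0 : ℝ) ≤ j := Nat.cast_nonneg j
    have h1 : (j : ℝ) * m ≤ d + 3 := by nlinarith
    have h2 : (j : ℝ) * m / (2 * d) ≤ 3 / 5 := by
      rw [div_le_iff₀ (by positivity)]
      linarith
    have h3 : (0 : ℝ) ≤ j * m / (2 * d) := by positivity
    have h4 : (0 : ℝ) < 1 / d := by positivity
    simp only [hs]
    constructor <;> linarith
  | succ t ih =>
    rw [hs_succ]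
    unfold bs
    have h4 : (0 : ℝ) < 1 / d := by positivity
    obtain ⟨ih1, ih2⟩ := ih
    split_ifs with h
    · simpa using And.intro ih1 ih2
    · push Not at h
      have h5 : (1 - hs d m j t ^ 2) / d ≤ 1 / d := by
        gcongr
        nlinarith
      have h6 : 0 ≤ (1 - hs d m j t ^ 2) / d := by
        refine div_nonneg ?_ hd0.le
        nlinarith
      constructor <;> linarith

theorem bs_le_one {d m j : ℕ} (hd : 41 ≤ (d : ℝ)) (hj : (j : ℝ) ≤ 4) (hm : 4 * (m : ℝ) ≤ d + 3)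
    (t : ℕ) : bs d m j t ≤ 1 := by
  have h := hs_bounds hd hj hm t
  unfold bs
  split_ifs with h1
  · exact le_rfl
  · push Not at h1
    nlinarith

theorem hs_succ_le {d m j : ℕ} (hd : 41 ≤ (d : ℝ)) (hj : (j : ℝ) ≤ 4) (hm : 4 * (m : ℝ) ≤ d + 3)
    (t : ℕ) : hs d m j (t + 1) ≤ hs d m j t := by
  have h := bs_le_one hd hj hm t
  rw [hs_succ]
  have : 0 ≤ (1 - bs d m j t) / d := div_nonneg (by linarith) (Nat.cast_nonneg d)
  linarith

theorem as_le_bs {d m j : ℕ} (hd : 41 ≤ (d : ℝ)) (hj : (j : ℝ) ≤ 4) (hm : 4 * (m : ℝ) ≤ d + 3)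
    (t : ℕ) : hs d m j t ^ 2 ≤ bs d m j t := by
  have h := hs_bounds hd hj hm t
  have hd0 : (0 : ℝ) < d := by linarith
  have h4 : (1 : ℝ) / d ≤ 1 / 41 := by
    gcongr
  unfold bs
  split_ifs with h1
  · nlinarith
  · exact le_rfl

/-- Cauchy-Schwarz -/
theorem SS_sq_le {d m j t : ℕ} (hj : j ≤ 4) (hm : 2 * m ≤ d) (ht : t ≤ d - 2 * m) (b : ℕ → ℝ) :
    SS d m j b t ^ 2 ≤ 2 * d * QQ d m j b t := by
  have hn : (0 : ℝ) ≤ 2 * d - j * m - 2 * t := by
    have h1 : j * m + 2 * t ≤ 2 * d := by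
      have h2 : j * m ≤ 4 * m := Nat.mul_le_mul_right m hj
      omega
    have h3 : ((j * m + 2 * t : ℕ) : ℝ) ≤ ((2 * d : ℕ) : ℝ) := by exact_mod_cast h1
    push_cast at h3
    linarith
  have hS : SS d m j b t = (2 * d - j * m - 2 * t) + 2 * ∑ u ∈ range t, b u := by
    simp only [SS, Finset.sum_sub_distrib, Finset.sum_const, Finset.card_range, nsmul_eq_mul]
    ring
  have hQ : QQ d m j b t = (2 * d - j * m - 2 * t) + 2 * ∑ u ∈ range t, b u ^ 2 := by
    simp only [QQ, Finset.sum_sub_distrib, Finset.sum_const, Finset.card_range, nsmul_eq_mul]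
    ring
  have h1 : (∑ u ∈ range t, b u) ^ 2 ≤ t * ∑ u ∈ range t, b u ^ 2 := by
    have := sq_sum_le_card_mul_sum_sq (s := range t) (f := b)
    simpa using this
  have h2 : 2 * ∑ u ∈ range t, b u ≤ t + ∑ u ∈ range t, b u ^ 2 := by
    have h3 : ∑ u ∈ range t, 2 * b u ≤ ∑ u ∈ range t, (1 + b u ^ 2) :=
      Finset.sum_le_sum fun u _ => by nlinarith [sq_nonneg (b u - 1)]
    simpa [Finset.mul_sum, Finset.sum_add_distrib] using h3
  have h3 : 0 ≤ ∑ u ∈ range t, b u ^ 2 := Finset.sum_nonneg fun u _ => sq_nonneg _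
  rw [hS, hQ]
  generalize (∑ u ∈ range t, b u) = B₁ at *
  generalize (∑ u ∈ range t, b u ^ 2) = B₂ at *
  have hjm : (0 : ℝ) ≤ j * m := by positivity
  have ht0 : (0 : ℝ) ≤ t := Nat.cast_nonneg t
  generalize hn₁ : (2 * d - j * m - 2 * t : ℝ) = n₁ at *
  have h4 : 2 * (d : ℝ) = n₁ + 2 * t + j * m := by linarith
  rw [h4]
  have h5 : (n₁ + 2 * B₁) ^ 2 ≤ (n₁ + 2 * t) * (n₁ + 2 * B₂) := by nlinarith
  have h6 : 0 ≤ (j * m : ℝ) * (n₁ + 2 * B₂) := by positivity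
  nlinarith

theorem recu_large {d m j : ℕ} (hd : 41 ≤ d) (hj : j ≤ 4) (hm : 4 * m ≤ d + 3) :
    Recu d m j (fun t => hs d m j t ^ 2) (bs d m j) := by
  have hd' : 41 ≤ (d : ℝ) := by exact_mod_cast hd
  have hj' : (j : ℝ) ≤ 4 := by exact_mod_cast hj
  have hm' : 4 * (m : ℝ) ≤ d + 3 := by exact_mod_cast hm
  have hd0 : (0 : ℝ) < d := by linarith
  have hA : ∀ t ≤ d - 2 * m, (SS d m j (bs d m j) t ^ 2 - QQ d m j (bs d m j) t) /
      (2 * d * (2 * d - 1)) ≤ hs d m j t ^ 2 := by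
    intro t ht
    have h1 := SS_sq_le hj (by omega) ht (bs d m j)
    have h2 := SS_eq (m := m) (j := j) hd0 t
    rw [div_le_iff₀ (by nlinarith)]
    rw [h2] at h1 ⊢
    have h3 : 2 * d * hs d m j t ^ 2 ≤ QQ d m j (bs d m j) t := by
      have h4 : 2 * d * (2 * d * hs d m j t ^ 2) ≤ 2 * d * QQ d m j (bs d m j) t := by
        nlinarith
      exact le_of_mul_le_mul_left h4 (by positivity)
    nlinarith
  refine ⟨fun t => sq_nonneg _, fun t => bs_nonneg d m j t, hA, fun t ht => ?_⟩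
  have h1 := hA t ht.le
  have h2 := SS_eq (m := m) (j := j) hd0 t
  have h3 := hs_bounds hd' hj' hm' t
  have h4 := as_le_bs hd' hj' hm' t
  refine le_trans ?_ (h1.trans h4)
  have h5 : (0 : ℝ) < 2 * d * (2 * d - 1) := by nlinarith
  rw [div_le_div_iff_of_pos_right h5]
  have h6 : 1 ≤ SS d m j (bs d m j) t := by
    rw [h2]
    have h7 : 2 * (d : ℝ) * (1 / 5 - 1 / d) ≤ 2 * d * hs d m j t :=
      mul_le_mul_of_nonneg_left h3.1 (by positivity)
    have h8 : 2 * (d : ℝ) * (1 / 5 - 1 / d) = 2 * d / 5 - 2 := by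
      field_simp
    linarith
  have h9 : (1 : ℝ) / d ≤ 1 / 41 := by gcongr
  have h10 : hs d m j t ^ 2 ≤ 1 := by nlinarith
  nlinarith

/-- the final estimate in terms of `Y` -/
theorem final_Y {d m j : ℕ} (hd : 41 ≤ d) (hj : j ≤ 4) (hj1 : 1 ≤ j) (hm : 4 * m ≤ d + 3)
    (hm1 : 1 ≤ m) (t : ℕ) (ht : 1 / 5 < hs d m j t) :
    hs d m j t < 1 ∧ (1 + hs d m j t) / (1 - hs d m j t) ≤
      (4 * d - j * m) / (j * m) * ((d : ℝ) / (d + 2)) ^ t := by
  have hd' : 41 ≤ (d : ℝ) := by exact_mod_cast hd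
  have hj' : (j : ℝ) ≤ 4 := by exact_mod_cast hj
  have hm' : 4 * (m : ℝ) ≤ d + 3 := by exact_mod_cast hm
  have hj1' : (1 : ℝ) ≤ j := by exact_mod_cast hj1
  have hm1' : (1 : ℝ) ≤ m := by exact_mod_cast hm1
  have hd0 : (0 : ℝ) < d := by linarith
  have hjm : (0 : ℝ) < j * m := by positivity
  induction t with
  | zero =>
    have h1 : (0 : ℝ) < j * m / (2 * d) := by positivity
    simp only [hs] at ht ⊢
    refine ⟨by linarith, ?_⟩
    rw [pow_zero, mul_one]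
    refine le_of_eq ?_
    have h2 : (1 - (1 - (j : ℝ) * m / (2 * d))) = j * m / (2 * d) := by ring
    rw [h2]
    field_simp
    ring
  | succ t ih =>
    have h1 := hs_succ_le hd' hj' hm' t
    obtain ⟨h2, h3⟩ := ih (ht.trans_le h1)
    refine ⟨h1.trans_lt h2, ?_⟩
    have hb : bs d m j t = hs d m j t ^ 2 := by
      unfold bs
      rw [if_neg (not_le.2 (ht.trans_le h1))]
    have h0 : 0 < hs d m j t := by linarith
    rw [hs_succ, hb]
    generalize hs d m j t = x at *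
    have e1 : 1 + (x - (1 - x ^ 2) / d) = (1 + x) * (d - 1 + x) / d := by
      field_simp
      ring
    have e2 : 1 - (x - (1 - x ^ 2) / d) = (1 - x) * (d + 1 + x) / d := by
      field_simp
      ring
    rw [e1, e2, pow_succ, ← mul_assoc]
    have e3 : (1 + x) * (d - 1 + x) / d / ((1 - x) * (d + 1 + x) / d) =
        (1 + x) / (1 - x) * ((d - 1 + x) / (d + 1 + x)) := by
      have : (1 - x) ≠ 0 := by linarith
      have : (d + 1 + x : ℝ) ≠ 0 := by linarith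
      field_simp
    rw [e3]
    have h4 : ((d : ℝ) - 1 + x) / (d + 1 + x) ≤ d / (d + 2) := by
      rw [div_le_div_iff₀ (by linarith) (by linarith)]
      nlinarith
    have h5 : (0 : ℝ) ≤ (d - 1 + x) / (d + 1 + x) := div_nonneg (by linarith) (by linarith)
    have h6 : 0 ≤ (1 + x) / (1 - x) := div_nonneg (by linarith) (by linarith)
    exact mul_le_mul h3 h4 h5 (h6.trans h3)

/-- the power -/
theorem pow_bound {d m r : ℕ} (hd : 41 ≤ d) (hr : r ≤ 3) (hm : 4 * m = d + r) :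
    ((d : ℝ) / (d + 2)) ^ (d - 2 * m) ≤ 0.36788 * ((d + 2) / (d - r)) := by
  have hd' : 41 ≤ (d : ℝ) := by exact_mod_cast hd
  have hr' : (r : ℝ) ≤ 3 := by exact_mod_cast hr
  have hr0 : (0 : ℝ) ≤ r := Nat.cast_nonneg r
  have hm' : 4 * (m : ℝ) = d + r := by exact_mod_cast hm
  have h1 : (d : ℝ) / (d + 2) ≤ Real.exp (-(2 / (d + 2))) := by
    have := Real.add_one_le_exp (-(2 / ((d : ℝ) + 2)))
    have e : (d : ℝ) / (d + 2) = -(2 / (d + 2)) + 1 := by
      field_simp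
      ring
    rw [e]
    exact this
  have h2 : ((d : ℝ) / (d + 2)) ^ (d - 2 * m) ≤ Real.exp (-(2 / (d + 2))) ^ (d - 2 * m) :=
    pow_le_pow_left₀ (by positivity) h1 _
  rw [← Real.exp_nat_mul] at h2
  have h3 : ((d - 2 * m : ℕ) : ℝ) = d - 2 * m := by
    rw [Nat.cast_sub (by omega)]
    push_cast
    ring
  have h4 : ((d - 2 * m : ℕ) : ℝ) * -(2 / ((d : ℝ) + 2)) = -1 + (r + 2) / (d + 2) := by
    rw [h3]
    field_simp
    linarith
  rw [h4, Real.exp_add] at h2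
  have h5 : Real.exp ((r + 2) / ((d : ℝ) + 2)) ≤ (d + 2) / (d - r) := by
    have h6 := Real.add_one_le_exp (-((r + 2) / ((d : ℝ) + 2)))
    have e : -((r + 2) / ((d : ℝ) + 2)) + 1 = (d - r) / (d + 2) := by
      field_simp
      ring
    rw [e, Real.exp_neg] at h6
    have h7 := Real.exp_pos ((r + 2) / ((d : ℝ) + 2))
    have h8 : (0 : ℝ) < (d - r) / (d + 2) := div_pos (by linarith) (by linarith)
    have h9 := inv_anti₀ h8 h6
    rw [inv_inv, inv_div] at h9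
    exact h9
  have h6 : Real.exp (-1) ≤ 0.36788 := by
    have h7 := Real.exp_one_gt_d9
    rw [Real.exp_neg]
    rw [inv_le_comm₀ (Real.exp_pos 1) (by norm_num)]
    refine le_trans ?_ h7.le
    norm_num
  refine h2.trans ?_
  exact mul_le_mul h6 h5 (Real.exp_pos _).le (by norm_num)

/-- the constants -/
noncomputable def cst : ℕ → ℝ
  | 1 => 15.8
  | 2 => 7.4
  | 3 => 4.6
  | _ => 3.2

theorem rat_bound {d m r j : ℕ} (hr : r ≤ 3) (hm : 4 * m = d + r) (hm11 : 11 ≤ m) (hj : j ≤ 4)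
    (hj1 : 1 ≤ j) :
    (4 * d - j * m) / (j * m) * (((d : ℝ) + 2) / (d - r)) ≤ cst j := by
  obtain ⟨x, rfl⟩ := Nat.exists_eq_add_of_le hm11
  have hd : (d : ℝ) = 4 * (11 + x) - r := by
    have : ((4 * (11 + x) : ℕ) : ℝ) = ((d + r : ℕ) : ℝ) := by exact_mod_cast hm
    push_cast at this
    linarith
  have hx : (0 : ℝ) ≤ x := Nat.cast_nonneg x
  rw [hd]
  push_cast
  have hr' : (r : ℝ) ≤ 3 := by exact_mod_cast hr
  rw [div_mul_div_comm, div_le_iff₀ (by
    have : (1 : ℝ) ≤ j := by exact_mod_cast hj1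
    have h1 : (0 : ℝ) < j * (11 + x) := by positivity
    have h2 : (0 : ℝ) < 4 * (11 + x) - r - r := by linarith
    positivity)]
  interval_cases j <;> interval_cases r <;> simp only [cst] <;> push_cast <;> nlinarith [sq_nonneg (x : ℝ)]

theorem num_large (d : ℕ) (h : 41 ≤ d) : NumOK d := by
  obtain ⟨m, r, hr, hm⟩ : ∃ m r : ℕ, r ≤ 3 ∧ 4 * m = d + r :=
    ⟨(d + 3) / 4, 4 * ((d + 3) / 4) - d, by omega, by omega⟩
  have hm11 : 11 ≤ m := by omega
  have hd' : 41 ≤ (d : ℝ) := by exact_mod_cast h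
  have hm' : 4 * (m : ℝ) ≤ d + 3 := by
    have : 4 * m ≤ d + 3 := by omega
    exact_mod_cast this
  refine ⟨m, by omega, by omega, fun j t => if j = 0 then 1 else hs d m j t ^ 2,
    fun j t => if j = 0 then 1 else bs d m j t, ?_, ?_⟩
  · intro j hj
    by_cases hj0 : j = 0
    · subst hj0
      simpa using recu_zero (m := m) (by omega : 1 ≤ d)
    · simpa [hj0] using recu_large (m := m) h hj (by omega)
  · intro j hj
    by_cases hj0 : j = 0
    · subst hj0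
      simp [qf]
    have hj1 : 1 ≤ j := by omega
    have hj' : (j : ℝ) ≤ 4 := by exact_mod_cast hj
    simp only [hj0, if_false]
    have hb := hs_bounds hd' hj' hm' (d - 2 * m)
    have h4 : (1 : ℝ) / d ≤ 1 / 41 := by gcongr
    rcases le_or_gt (hs d m j (d - 2 * m)) (1 / 5) with h5 | h5
    · have h6 : hs d m j (d - 2 * m) ^ 2 ≤ 1 / 25 := by nlinarith
      refine h6.trans ?_
      interval_cases j <;> norm_num [qf]
    · obtain ⟨h6, h7⟩ := final_Y h hj hj1 (by omega : 4 * m ≤ d + 3) (by omega) (d - 2 * m) h5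
      have h8 := pow_bound h hr hm
      have h9 := rat_bound hr hm hm11 hj hj1
      have h10 : (0 : ℝ) ≤ (4 * d - j * m) / (j * m) := by
        refine div_nonneg ?_ (by positivity)
        nlinarith [Nat.cast_nonneg (α := ℝ) m]
      have h11 : (1 + hs d m j (d - 2 * m)) / (1 - hs d m j (d - 2 * m)) ≤ 0.36788 * cst j := by
        refine h7.trans ?_
        calc (4 * d - j * m) / (j * m) * ((d : ℝ) / (d + 2)) ^ (d - 2 * m)
            ≤ (4 * d - j * m) / (j * m) * (0.36788 * ((d + 2) / (d - r))) :=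
              mul_le_mul_of_nonneg_left h8 h10
          _ = 0.36788 * ((4 * d - j * m) / (j * m) * (((d : ℝ) + 2) / (d - r))) := by ring
          _ ≤ 0.36788 * cst j := by gcongr
      rw [div_le_iff₀ (by linarith)] at h11
      generalize hs d m j (d - 2 * m) = x at *
      interval_cases j <;> simp only [cst] at h11 <;> norm_num [qf] <;> nlinarith

end NN
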