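import Pool.Agent.H87.NN.Num

/-!
# Numerical part, `2 ≤ d ≤ 40` (module NN-NUM1)

Take `m = ⌈d/4⌉ = (d+3)/4`. Compute. With `D = 2d`, start with
`S = Q = D - j m`, and for `t = 0, 1, …, f = d - 2m`: `a t = (S² - Q) / (D (D-1))`,
`b t = ((S - (1 - a t))² - (Q - (1 - a t ²))) / (D (D-1))`, then `S -= 2 (1 - b t)`,
`Q -= 2 (1 - b t ²)` (so `S = SS d m j b t`, `Q = QQ d m j b t`); rounding `a t` and `b t` upwards to
multiples of `10⁻⁵` at each step keeps the numbers small (the inequalities of `Recu` only ask for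
upper bounds; checked numerically with this rounding for all `2 ≤ d ≤ 40`). The values:
`a 1 (d-2m) ≤ .4785 < .5` (for `d = 2` exactly `.5`), `a 2 ≤ .192 < .2416`, `a 3 ≤ .053 < .1125`,
`a 4 ≤ .0054 < .05625`; for `d = 2`: `a j 0 = (4-j)(3-j)/12`.
Suggestion: an integer valued recursion (numerators over `10^5`, ceiling division) proved to satisfy
`Recu` in general, then `decide` (kernel) for the finitely many `(d, j)`; the sequences after the
index `d - 2m` do not matter. `j = 0` is `recu_zero`.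
-/

open Finset

namespace NN

/-- ceiling division, at least `0` -/
private def cdv (x y : ℤ) : ℤ := max 0 (-((-x) / y))

private theorem le_cdv {x y : ℤ} (hy : 0 < y) : x ≤ cdv x y * y := by
  have h1 : (-x) / y * y ≤ -x := Int.ediv_mul_le _ hy.ne'
  have h2 : -((-x) / y) ≤ cdv x y := le_max_right _ _
  nlinarith

private theorem cdv_nonneg (x y : ℤ) : 0 ≤ cdv x y := le_max_left _ _

/-- numerator of `a` -/
private def nA (K D : ℤ) (p : ℤ × ℤ) : ℤ := cdv (p.1 ^ 2 - p.2) (K * (D * (D - 1)))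

/-- numerator of `b` -/
private def nB (K D : ℤ) (p : ℤ × ℤ) : ℤ :=
  cdv ((p.1 - (K - nA K D p)) ^ 2 - (p.2 - (K ^ 2 - nA K D p ^ 2))) (K * (D * (D - 1)))

/-- numerators of `S` and `Q` -/
private def nS (K D : ℤ) (p0 : ℤ × ℤ) : ℕ → ℤ × ℤ
  | 0 => p0
  | t + 1 => ((nS K D p0 t).1 - 2 * (K - nB K D (nS K D p0 t)),
      (nS K D p0 t).2 - 2 * (K ^ 2 - nB K D (nS K D p0 t) ^ 2))

private def thr : ℕ → ℤ
  | 1 => 50000
  | 2 => 24166
  | 3 => 11250
  | _ => 5625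

private theorem check : ∀ d : ℕ, d < 41 → 2 ≤ d → ∀ j : ℕ, j < 5 → 1 ≤ j →
    nA 100000 (2 * (d : ℤ)) (nS 100000 (2 * (d : ℤ))
      (100000 * (2 * (d : ℤ) - (j : ℤ) * (((d + 3) / 4 : ℕ) : ℤ)),
        100000 ^ 2 * (2 * (d : ℤ) - (j : ℤ) * (((d + 3) / 4 : ℕ) : ℤ))) (d - 2 * ((d + 3) / 4))) ≤
      thr j := by
  decide +kernel

private theorem SS_eq_nS {K : ℤ} (hK : 0 < K) (d m j : ℕ) (t : ℕ) :
    SS d m j (fun u => ((nB K (2 * (d : ℤ)) (nS K (2 * (d : ℤ))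
      (K * (2 * (d : ℤ) - (j : ℤ) * (m : ℤ)), K ^ 2 * (2 * (d : ℤ) - (j : ℤ) * (m : ℤ))) u) : ℤ) : ℝ)
        / K) t * K =
      ((nS K (2 * (d : ℤ)) (K * (2 * (d : ℤ) - (j : ℤ) * (m : ℤ)),
        K ^ 2 * (2 * (d : ℤ) - (j : ℤ) * (m : ℤ))) t).1 : ℝ) := by
  have hK' : (K : ℝ) ≠ 0 := by exact_mod_cast hK.ne'
  unfold SS
  induction t with
  | zero =>
    simp only [range_zero, sum_empty, nS]
    push_cast
    ring
  | succ t ih =>
    rw [sum_range_succ]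
    simp only [nS]
    push_cast
    rw [← ih]
    field_simp
    ring

private theorem QQ_eq_nS {K : ℤ} (hK : 0 < K) (d m j : ℕ) (t : ℕ) :
    QQ d m j (fun u => ((nB K (2 * (d : ℤ)) (nS K (2 * (d : ℤ))
      (K * (2 * (d : ℤ) - (j : ℤ) * (m : ℤ)), K ^ 2 * (2 * (d : ℤ) - (j : ℤ) * (m : ℤ))) u) : ℤ) : ℝ)
        / K) t * K ^ 2 =
      ((nS K (2 * (d : ℤ)) (K * (2 * (d : ℤ) - (j : ℤ) * (m : ℤ)),
        K ^ 2 * (2 * (d : ℤ) - (j : ℤ) * (m : ℤ))) t).2 : ℝ) := by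
  have hK' : (K : ℝ) ≠ 0 := by exact_mod_cast hK.ne'
  unfold QQ
  induction t with
  | zero =>
    simp only [range_zero, sum_empty, nS]
    push_cast
    ring
  | succ t ih =>
    rw [sum_range_succ]
    simp only [nS]
    push_cast
    rw [← ih]
    field_simp
    ring

private theorem real_step {k S Q s q A X : ℝ} (hk : 0 < k) (e1 : S * k = s) (e2 : Q * k ^ 2 = q)
    (h : s ^ 2 - q ≤ A * (k * X)) : S ^ 2 - Q ≤ A / k * X := by
  have h3 : (S ^ 2 - Q) * k ^ 2 ≤ (A / k * X) * k ^ 2 := by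
    calc (S ^ 2 - Q) * k ^ 2 = (S * k) ^ 2 - Q * k ^ 2 := by ring
      _ ≤ A * (k * X) := by rw [e1, e2]; exact h
      _ = (A / k * X) * k ^ 2 := by field_simp
  exact le_of_mul_le_mul_right h3 (by positivity)

private theorem real_step' {k S Q s q A B X : ℝ} (hk : 0 < k) (e1 : S * k = s)
    (e2 : Q * k ^ 2 = q) (h : (s - (k - A)) ^ 2 - (q - (k ^ 2 - A ^ 2)) ≤ B * (k * X)) :
    (S - (1 - A / k)) ^ 2 - (Q - (1 - (A / k) ^ 2)) ≤ B / k * X := by
  have h3 : ((S - (1 - A / k)) ^ 2 - (Q - (1 - (A / k) ^ 2))) * k ^ 2 ≤ (B / k * X) * k ^ 2 := by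
    calc ((S - (1 - A / k)) ^ 2 - (Q - (1 - (A / k) ^ 2))) * k ^ 2
        = (S * k - (k - A)) ^ 2 - (Q * k ^ 2 - (k ^ 2 - A ^ 2)) := by
          field_simp
      _ ≤ B * (k * X) := by rw [e1, e2]; exact h
      _ = (B / k * X) * k ^ 2 := by field_simp
  exact le_of_mul_le_mul_right h3 (by positivity)

/-- the rounded recursion satisfies `Recu` -/
private theorem recu_int {K : ℤ} (hK : 0 < K) {d : ℕ} (m j : ℕ) (hd : 1 ≤ d) :
    Recu d m j
      (fun u => ((nA K (2 * (d : ℤ)) (nS K (2 * (d : ℤ)) (K * (2 * (d : ℤ) - (j : ℤ) * (m : ℤ)),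
        K ^ 2 * (2 * (d : ℤ) - (j : ℤ) * (m : ℤ))) u) : ℤ) : ℝ) / K)
      (fun u => ((nB K (2 * (d : ℤ)) (nS K (2 * (d : ℤ)) (K * (2 * (d : ℤ) - (j : ℤ) * (m : ℤ)),
        K ^ 2 * (2 * (d : ℤ) - (j : ℤ) * (m : ℤ))) u) : ℤ) : ℝ) / K) := by
  have hK' : (0 : ℝ) < K := by exact_mod_cast hK
  have hd' : (1 : ℤ) ≤ d := by exact_mod_cast hd
  have hX : (0 : ℤ) < K * (2 * (d : ℤ) * (2 * (d : ℤ) - 1)) := by
    apply mul_pos hK
    nlinarith
  have hX' : (0 : ℝ) < 2 * d * (2 * d - 1) := by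
    have h1 : (1 : ℝ) ≤ d := by exact_mod_cast hd
    nlinarith
  refine ⟨fun t => ?_, fun t => ?_, fun t _ => ?_, fun t _ => ?_⟩
  · exact div_nonneg (by exact_mod_cast cdv_nonneg _ _) hK'.le
  · exact div_nonneg (by exact_mod_cast cdv_nonneg _ _) hK'.le
  · have e1 := SS_eq_nS hK d m j t
    have e2 := QQ_eq_nS hK d m j t
    rw [div_le_iff₀ hX']
    generalize SS d m j _ t = S at e1 ⊢
    generalize QQ d m j _ t = Q at e2 ⊢
    generalize nS K _ _ t = p at e1 e2 ⊢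
    have h1 : p.1 ^ 2 - p.2 ≤ nA K (2 * (d : ℤ)) p * (K * (2 * (d : ℤ) * (2 * (d : ℤ) - 1))) :=
      le_cdv hX
    generalize nA K _ p = A at h1 ⊢
    have h2' : (p.1 : ℝ) ^ 2 - p.2 ≤ A * (K * (2 * d * (2 * d - 1))) := by exact_mod_cast h1
    exact real_step hK' e1 e2 h2'
  · have e1 := SS_eq_nS hK d m j t
    have e2 := QQ_eq_nS hK d m j t
    rw [div_le_iff₀ hX']
    generalize SS d m j _ t = S at e1 ⊢
    generalize QQ d m j _ t = Q at e2 ⊢
    generalize nS K _ _ t = p at e1 e2 ⊢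
    have h1 : (p.1 - (K - nA K (2 * (d : ℤ)) p)) ^ 2 - (p.2 - (K ^ 2 - nA K (2 * (d : ℤ)) p ^ 2)) ≤
      nB K (2 * (d : ℤ)) p * (K * (2 * (d : ℤ) * (2 * (d : ℤ) - 1))) := le_cdv hX
    generalize nB K _ p = B at h1 ⊢
    generalize nA K _ p = A at h1 ⊢
    have h2 : ((p.1 : ℝ) - (K - A)) ^ 2 - (p.2 - (K ^ 2 - A ^ 2)) ≤
      B * (K * (2 * d * (2 * d - 1))) := by exact_mod_cast h1
    exact real_step' hK' e1 e2 h2

theorem num_small (d : ℕ) (h2 : 2 ≤ d) (h40 : d ≤ 40) : NumOK d := by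
  refine ⟨(d + 3) / 4, by omega, by omega,
    fun j => if j = 0 then fun _ => 1 else
      (fun u => ((nA 100000 (2 * (d : ℤ)) (nS 100000 (2 * (d : ℤ))
        (100000 * (2 * (d : ℤ) - (j : ℤ) * (((d + 3) / 4 : ℕ) : ℤ)),
        100000 ^ 2 * (2 * (d : ℤ) - (j : ℤ) * (((d + 3) / 4 : ℕ) : ℤ))) u) : ℤ) : ℝ) /
          ((100000 : ℤ) : ℝ)),
    fun j => if j = 0 then fun _ => 1 else
      (fun u => ((nB 100000 (2 * (d : ℤ)) (nS 100000 (2 * (d : ℤ))
        (100000 * (2 * (d : ℤ) - (j : ℤ) * (((d + 3) / 4 : ℕ) : ℤ)),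
        100000 ^ 2 * (2 * (d : ℤ) - (j : ℤ) * (((d + 3) / 4 : ℕ) : ℤ))) u) : ℤ) : ℝ) /
          ((100000 : ℤ) : ℝ)), ?_, ?_⟩
  · intro j _
    beta_reduce
    by_cases hj : j = 0
    · rw [if_pos hj, if_pos hj, hj]
      exact recu_zero (by omega)
    · rw [if_neg hj, if_neg hj]
      exact recu_int (by norm_num) _ _ (by omega)
  · intro j hj4
    beta_reduce
    by_cases hj : j = 0
    · rw [if_pos hj, hj]
      simp [qf]
    · rw [if_neg hj]
      have h1 := check d (by omega) h2 j (by omega) (by omega)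
      generalize nA 100000 _ _ = A at h1 ⊢
      have h3 : (A : ℝ) ≤ ((thr j : ℤ) : ℝ) := by exact_mod_cast h1
      rw [div_le_iff₀ (by norm_num)]
      refine h3.trans ?_
      have hj' : j = 1 ∨ j = 2 ∨ j = 3 ∨ j = 4 := by omega
      rcases hj' with rfl | rfl | rfl | rfl <;> simp only [thr, qf] <;> norm_num

end NN
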