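import Pool.Agent.H87.NN.Fibre
import Pool.Agent.H87.NN.Reach
import Pool.Agent.H87.NN.Alg
import Pool.Agent.H87.NN.Laws

/-!
# Comparison of `ℤ^d` with the planar model (module NN-OUTER)

`N Av X` (probability that no point of `X ⊆ ℤ^d` reaches the target through `Av`) is antitone, `≤ 1`,
satisfies the one step recursion `hN` and vanishes if `X` contains a point over the complement of
`box n`. Let `a` satisfy the conclusion `root_good` and `a j (d-2m) ≤ qf (1/10) j`.

**Claim.** For all `W ⊆ box n`, finite `X ⊆ ℤ²`, and `X' ⊆ ℤ^d` such that every `x ∈ X` is the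
projection of a point of `X'`:
`N (proj m ⁻¹' W) X' ≤ Pr (nu (1/10)) W (∀ x ∈ X, ¬ Rch step2 W (box n)ᶜ · x)`.

Induction on `W.card` (or `Finset.strongInduction`).
* No `x ∈ X` is in `W`: then `Rch step2 W (box n)ᶜ ω x ↔ x ∉ box n` for `x ∈ X`. If some `x ∈ X` is not in
  `box n`, the left side is `0` (`hN0`), otherwise the right side is `1` (`Ex_const`).
* `x ∈ X ∩ W`, `z ∈ X'` with `proj m z = x`. Let `W₀ = W.erase x`, and
  `c A = Ex (nu) W₀ (fun ω => ind (∀ x' ∈ X, ¬ Rch W₀ (box n)ᶜ ω x') *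
    ind (A = {e | Rch W₀ (box n)ᶜ ω (step2 x e)})) ∅ ≥ 0`.
  `N (proj ⁻¹' W) X' = N (proj ⁻¹' W) (insert z X')` and `root_good` (with `y = z`,
  `Sub0 (2m) z ⊆ proj ⁻¹' {x} ⊆ proj ⁻¹' W`) gives `≤ ∑ A, c A * a A.card (d-2m)`: its hypothesis for
  `Y, S` is: `N (proj ⁻¹' W \ Sub0 (2m) z) (X' ∪ Y) ≤ N (proj ⁻¹' W₀) (X' ∪ Y)` (antitone:
  `proj ⁻¹' W₀ ⊆ proj ⁻¹' W \ Sub0 (2m) z`) `≤ Pr W₀ (∀ x' ∈ X ∪ S.image (step2 x), ¬ Rch W₀ (box n)ᶜ · x')`
  (induction hypothesis) `= ∑ A, c A * ind (Disjoint S A)` (sum over the value of the random set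
  `{e | Rch W₀ (box n)ᶜ ω (step2 x e)}`).
  Then `≤ ∑ A, c A * qf (1/10) A.card = ∑ A, c A * avd (nu (1/10)) A` (`avd_nu`)
  `= Pr W (∀ x' ∈ X, ¬ Rch W (box n)ᶜ · x')`: `W = insert x W₀`, `Ex_insert'`, and by `rch_update_iff`
  (`x ∈ X`, `x ∈ W`; `↑W \ {x} = ↑W₀`) for every `ω`, `s`:
  `(∀ x' ∈ X, ¬ Rch W (box n)ᶜ (update ω x s) x') ↔ (∀ x' ∈ X, ¬ Rch W₀ (box n)ᶜ ω x') ∧
  ∀ e ∈ s, ¬ Rch W₀ (box n)ᶜ ω (step2 x e)`.
-/

open Finset

namespace NN

theorem Sub0_subset {d m : ℕ} (y : Fin d → ℤ) : Sub0 (2 * m) y ⊆ proj m ⁻¹' {proj m y} := by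
  intro z hz
  simp only [Set.mem_preimage, Set.mem_singleton_iff, proj, Prod.mk.injEq]
  constructor
  · refine Finset.sum_congr rfl fun c _ => ?_
    by_cases h : c.val < m
    · simp only [h, if_true]; exact hz c (by omega)
    · simp only [h, if_false]
  · refine Finset.sum_congr rfl fun c _ => ?_
    by_cases h : m ≤ c.val ∧ c.val < 2 * m
    · rw [if_pos h, if_pos h]; exact hz c (by omega)
    · rw [if_neg h, if_neg h]

/-- the directions in which the neighbour of `x` reaches the complement of the box -/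
noncomputable def outerRR (W : Finset (ℤ × ℤ)) (n : ℕ) (x : ℤ × ℤ)
    (ω : ℤ × ℤ → Finset (Bool × Bool)) : Finset (Bool × Bool) := by
  classical
  exact Finset.univ.filter fun e =>
    Rch step2 (W : Set (ℤ × ℤ)) (box n : Set (ℤ × ℤ))ᶜ ω (step2 x e)

theorem outer_disjoint_RR (W : Finset (ℤ × ℤ)) (n : ℕ) (x : ℤ × ℤ)
    (ω : ℤ × ℤ → Finset (Bool × Bool)) (s : Finset (Bool × Bool)) :
    Disjoint s (outerRR W n x ω) ↔
      ∀ e ∈ s, ¬ Rch step2 (W : Set (ℤ × ℤ)) (box n : Set (ℤ × ℤ))ᶜ ω (step2 x e) := by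
  classical
  rw [Finset.disjoint_left]
  simp only [outerRR, Finset.mem_filter, Finset.mem_univ, true_and]

theorem outer_sum_ind_eq (f : Finset (Bool × Bool) → ℝ) (g : ℝ) (R : Finset (Bool × Bool)) :
    ∑ A : Finset (Bool × Bool), f A * (g * ind (A = R)) = g * f R := by
  rw [Finset.sum_eq_single R]
  · rw [ind_pos rfl]; ring
  · intro A _ hA
    rw [ind_neg hA]; ring
  · intro h
    exact absurd (Finset.mem_univ _) h

theorem outer_le {d m n : ℕ} {N : Set (Fin d → ℤ) → Set (Fin d → ℤ) → ℝ} {r : ℕ → ℝ}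
    (hanti : ∀ {Av Av' X X' : Set (Fin d → ℤ)}, Av ⊆ Av' → X ⊆ X' → N Av' X' ≤ N Av X)
    (hN1 : ∀ Av X, N Av X ≤ 1)
    (hN0 : ∀ {Av X : Set (Fin d → ℤ)} {x : Fin d → ℤ}, x ∈ X → proj m x ∉ box n → N Av X = 0)
    (hroot : ∀ (x0 : ℤ × ℤ) (y : Fin d → ℤ), proj m y = x0 →
      Good N (fun z β => proj m z = step2 x0 β) (Sub0 (2 * m) y) y (fun A => r A.card))
    (hr : ∀ j ≤ 4, r j ≤ qf (1 / 10) j)
    (W : Finset (ℤ × ℤ)) (hW : W ⊆ box n) (X : Finset (ℤ × ℤ)) (X' : Set (Fin d → ℤ))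
    (hX : ∀ x ∈ X, ∃ z ∈ X', proj m z = x) :
    N (proj m ⁻¹' (W : Set (ℤ × ℤ))) X' ≤
      Pr (fun _ => nu (1 / 10)) W
        (fun ω => ∀ x ∈ X, ¬ Rch step2 (W : Set (ℤ × ℤ)) (box n : Set (ℤ × ℤ))ᶜ ω x) := by
  classical
  have hnn : ∀ s, 0 ≤ nu (1 / 10) s := nu_nonneg (by norm_num) (by norm_num)
  induction W using Finset.strongInduction generalizing X X' with
  | H W ih =>
  by_cases hex : ∃ x ∈ X, x ∈ W
  · obtain ⟨x, hxX, hxW⟩ := hex
    obtain ⟨z, hzX', hz⟩ := hX x hxX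
    set W₀ : Finset (ℤ × ℤ) := W.erase x with hW₀
    have hcoe : (W : Set (ℤ × ℤ)) \ {x} = (W₀ : Set (ℤ × ℤ)) := (Finset.coe_erase x W).symm
    set E0 : (ℤ × ℤ → Finset (Bool × Bool)) → Prop := fun ω =>
      ∀ x' ∈ X, ¬ Rch step2 (W₀ : Set (ℤ × ℤ)) (box n : Set (ℤ × ℤ))ᶜ ω x' with hE0
    set c : Finset (Bool × Bool) → ℝ := fun A =>
      Ex (fun _ => nu (1 / 10)) W₀ (fun ω => ind (E0 ω) * ind (A = outerRR W₀ n x ω)) (fun _ => ∅)
      with hc
    have hc0 : ∀ A, 0 ≤ c A := fun A =>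
      Ex_nonneg (fun _ _ => hnn) (fun ω => mul_nonneg (ind_nonneg _) (ind_nonneg _)) _
    -- sums against `c`
    have hsum : ∀ f : Finset (Bool × Bool) → ℝ,
        ∑ A, c A * f A = Ex (fun _ => nu (1 / 10)) W₀
          (fun ω => ind (E0 ω) * f (outerRR W₀ n x ω)) (fun _ => ∅) := by
      intro f
      have h1 : (fun ω : ℤ × ℤ → Finset (Bool × Bool) => ind (E0 ω) * f (outerRR W₀ n x ω)) =
          fun ω => ∑ A : Finset (Bool × Bool), f A * (ind (E0 ω) * ind (A = outerRR W₀ n x ω)) := by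
        funext ω
        rw [outer_sum_ind_eq]
      rw [h1, Ex_sum]
      refine Finset.sum_congr rfl fun A _ => ?_
      rw [Ex_smul]
      simp only [hc]
      ring
    have hins : N (proj m ⁻¹' (W : Set (ℤ × ℤ))) X' =
        N (proj m ⁻¹' (W : Set (ℤ × ℤ))) (insert z X') := by
      rw [Set.insert_eq_of_mem hzX']
    have hSubW : Sub0 (2 * m) z ⊆ proj m ⁻¹' (W : Set (ℤ × ℤ)) := by
      refine (Sub0_subset z).trans ?_
      intro y hy
      simp only [Set.mem_preimage, Set.mem_singleton_iff] at hy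
      simp only [Set.mem_preimage, hy, hz]
      exact hxW
    have hgood := hroot x z hz (proj m ⁻¹' (W : Set (ℤ × ℤ))) X' c hSubW hc0 ?_
    · rw [hins]
      refine hgood.trans ?_
      have h2 : ∑ A : Finset (Bool × Bool), c A * r A.card ≤
          ∑ A : Finset (Bool × Bool), c A * avd (nu (1 / 10)) A := by
        refine Finset.sum_le_sum fun A _ => mul_le_mul_of_nonneg_left ?_ (hc0 A)
        rw [avd_nu]
        refine hr _ ?_
        calc A.card ≤ (Finset.univ : Finset (Bool × Bool)).card := Finset.card_le_univ A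
          _ = 4 := rfl
      refine h2.trans (le_of_eq ?_)
      rw [hsum]
      unfold Pr
      have hWi : W = insert x W₀ := (Finset.insert_erase hxW).symm
      have hxW₀ : x ∉ W₀ := Finset.notMem_erase x W
      have h3 : Ex (fun _ => nu (1 / 10)) W (fun ω => ind (∀ x' ∈ X,
            ¬ Rch step2 (W : Set (ℤ × ℤ)) (box n : Set (ℤ × ℤ))ᶜ ω x')) =
          Ex (fun _ => nu (1 / 10)) (insert x W₀) (fun ω => ind (∀ x' ∈ X,
            ¬ Rch step2 (W : Set (ℤ × ℤ)) (box n : Set (ℤ × ℤ))ᶜ ω x')) := by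
        rw [← hWi]
      rw [h3, Ex_insert' hxW₀]
      congr 1
      funext ω
      unfold Rs avd
      rw [Finset.mul_sum]
      refine Finset.sum_congr rfl fun s _ => ?_
      have h4 : (∀ x' ∈ X, ¬ Rch step2 (W : Set (ℤ × ℤ)) (box n : Set (ℤ × ℤ))ᶜ
            (Function.update ω x s) x') ↔ (E0 ω ∧ Disjoint s (outerRR W₀ n x ω)) := by
        rw [outer_disjoint_RR]
        constructor
        · intro h
          constructor
          · intro x' hx' hR
            refine h x' hx' ((rch_update_iff x s).2 (.inl ?_))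
            rw [hcoe]; exact hR
          · intro e he hR
            refine h x hxX ((rch_update_iff x s).2 (.inr ⟨hxW, .hit rfl, e, he, ?_⟩))
            rw [hcoe]; exact hR
        · rintro ⟨h5, h6⟩ x' hx' hR
          rcases (rch_update_iff x s).1 hR with hR | ⟨_, _, e, he, hR⟩
          · rw [hcoe] at hR
            exact h5 x' hx' hR
          · rw [hcoe] at hR
            exact h6 e he hR
      show ind (E0 ω) * (nu (1 / 10) s * ind (Disjoint s (outerRR W₀ n x ω))) =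
        nu (1 / 10) s * ind (∀ x' ∈ X, ¬ Rch step2 (W : Set (ℤ × ℤ)) (box n : Set (ℤ × ℤ))ᶜ
            (Function.update ω x s) x')
      rw [ind_congr h4, ind_and]
      ring
    · intro Y S hYS
      have h1 : N (proj m ⁻¹' (W : Set (ℤ × ℤ)) \ Sub0 (2 * m) z) (X' ∪ Y) ≤
          N (proj m ⁻¹' (W₀ : Set (ℤ × ℤ))) (X' ∪ Y) := by
        refine hanti ?_ subset_rfl
        intro y hy
        simp only [Set.mem_preimage] at hy
        rw [← hcoe] at hy
        refine ⟨hy.1, fun hy2 => hy.2 ?_⟩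
        have := Sub0_subset z hy2
        simp only [Set.mem_preimage, Set.mem_singleton_iff] at this
        rw [this, hz]
        rfl
      refine h1.trans ((ih W₀ (Finset.erase_ssubset hxW)
        ((Finset.erase_subset _ _).trans hW) (X ∪ S.image (step2 x)) (X' ∪ Y) ?_).trans
        (le_of_eq ?_))
      · intro x' hx'
        rcases Finset.mem_union.1 hx' with hx' | hx'
        · obtain ⟨z', hz', hz''⟩ := hX x' hx'
          exact ⟨z', Set.mem_union_left _ hz', hz''⟩
        · obtain ⟨b, hb, rfl⟩ := Finset.mem_image.1 hx'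
          obtain ⟨z', hz', hz''⟩ := hYS b hb
          exact ⟨z', Set.mem_union_right _ hz', hz''⟩
      · rw [hsum]
        unfold Pr
        congr 1
        funext ω
        rw [← ind_and]
        refine ind_congr ?_
        rw [outer_disjoint_RR]
        constructor
        · intro h
          refine ⟨fun x' hx' => h x' (Finset.mem_union_left _ hx'), fun e he =>
            h _ (Finset.mem_union_right _ (Finset.mem_image_of_mem _ he))⟩
        · rintro ⟨h5, h6⟩ x' hx'
          rcases Finset.mem_union.1 hx' with hx' | hx'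
          · exact h5 x' hx'
          · obtain ⟨b, hb, rfl⟩ := Finset.mem_image.1 hx'
            exact h6 b hb
  · push Not at hex
    by_cases hbox : ∃ x ∈ X, x ∉ box n
    · obtain ⟨x, hxX, hxb⟩ := hbox
      obtain ⟨z, hzX', hz⟩ := hX x hxX
      rw [hN0 hzX' (by rw [hz]; exact hxb)]
      exact Pr_nonneg fun _ _ => hnn
    · push Not at hbox
      refine (hN1 _ _).trans (le_of_eq ?_)
      unfold Pr
      have h1 : (fun ω : ℤ × ℤ → Finset (Bool × Bool) => ind (∀ x ∈ X,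
          ¬ Rch step2 (W : Set (ℤ × ℤ)) (box n : Set (ℤ × ℤ))ᶜ ω x)) = fun _ => 1 := by
        funext ω
        refine ind_pos ?_
        intro x hx hR
        rcases rch_or_mem hR with h | h
        · exact h (Finset.mem_coe.2 (hbox x hx))
        · exact hex x hx (Finset.mem_coe.1 h)
      rw [h1, Ex_const]
      simp [nu_sum]

end NN
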