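import Pool.Agent.H87.NN.Planar
import Pool.Agent.H87.NN.Outer
import Pool.Agent.H87.NN.Koenig
import Pool.Agent.H87.NN.Meas
import Pool.Agent.H87.NN.NumSmall
import Pool.Agent.H87.NN.NumLarge
import Pool.Agent.H87.NN.DOne

/-!
# Assembly of the proof
-/

open Finset MeasureTheory NN

namespace TwoNbr

/-- the event of leaving `π⁻¹ [-n,n]²` -/
def Out (d m n : ℕ) : Set (Site d → Finset (Dir d)) :=
  {ω | Rch (@stepd d) (proj m ⁻¹' (NN.box n : Set (ℤ × ℤ))) (proj m ⁻¹' (NN.box n : Set (ℤ × ℤ)))ᶜ ω 0}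

theorem proj_zero {d m : ℕ} : proj m (0 : Fin d → ℤ) = 0 := by
  simp [proj]

theorem out_ge {d : ℕ} (hd : 2 ≤ d) : ∃ m : ℕ, ∃ δ : ℝ, 0 < δ ∧ ∀ n,
    δ ≤ (law 2 d (by omega)).real (Out d m n) := by
  have hnum : NumOK d := by
    rcases Nat.lt_or_ge 40 d with h | h
    · exact num_large d h
    · exact num_small d hd h
  obtain ⟨m, hm, hmd, a, b, hrec, hval⟩ := hnum
  obtain ⟨δ, hδ, hpl⟩ := planar
  refine ⟨m, δ, hδ, fun n => ?_⟩
  set p := pick 2 d (by omega) with hp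
  set T : Set (Site d) := (proj m ⁻¹' (NN.box n : Set (ℤ × ℤ)))ᶜ with hT
  have hpp : ∀ s, (p s).toReal = pl d s := fun s => pick_two d (by omega) s
  have hanti : ∀ {Av Av' X X' : Set (Fin d → ℤ)}, Av ⊆ Av' → X ⊆ X' →
      NS p (@stepd d) T Av' X' ≤ NS p (@stepd d) T Av X := fun h1 h2 => NS_anti p h1 h2
  have hN : ∀ {Av X : Set (Fin d → ℤ)} {y : Fin d → ℤ}, y ∈ Av →
      NS p (@stepd d) T Av (insert y X) ≤
        ∑ s, pl d s * NS p (@stepd d) T (Av \ {y}) (X ∪ stepd y '' (s : Set (Fin d × Bool))) := by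
    intro Av X y hy
    refine (NS_rec p hy).trans (le_of_eq ?_)
    exact Finset.sum_congr rfl fun s _ => by rw [hpp]
  have key := outer_le (n := n) (N := NS p (@stepd d) T) (r := fun j => a j (d - 2 * m))
    hanti (fun Av X => NS_le_one p)
    (fun {Av X x} hx h => NS_eq_zero p hx (by simpa [hT] using h))
    (fun x0 y hy => root_good hm hmd hrec hanti hN hy) hval (NN.box n) subset_rfl {0} {0}
    (by simpa using proj_zero)
  have h2 : Pr (fun _ => nu (1 / 10)) (NN.box n) (fun ω => ∀ x ∈ ({0} : Finset (ℤ × ℤ)),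
      ¬ Rch step2 (NN.box n : Set (ℤ × ℤ)) (NN.box n : Set (ℤ × ℤ))ᶜ ω x) = 1 - exitP (1 / 10) n := by
    simp only [Finset.mem_singleton, forall_eq]
    exact Pr_not fun _ _ => nu_sum _
  rw [h2] at key
  have h3 := hpl n
  have h4 : NS p (@stepd d) T (proj m ⁻¹' (NN.box n : Set (ℤ × ℤ))) {0} =
      1 - (law 2 d (by omega)).real (Out d m n) := by
    have h5 : {ω : Site d → Finset (Dir d) | ∀ x ∈ ({0} : Set (Site d)),
        ¬ Rch (@stepd d) (proj m ⁻¹' (NN.box n : Set (ℤ × ℤ))) T ω x} = (Out d m n)ᶜ := by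
      ext ω
      simp [Out, hT]
    unfold NS
    rw [h5, law_eq]
    exact probReal_compl_eq_one_sub (measurableSet_rch _ _ _ _)
  rw [h4] at key
  linarith

theorem out_anti (d m : ℕ) : Antitone (Out d m) := by
  refine antitone_nat_of_succ_le fun n ω hω => ?_
  have hsub : (NN.box n : Set (ℤ × ℤ)) ⊆ NN.box (n + 1) := by
    exact_mod_cast box_le_box (Nat.le_succ n)
  have hω' : Rch (@stepd d) (proj m ⁻¹' (NN.box (n + 1) : Set (ℤ × ℤ)))
    (proj m ⁻¹' (NN.box (n + 1) : Set (ℤ × ℤ)))ᶜ ω 0 := hω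
  show Rch (@stepd d) (proj m ⁻¹' (NN.box n : Set (ℤ × ℤ)))
    (proj m ⁻¹' (NN.box n : Set (ℤ × ℤ)))ᶜ ω 0
  generalize (0 : Site d) = z at hω'
  induction hω' with
  | hit h => exact .hit fun h' => h (hsub h')
  | @go x e _ h2 _ ih =>
    by_cases hx : x ∈ proj m ⁻¹' (NN.box n : Set (ℤ × ℤ))
    · exact .go hx h2 ih
    · exact .hit hx

theorem inter_out_subset (d m : ℕ) : ⋂ n, Out d m n ⊆ evD d := by
  intro ω hω
  rw [Set.mem_iInter] at hω
  have h0 : (0 : Fin d → ℤ) ∈ proj m ⁻¹' (NN.box 0 : Set (ℤ × ℤ)) := by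
    rw [Set.mem_preimage, proj_zero]
    simp [NN.box, Prod.zero_eq_mk]
  obtain ⟨γ, h1, h2, h3⟩ := exists_inj_path (@stepd d) ω 0
    (fun n => proj m ⁻¹' (NN.box n : Set (ℤ × ℤ))) h0 (fun n δ k hk => proj_walk m δ n k hk) hω
  exact ⟨γ, h1, h2, fun n => by rw [nbr_eq]; exact h3 n⟩

theorem thetaD_pos_of_two_le {d : ℕ} (hd : 2 ≤ d) : 0 < thetaD 2 d (by omega) := by
  obtain ⟨m, δ, hδ, h⟩ := out_ge hd
  have hlim := tendsto_measure_iInter_atTop (μ := law 2 d (by omega))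
    (s := Out d m) (fun n => (measurableSet_rch _ _ _ _).nullMeasurableSet) (out_anti d m)
    ⟨0, by rw [law_eq]; exact measure_ne_top _ _⟩
  have hge : ENNReal.ofReal δ ≤ law 2 d (by omega) (⋂ n, Out d m n) := by
    refine ge_of_tendsto' hlim fun n => ?_
    rw [law_eq]
    exact (ENNReal.ofReal_le_iff_le_toReal (measure_ne_top _ _)).2 (h n)
  calc (0 : ENNReal) < ENNReal.ofReal δ := ENNReal.ofReal_pos.2 hδ
    _ ≤ law 2 d (by omega) (⋂ n, Out d m n) := hge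
    _ ≤ thetaD 2 d (by omega) := measure_mono (inter_out_subset d m)

theorem thetaD_pos {d : ℕ} (hd : 1 ≤ d) : 0 < thetaD 2 d (by omega) := by
  rcases Nat.lt_or_ge 1 d with h | h
  · exact thetaD_pos_of_two_le h
  · obtain rfl : d = 1 := by omega
    exact thetaD_one

theorem thetaU_pos {d : ℕ} (hd : 1 ≤ d) : 0 < thetaU 2 d (by omega) :=
  (thetaD_pos hd).trans_le (thetaD_le_thetaU 2 d _)

end TwoNbr
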