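import Pool.Agent.H87.NN.Modif
import Pool.Agent.H87.NN.Alg2
import Pool.Agent.H87.NN.Laws

/-!
# Comparison of the number of `K1` and `K2` points (module NN-MODSUM)

Write `P = Pr (nu t) (box n)`, `G x' ω = ind (K2 n x' ω)`.

(1) Pointwise, for `x ∈ box n`: `ind (K1 n x ω) ≤ 32 ^ 25 * ∑ x' ∈ nbh 1 x, Ex (nu t) (nbh 2 x)
(G x') ω`: if `K1 n x ω`, take `x'`, `ω'` from `local_mod`; `le_Ex_of_agree` with `c = 1/32`
(`nu_ge`) and `(nbh 2 x).card = 25` gives `(1/32)^25 * G x' ω' ≤ Ex (nu t) (nbh 2 x) (G x') ω`, and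
`G x' ω' = 1`.

(2) `G x'` depends only on `box n` (`rch_congr`), so (`Ex_union`, `Ex_of_indep`)
`Ex (nu t) (nbh 2 x) (G x') = Ex (nu t) (nbh 2 x ∩ box n) (G x')`, and by `Ex_Ex`,
`Ex (nu t) (box n) (Ex (nu t) (nbh 2 x) (G x')) = Ex (nu t) (box n) (G x')`.
So `P (K1 n x) ≤ 32 ^ 25 * ∑ x' ∈ nbh 1 x, P (K2 n x')`.

(3) `K2 n x'` is impossible for `x' ∉ box n` (then `0` would exit), so the sum in (2) is over
`x' ∈ nbh 1 x ∩ box n`. Sum over `x ∈ box n`, exchange the sums; every `x'` is in `nbh 1 x` for at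
most `(nbh 1 x').card = 9` points `x`.
-/

open Finset

namespace NN

theorem card_nbh (k : ℕ) (x : ℤ × ℤ) : (nbh k x).card = (2 * k + 1) ^ 2 := by
  unfold nbh
  rw [Finset.card_product, Int.card_Icc, Int.card_Icc]
  have h1 : (x.1 + k + 1 - (x.1 - k)).toNat = 2 * k + 1 := by omega
  have h2 : (x.2 + k + 1 - (x.2 - k)).toNat = 2 * k + 1 := by omega
  rw [h1, h2, sq]

theorem mem_nbh_comm {k : ℕ} {x y : ℤ × ℤ} : x ∈ nbh k y ↔ y ∈ nbh k x := by
  unfold nbh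
  simp only [Finset.mem_product, Finset.mem_Icc]
  constructor <;> rintro ⟨⟨h1, h2⟩, h3, h4⟩ <;> refine ⟨⟨?_, ?_⟩, ?_, ?_⟩ <;> omega

/-- `K2` only depends on the configuration in the box -/
theorem dependsOn_K2 (n : ℕ) (x : ℤ × ℤ) :
    DependsOn (fun ω => ind (K2 n x ω)) (box n : Set (ℤ × ℤ)) := by
  intro ω ω' h
  refine ind_congr ?_
  unfold K2 Exits
  have hc : ∀ (T : Set (ℤ × ℤ)) (z : ℤ × ℤ), Rch step2 (box n : Set (ℤ × ℤ)) T ω z ↔
      Rch step2 (box n : Set (ℤ × ℤ)) T ω' z := fun T z => rch_congr h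
  simp only [hc]

theorem K1_pointwise {t : ℝ} (h0 : 0 ≤ t) (h1 : t ≤ 1 / 10) (n : ℕ) (x : ℤ × ℤ)
    (ω : ℤ × ℤ → Finset (Bool × Bool)) :
    ind (K1 n x ω) ≤ 32 ^ 25 * ∑ x' ∈ nbh 1 x,
      Ex (fun _ => nu t) (nbh 2 x) (fun ω => ind (K2 n x' ω)) ω := by
  have hnn : ∀ x' ∈ nbh 1 x,
      0 ≤ Ex (fun _ => nu t) (nbh 2 x) (fun ω => ind (K2 n x' ω)) ω := fun x' _ =>
    Ex_nonneg (fun _ _ s => nu_nonneg h0 (by linarith) s) (fun _ => ind_nonneg _) _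
  by_cases hk : K1 n x ω
  · obtain ⟨x', hx', ω', hω', hk2⟩ := local_mod hk
    have h2 := le_Ex_of_agree (w := fun _ : ℤ × ℤ => nu t) (B := nbh 2 x)
      (F := fun ω => ind (K2 n x' ω)) (c := 1 / 32) (by norm_num)
      (fun _ _ s => nu_ge h0 h1 s) (fun _ => ind_nonneg _) ω ω' hω'
    have hc : (nbh 2 x).card = 25 := by rw [card_nbh]; norm_num
    simp only [hc, ind_pos hk2, mul_one] at h2
    rw [ind_pos hk]
    have h3 := Finset.single_le_sum hnn hx'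
    have h4 : (1 / 32 : ℝ) ^ 25 ≤ ∑ x' ∈ nbh 1 x,
      Ex (fun _ => nu t) (nbh 2 x) (fun ω => ind (K2 n x' ω)) ω := h2.trans h3
    calc (1 : ℝ) = 32 ^ 25 * (1 / 32) ^ 25 := by norm_num
      _ ≤ _ := mul_le_mul_of_nonneg_left h4 (by positivity)
  · rw [ind_neg hk]
    exact mul_nonneg (by positivity) (Finset.sum_nonneg hnn)

theorem Ex_nbh (t : ℝ) (n : ℕ) (x x' : ℤ × ℤ) :
    Ex (fun _ => nu t) (box n) (Ex (fun _ => nu t) (nbh 2 x) (fun ω => ind (K2 n x' ω)))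
      = Ex (fun _ => nu t) (box n) (fun ω => ind (K2 n x' ω)) := by
  have h1 : nbh 2 x = (nbh 2 x ∩ box n) ∪ (nbh 2 x \ box n) := by
    ext z
    simp only [Finset.mem_union, Finset.mem_inter, Finset.mem_sdiff]
    tauto
  have h2 : Ex (fun _ => nu t) (nbh 2 x) (fun ω => ind (K2 n x' ω)) =
      Ex (fun _ => nu t) (nbh 2 x ∩ box n) (fun ω => ind (K2 n x' ω)) := by
    conv_lhs => rw [h1]
    rw [Ex_union, Ex_of_indep (dependsOn_K2 n x')]
    · intro i hi h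
      exact (Finset.mem_sdiff.1 hi).2 (Finset.mem_coe.1 h)
    · intro i _
      exact nu_sum t
    · refine Finset.disjoint_left.2 fun z hz hz' => ?_
      exact (Finset.mem_sdiff.1 hz').2 (Finset.mem_inter.1 hz).2
  rw [h2]
  exact Ex_Ex Finset.inter_subset_right fun i _ => nu_sum t

theorem K1_le {t : ℝ} (h0 : 0 ≤ t) (h1 : t ≤ 1 / 10) (n : ℕ) (x : ℤ × ℤ) :
    Pr (fun _ => nu t) (box n) (K1 n x) ≤
      32 ^ 25 * ∑ x' ∈ nbh 1 x, Pr (fun _ => nu t) (box n) (K2 n x') := by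
  unfold Pr
  refine (Ex_mono (fun _ _ s => nu_nonneg h0 (by linarith) s)
    (fun ω => K1_pointwise h0 h1 n x ω) _).trans (le_of_eq ?_)
  rw [Ex_smul, Ex_sum]
  simp only [Ex_nbh]

theorem Pr_K2_eq_zero (t : ℝ) (n : ℕ) {x : ℤ × ℤ} (hx : x ∉ box n) :
    Pr (fun _ => nu t) (box n) (K2 n x) = 0 := by
  have h1 : (fun ω => ind (K2 n x ω)) = fun _ => (0 : ℝ) := by
    funext ω
    refine ind_neg ?_
    rintro ⟨k1, k2, -⟩
    refine k1 (rch_mono subset_rfl ?_ k2)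
    rintro _ rfl
    exact fun h => hx (Finset.mem_coe.1 h)
  rw [Pr, h1, Ex_const, mul_zero]

theorem K1_sum_le {t : ℝ} (h0 : 0 ≤ t) (h1 : t ≤ 1 / 10) (n : ℕ) :
    ∑ x ∈ box n, Pr (fun _ => nu t) (box n) (K1 n x) ≤
      9 * 32 ^ 25 * ∑ x ∈ box n, Pr (fun _ => nu t) (box n) (K2 n x) := by
  have hnn : ∀ x, 0 ≤ Pr (fun _ => nu t) (box n) (K2 n x) := fun x =>
    Pr_nonneg fun _ _ s => nu_nonneg h0 (by linarith) s
  have h2 : ∀ x, ∑ x' ∈ nbh 1 x, Pr (fun _ => nu t) (box n) (K2 n x') =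
      ∑ x' ∈ box n, if x' ∈ nbh 1 x then Pr (fun _ => nu t) (box n) (K2 n x') else 0 := by
    intro x
    rw [← Finset.sum_filter]
    refine (Finset.sum_subset ?_ ?_).symm
    · intro z hz
      exact (Finset.mem_filter.1 hz).2
    · intro z hz hz'
      refine Pr_K2_eq_zero t n fun h => hz' (Finset.mem_filter.2 ⟨h, hz⟩)
  calc ∑ x ∈ box n, Pr (fun _ => nu t) (box n) (K1 n x)
      ≤ ∑ x ∈ box n, 32 ^ 25 * ∑ x' ∈ nbh 1 x, Pr (fun _ => nu t) (box n) (K2 n x') :=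
        Finset.sum_le_sum fun x _ => K1_le h0 h1 n x
    _ = 32 ^ 25 * ∑ x' ∈ box n, ∑ x ∈ box n,
          (if x' ∈ nbh 1 x then Pr (fun _ => nu t) (box n) (K2 n x') else 0) := by
        rw [← Finset.mul_sum, Finset.sum_comm (s := box n) (t := box n)]
        simp only [h2]
    _ ≤ 32 ^ 25 * ∑ x' ∈ box n, 9 * Pr (fun _ => nu t) (box n) (K2 n x') := by
        refine mul_le_mul_of_nonneg_left (Finset.sum_le_sum fun x' _ => ?_) (by positivity)
        rw [← Finset.sum_filter, Finset.sum_const, nsmul_eq_mul]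
        refine mul_le_mul_of_nonneg_right ?_ (hnn x')
        have h3 : ((box n).filter fun x => x' ∈ nbh 1 x) ⊆ nbh 1 x' := by
          intro x hx
          exact mem_nbh_comm.1 (Finset.mem_filter.1 hx).2
        have h4 := Finset.card_le_card h3
        rw [card_nbh] at h4
        exact_mod_cast h4
    _ = _ := by rw [← Finset.mul_sum]; ring

end NN
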