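import Pool.Agent.H87.NN.Fibre
import Pool.Agent.H87.NN.Meas

/-!
# The model of the problem (statement level definitions)

Sites `Fin d → ℤ`, directions `Fin d × Bool`, `nbr x e` the neighbour. Every site picks a uniformly
random `k`-element set of directions, independently; `law k d h` is the product measure.
-/

open Finset MeasureTheory ENNReal

namespace TwoNbr

/-- the points of `ℤ^d` -/
abbrev Site (d : ℕ) := Fin d → ℤ

/-- the `2d` directions: a coordinate and a sign (`true` is `+`) -/
abbrev Dir (d : ℕ) := Fin d × Bool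

/-- the nearest neighbour of `x` in direction `e` -/
def nbr {d : ℕ} (x : Site d) (e : Dir d) : Site d :=
  Function.update x e.1 (if e.2 then x e.1 + 1 else x e.1 - 1)

theorem powersetCard_nonempty {k d : ℕ} (h : k ≤ 2 * d) :
    (Finset.powersetCard k (Finset.univ : Finset (Dir d))).Nonempty := by
  rw [Finset.powersetCard_nonempty]
  simpa [mul_comm] using h

/-- the law of the set of directions picked by one vertex: uniform among the sets with `k`
elements -/
noncomputable def pick (k d : ℕ) (h : k ≤ 2 * d) : PMF (Finset (Dir d)) :=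
  PMF.uniformOfFinset (Finset.powersetCard k Finset.univ) (powersetCard_nonempty h)

/-- the law of all picks: independent over the vertices -/
noncomputable def law (k d : ℕ) (h : k ≤ 2 * d) : Measure (Site d → Finset (Dir d)) :=
  Measure.infinitePi fun _ : Site d => (pick k d h).toMeasure

/-- the origin starts an infinite self-avoiding directed path of the `k`-DnG -/
def evD (d : ℕ) : Set (Site d → Finset (Dir d)) :=
  {ω | ∃ γ : ℕ → Site d, Function.Injective γ ∧ γ 0 = 0 ∧
    ∀ n, ∃ e ∈ ω (γ n), γ (n + 1) = nbr (γ n) e}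

/-- the origin starts an infinite self-avoiding path of the `k`-UnG -/
def evU (d : ℕ) : Set (Site d → Finset (Dir d)) :=
  {ω | ∃ γ : ℕ → Site d, Function.Injective γ ∧ γ 0 = 0 ∧
    ∀ n, (∃ e ∈ ω (γ n), γ (n + 1) = nbr (γ n) e) ∨
      (∃ e ∈ ω (γ (n + 1)), γ n = nbr (γ (n + 1)) e)}

/-- `θ^D(k,d)` -/
noncomputable def thetaD (k d : ℕ) (h : k ≤ 2 * d) : ℝ≥0∞ := law k d h (evD d)

/-- `θ^U(k,d)` -/
noncomputable def thetaU (k d : ℕ) (h : k ≤ 2 * d) : ℝ≥0∞ := law k d h (evU d)

theorem thetaD_le_thetaU (k d : ℕ) (h : k ≤ 2 * d) : thetaD k d h ≤ thetaU k d h :=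
  measure_mono fun _ ⟨γ, h1, h2, h3⟩ => ⟨γ, h1, h2, fun n => .inl (h3 n)⟩

theorem nbr_eq {d : ℕ} : @nbr d = @NN.stepd d := by
  funext x e
  rcases e with ⟨c, σ⟩
  cases σ <;> simp [nbr, NN.stepd, NN.sg, sub_eq_add_neg]

theorem law_eq (k d : ℕ) (h : k ≤ 2 * d) : law k d h = NN.muP (Site d) (pick k d h) := rfl

/-- the masses of the law of a vertex -/
theorem pick_two (d : ℕ) (hd : 1 ≤ d) (s : Finset (Dir d)) :
    (pick 2 d (by omega) s).toReal = NN.pl d s := by
  unfold pick NN.pl
  rw [PMF.uniformOfFinset_apply]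
  by_cases h : s.card = 2
  · rw [if_pos (Finset.mem_powersetCard_univ.mpr h), if_pos h, Finset.card_powersetCard,
      Finset.card_univ]
    have hc : Fintype.card (Dir d) = 2 * d := by simp [Dir, mul_comm]
    rw [hc]
    have h2 : ((2 * d).choose 2 : ℝ) = d * (2 * d - 1) := by
      rw [Nat.cast_choose_two]
      push_cast
      ring
    rw [ENNReal.toReal_inv, ENNReal.toReal_natCast, h2, one_div]
  · rw [if_neg (fun hm => h (Finset.mem_powersetCard_univ.mp hm)), if_neg h]
    simp

end TwoNbr
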