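import Pool.Agent.H87.NN.Reach

/-!
# Local modification (module NN-MODIF)

Fix `n`. For a configuration `ω` call `z` *exiting* if `Exits n ω z` (points outside of the box are
exiting) and *reached* if `Rch step2 (box n) {z} ω 0`. If `0` is not exiting, no reached point is
exiting (`not_rch_of_reached`).

**Modification** `modif`. Suppose `0` is not exiting, `a ≠ b`, `a` is reached avoiding `b`
(`Rch step2 (box n \ {b}) {a} ω 0`), `b` is not exiting and its neighbour `step2 b et` is exiting.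
Let `ω' b = {et}`, `ω' z = (ω z).filter (fun e => step2 z e ≠ b)` for reached `z ≠ b`, and
`ω' z = ω z` otherwise. Then
* `ω' z = ω z` for `z ∉ nbh 1 b` (for such `z` no direction leads to `b`);
* the path from `0` to `a` avoiding `b` is still there (induction on `Rch`, keeping in mind that
  all its points are reached; no arc of it leads to `b`: a vertex of this path followed by `b`
  would be impossible as `b` is not in `box n \ {b}` and `b ≠ a`);
* every exiting point is still exiting: its path consists of exiting points, which are neither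
  reached nor `b`, so their picks have not been changed; hence `b` is exiting for `ω'`
  (`b ∈ box n` since `b` was not exiting);
* `0` is not exiting: the set `C = {z | z reached for ω and z ≠ b}` contains `0` (`0 ≠ b` since `a`
  is reached avoiding `b` and `a ≠ b`), is closed under the steps of `ω'` from points of the box
  and is contained in the box (`rch_mem_of_closed`; reached points outside of the box would make
  `0` exiting).

**Squares.** Directions `e`, `u` with `e.1 ≠ u.1` (perpendicular); `q = step2 p e`,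
`r = step2 p u`, `t = step2 q u = step2 r e`. `square1`: if `0` is not exiting, `p` is reached,
`q` and `t` are exiting and `r` is not, then `K2` can be obtained at `p` or at `r`: by `rch_first`
applied to `p` and `r`, either `p` is reached avoiding `r`, and then `modif` with `b = r`,
step to `t`, makes `q` and `r`, two neighbours of `p`, exiting; or `r` is reached avoiding `p`, and
`modif` with `b = p`, step to `q`, makes `p` and `t`, two neighbours of `r`, exiting.

**Main statement** `local_mod`. Let `K1 n x ω`, `y = step2 x e` exiting. Choose `u` perpendicular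
to `e` and let `z = step2 x u`, `w = step2 y u`.
* `z` exiting: `K2 n x ω`.
* `z` not exiting, `w` exiting: `square1`.
* `z`, `w` not exiting: by `rch_first`, of `x` and `w` one, called `a`, is reached avoiding the
  other, called `b`. Apply `modif` with the step from `b` to `y`. Now `y`, `b` are exiting and `a`
  is reached. If `z` is exiting then `K2` holds at `a` (neighbours `y`, `z`). Otherwise apply
  `square1` to the square with `p = a`, `q = y`, `r = z`, `t = b`.
All changes are inside `nbh 2 x`.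
-/

open Finset

namespace NN

/-- `ℓ^∞` balls -/
noncomputable def nbh (k : ℕ) (x : ℤ × ℤ) : Finset (ℤ × ℤ) :=
  Finset.Icc (x.1 - k) (x.1 + k) ×ˢ Finset.Icc (x.2 - k) (x.2 + k)

theorem mem_nbh {k : ℕ} {x z : ℤ × ℤ} : z ∈ nbh k x ↔
    (x.1 - k ≤ z.1 ∧ z.1 ≤ x.1 + k) ∧ (x.2 - k ≤ z.2 ∧ z.2 ≤ x.2 + k) := by
  simp only [nbh, mem_product, mem_Icc]

theorem step2_cases (x : ℤ × ℤ) (e : Bool × Bool) :
    (e.1 = true ∧ (step2 x e).1 = x.1 ∧
      ((step2 x e).2 = x.2 + 1 ∨ (step2 x e).2 = x.2 - 1)) ∨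
    (e.1 = false ∧ (step2 x e).2 = x.2 ∧
      ((step2 x e).1 = x.1 + 1 ∨ (step2 x e).1 = x.1 - 1)) := by
  rcases e with ⟨e1, e2⟩
  cases e1 <;> cases e2 <;> simp [step2, sg, sub_eq_add_neg]

theorem step2_comm {e u : Bool × Bool} (h : e.1 ≠ u.1) (p : ℤ × ℤ) :
    step2 (step2 p e) u = step2 (step2 p u) e := by
  rcases e with ⟨e1, e2⟩
  rcases u with ⟨u1, u2⟩
  cases e1 <;> cases u1 <;> simp_all [step2]

/-- the opposite direction -/
def opp (u : Bool × Bool) : Bool × Bool := (u.1, !u.2)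

theorem step2_opp (p : ℤ × ℤ) (u : Bool × Bool) : step2 (step2 p u) (opp u) = p := by
  rcases u with ⟨u1, u2⟩
  cases u1 <;> cases u2 <;> simp [step2, sg, opp]

theorem step2_ne (p : ℤ × ℤ) (u : Bool × Bool) : step2 p u ≠ p := by
  intro h
  have h1 := step2_cases p u
  rw [h] at h1
  omega

theorem mem_nbh_self (k : ℕ) (x : ℤ × ℤ) : x ∈ nbh k x := by
  rw [mem_nbh]
  omega

theorem mem_nbh_step {x z : ℤ × ℤ} {e : Bool × Bool} (h : step2 z e = x) : z ∈ nbh 1 x := by
  subst h
  rw [mem_nbh]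
  have h1 := step2_cases z e
  push_cast
  omega

theorem step_mem_nbh (x : ℤ × ℤ) (e : Bool × Bool) : step2 x e ∈ nbh 1 x := by
  rw [mem_nbh]
  have h1 := step2_cases x e
  push_cast
  omega

theorem diag_mem_nbh {e u : Bool × Bool} (h : e.1 ≠ u.1) (x : ℤ × ℤ) :
    step2 (step2 x e) u ∈ nbh 1 x := by
  rw [mem_nbh]
  have h1 := step2_cases x e
  have h2 := step2_cases (step2 x e) u
  push_cast
  rcases h1 with ⟨h1, h3, h4⟩ | ⟨h1, h3, h4⟩ <;> rcases h2 with ⟨h2, h5, h6⟩ | ⟨h2, h5, h6⟩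
  · exact absurd (h1.trans h2.symm) h
  · omega
  · omega
  · exact absurd (h1.trans h2.symm) h

theorem diag_ne {e u : Bool × Bool} (h : e.1 ≠ u.1) (x : ℤ × ℤ) :
    step2 (step2 x e) u ≠ x := by
  intro h0
  have h1 := step2_cases x e
  have h2 := step2_cases (step2 x e) u
  rw [h0] at h2
  rcases h1 with ⟨h1, h3, h4⟩ | ⟨h1, h3, h4⟩ <;> rcases h2 with ⟨h2, h5, h6⟩ | ⟨h2, h5, h6⟩
  · exact absurd (h1.trans h2.symm) h
  · omega
  · omega
  · exact absurd (h1.trans h2.symm) h

theorem nbh_two {x y z : ℤ × ℤ} (hy : y ∈ nbh 1 x) (hz : z ∉ nbh 2 x) : z ∉ nbh 1 y := by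
  intro h
  apply hz
  rw [mem_nbh] at *
  push_cast at *
  omega

theorem modif {n : ℕ} {ω : ℤ × ℤ → Finset (Bool × Bool)} {a b : ℤ × ℤ} {et : Bool × Bool}
    (h0 : ¬ Exits n ω 0) (hab : a ≠ b)
    (ha : Rch step2 ((box n : Set (ℤ × ℤ)) \ {b}) {a} ω 0) (hb : ¬ Exits n ω b)
    (ht : Exits n ω (step2 b et)) :
    ∃ ω' : ℤ × ℤ → Finset (Bool × Bool), (∀ z, z ∉ nbh 1 b → ω' z = ω z) ∧ ¬ Exits n ω' 0 ∧
      Rch step2 (box n : Set (ℤ × ℤ)) {a} ω' 0 ∧ (∀ z, Exits n ω z → Exits n ω' z) ∧
      Exits n ω' b := by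
  classical
  -- reached points
  have hne : ∀ z, Rch step2 (box n : Set (ℤ × ℤ)) {z} ω 0 → ¬ Exits n ω z := fun z hz =>
    not_rch_of_reached hz h0
  have hbox : ∀ z, ¬ Exits n ω z → z ∈ (box n : Set (ℤ × ℤ)) := fun z hz => by
    by_contra h
    exact hz (.hit h)
  have hsnoc : ∀ z e, Rch step2 (box n : Set (ℤ × ℤ)) {z} ω 0 → e ∈ ω z →
      Rch step2 (box n : Set (ℤ × ℤ)) {step2 z e} ω 0 := fun z e hz he =>
    rch_snoc hz (hbox z (hne z hz)) he
  let ω' : ℤ × ℤ → Finset (Bool × Bool) := fun z => if z = b then {et} else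
    if Rch step2 (box n : Set (ℤ × ℤ)) {z} ω 0 then (ω z).filter (fun e => step2 z e ≠ b) else ω z
  have hωb : ω' b = {et} := if_pos rfl
  have hωr : ∀ z, z ≠ b → Rch step2 (box n : Set (ℤ × ℤ)) {z} ω 0 →
      ω' z = (ω z).filter (fun e => step2 z e ≠ b) := fun z h1 h2 => by
    change (if z = b then {et} else _) = _
    rw [if_neg h1, if_pos h2]
  have hωn : ∀ z, z ≠ b → ¬ Rch step2 (box n : Set (ℤ × ℤ)) {z} ω 0 → ω' z = ω z :=
    fun z h1 h2 => by
      change (if z = b then {et} else _) = _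
      rw [if_neg h1, if_neg h2]
  have hexit : ∀ z, Exits n ω z → Exits n ω' z := by
    intro z hz
    unfold Exits at hz ⊢
    induction hz with
    | hit h => exact .hit h
    | @go z e h1 h2 h3 ih =>
      have h4 : Exits n ω z := .go h1 h2 h3
      have h5 : z ≠ b := fun h => hb (h ▸ h4)
      have h6 : ¬ Rch step2 (box n : Set (ℤ × ℤ)) {z} ω 0 := fun h => hne z h h4
      refine .go h1 (e := e) ?_ ih
      rw [hωn z h5 h6]
      exact h2
  refine ⟨ω', fun z hz => ?_, ?_, ?_, hexit, ?_⟩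
  · have h1 : z ≠ b := fun h => hz (h ▸ mem_nbh_self 1 z)
    by_cases h2 : Rch step2 (box n : Set (ℤ × ℤ)) {z} ω 0
    · rw [hωr z h1 h2]
      refine Finset.filter_true_of_mem fun e _ h3 => hz (mem_nbh_step h3)
    · exact hωn z h1 h2
  · intro hex
    have h1 : (0 : ℤ × ℤ) ≠ b := by
      rintro rfl
      rcases rch_or_mem ha with h | h
      · exact hab (Set.mem_singleton_iff.1 h).symm
      · exact h.2 rfl
    obtain ⟨y, hy1, hy2⟩ := rch_mem_of_closed
      (C := {z | Rch step2 (box n : Set (ℤ × ℤ)) {z} ω 0 ∧ z ≠ b})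
      (by
        rintro z ⟨hz1, hz2⟩ _ e he
        rw [hωr z hz2 hz1, Finset.mem_filter] at he
        exact ⟨hsnoc z e hz1 he.1, he.2⟩) ⟨.hit rfl, h1⟩ hex
    exact hy1 (hbox y (hne y hy2.1))
  · have key : ∀ x, Rch step2 ((box n : Set (ℤ × ℤ)) \ {b}) {a} ω x →
        Rch step2 (box n : Set (ℤ × ℤ)) {x} ω 0 → Rch step2 (box n : Set (ℤ × ℤ)) {a} ω' x := by
      intro x hx
      induction hx with
      | hit h => exact fun _ => .hit h
      | @go x e h1 h2 h3 ih =>
        intro hr
        refine .go h1.1 (e := e) ?_ (ih (hsnoc x e hr h2))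
        rw [hωr x h1.2 hr, Finset.mem_filter]
        refine ⟨h2, fun h4 => ?_⟩
        rw [h4] at h3
        rcases rch_or_mem h3 with h | h
        · exact hab (Set.mem_singleton_iff.1 h).symm
        · exact h.2 rfl
    exact key 0 ha (.hit rfl)
  · refine .go (hbox b hb) (e := et) ?_ (hexit _ ht)
    rw [hωb]
    exact Finset.mem_singleton_self et

theorem square1 {n : ℕ} {ω : ℤ × ℤ → Finset (Bool × Bool)} {p : ℤ × ℤ} {e u : Bool × Bool}
    (heu : e.1 ≠ u.1) (h0 : ¬ Exits n ω 0) (hp : Rch step2 (box n : Set (ℤ × ℤ)) {p} ω 0)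
    (hq : Exits n ω (step2 p e)) (ht : Exits n ω (step2 (step2 p e) u))
    (hr : ¬ Exits n ω (step2 p u)) :
    ∃ p' ω', (p' = p ∨ p' = step2 p u) ∧ (∀ z, z ∉ nbh 1 p → z ∉ nbh 1 (step2 p u) → ω' z = ω z) ∧
      K2 n p' ω' := by
  rcases rch_first (step2 p u) hp with h | h
  · obtain ⟨ω', h1, h2, h3, h4, h5⟩ := modif h0 (step2_ne p u) h (not_rch_of_reached hp h0) hq
    refine ⟨step2 p u, ω', Or.inr rfl, fun z hz _ => h1 z hz, h2, h3, opp u, e, ?_, ?_, ?_⟩
    · rintro rfl
      exact heu rfl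
    · rw [step2_opp]
      exact h5
    · rw [← step2_comm heu]
      exact h4 _ ht
  · rw [step2_comm heu] at ht
    obtain ⟨ω', h1, h2, h3, h4, h5⟩ := modif h0 (step2_ne p u).symm h hr ht
    refine ⟨p, ω', Or.inl rfl, fun z _ hz => h1 z hz, h2, h3, e, u, ?_, h4 _ hq, h5⟩
    rintro rfl
    exact heu rfl

theorem local_mod {n : ℕ} {x : ℤ × ℤ} {ω : ℤ × ℤ → Finset (Bool × Bool)} (h : K1 n x ω) :
    ∃ x' ∈ nbh 1 x, ∃ ω', (∀ z, z ∉ nbh 2 x → ω' z = ω z) ∧ K2 n x' ω' := by
  obtain ⟨h0, hx, e, hy⟩ := h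
  obtain ⟨u, hu⟩ : ∃ u : Bool × Bool, e.1 ≠ u.1 := ⟨(!e.1, true), by cases e.1 <;> simp⟩
  have heu : e ≠ u := by
    rintro rfl
    exact hu rfl
  by_cases hz : Exits n ω (step2 x u)
  · exact ⟨x, mem_nbh_self 1 x, ω, fun _ _ => rfl, h0, hx, e, u, heu, hy, hz⟩
  by_cases hw : Exits n ω (step2 (step2 x e) u)
  · obtain ⟨p', ω', h1, h2, h3⟩ := square1 hu h0 hx hy hw hz
    refine ⟨p', ?_, ω', fun z hz' => h2 z (nbh_two (mem_nbh_self 1 x) hz')
      (nbh_two (step_mem_nbh x u) hz'), h3⟩
    rcases h1 with rfl | rfl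
    · exact mem_nbh_self 1 _
    · exact step_mem_nbh x u
  rcases rch_first (step2 (step2 x e) u) hx with h | h
  · -- the diagonal point is reached avoiding `x`
    obtain ⟨ω', h1, h2, h3, h4, h5⟩ := modif h0 (diag_ne hu x) h (not_rch_of_reached hx h0) hy
    have e1 : step2 (step2 (step2 x e) u) (opp u) = step2 x e := step2_opp _ _
    have e2 : step2 (step2 (step2 x e) u) (opp e) = step2 x u := by
      rw [step2_comm hu, step2_opp]
    have e3 : step2 (step2 x e) (opp e) = x := step2_opp _ _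
    have hne : opp u ≠ opp e := by
      intro h6
      apply hu
      have := congrArg Prod.fst h6
      exact this.symm
    by_cases hz' : Exits n ω' (step2 x u)
    · refine ⟨step2 (step2 x e) u, diag_mem_nbh hu x, ω', fun z hz2 =>
        h1 z (nbh_two (mem_nbh_self 1 x) hz2), h2, h3, opp u, opp e, hne, ?_, ?_⟩
      · rw [e1]
        exact h4 _ hy
      · rw [e2]
        exact hz'
    · obtain ⟨p', ω'', h6, h7, h8⟩ := square1 (e := opp u) (u := opp e) (Ne.symm hu) h2 h3
        (by rw [e1]; exact h4 _ hy) (by rw [e1, e3]; exact h5) (by rw [e2]; exact hz')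
      rw [e2] at h6 h7
      refine ⟨p', ?_, ω'', fun z hz2 => ?_, h8⟩
      · rcases h6 with rfl | rfl
        · exact diag_mem_nbh hu x
        · exact step_mem_nbh x u
      · rw [h7 z (nbh_two (diag_mem_nbh hu x) hz2) (nbh_two (step_mem_nbh x u) hz2),
          h1 z (nbh_two (mem_nbh_self 1 x) hz2)]
  · -- `x` is reached avoiding the diagonal point
    have e1 : step2 (step2 (step2 x e) u) (opp u) = step2 x e := step2_opp _ _
    obtain ⟨ω', h1, h2, h3, h4, h5⟩ := modif (et := opp u) h0 (diag_ne hu x).symm h hw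
      (by rw [e1]; exact hy)
    by_cases hz' : Exits n ω' (step2 x u)
    · exact ⟨x, mem_nbh_self 1 x, ω', fun z hz2 => h1 z (nbh_two (diag_mem_nbh hu x) hz2),
        h2, h3, e, u, heu, h4 _ hy, hz'⟩
    · obtain ⟨p', ω'', h6, h7, h8⟩ := square1 hu h2 h3 (h4 _ hy) h5 hz'
      refine ⟨p', ?_, ω'', fun z hz2 => ?_, h8⟩
      · rcases h6 with rfl | rfl
        · exact mem_nbh_self 1 _
        · exact step_mem_nbh x u
      · rw [h7 z (nbh_two (mem_nbh_self 1 x) hz2) (nbh_two (step_mem_nbh x u) hz2),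
          h1 z (nbh_two (diag_mem_nbh hu x) hz2)]

end NN
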