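import Pool.Agent.H87.NN.Fibre
import Pool.Agent.H87.NN.Laws

/-!
# What the comparison needs numerically

For every `d ≥ 2` an `m` with `1 ≤ m`, `2 m ≤ d` and sequences `a j`, `b j` (`j ≤ 4`) with
`Recu d m j (a j) (b j)` and `a j (d - 2m) ≤ qf (1/10) j`
(`qf (1/10) = 1, 1/2, 1/4 - 1/120 = .241666.., .1125, .05625` for `j = 0,…,4`). For `j = 0` take
`a = b = 1`. We take `m = ⌈d/4⌉` everywhere.
-/

open Finset

namespace NN

/-- what the comparison needs -/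
def NumOK (d : ℕ) : Prop :=
  ∃ m : ℕ, 1 ≤ m ∧ 2 * m ≤ d ∧ ∃ a b : ℕ → ℕ → ℝ, (∀ j ≤ 4, Recu d m j (a j) (b j)) ∧
    ∀ j ≤ 4, a j (d - 2 * m) ≤ qf (1 / 10) j

/-- `j = 0` -/
theorem recu_zero {d m : ℕ} (hd : 1 ≤ d) : Recu d m 0 (fun _ => 1) (fun _ => 1) := by
  have h1 : (1 : ℝ) ≤ d := by exact_mod_cast hd
  have h2 : (0 : ℝ) < 2 * d * (2 * d - 1) := by nlinarith
  refine ⟨fun _ => zero_le_one, fun _ => zero_le_one, fun t _ => ?_, fun t _ => ?_⟩
  · simp only [SS, QQ, Nat.cast_zero, zero_mul, sub_zero, sub_self, Finset.sum_const_zero,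
      mul_zero, one_pow]
    rw [div_le_one h2]
    nlinarith
  · simp only [SS, QQ, Nat.cast_zero, zero_mul, sub_zero, sub_self, Finset.sum_const_zero,
      mul_zero, one_pow]
    rw [div_le_one h2]
    nlinarith

end NN
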