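import Pool.Agent.H87.NN.Enh
import Pool.Agent.H87.NN.ModSum
import Pool.Agent.H87.NN.Barrier
import Pool.Agent.H87.NN.Decay
import Pool.Agent.H87.NN.Half

/-!
# The planar theorem (assembly)

For `t ∈ [0,1]` and finite `S ∋ 0`: `phi t S ≥ 1` (otherwise `exitP t` decays exponentially along
`n + L + 1`, contradicting `exitP t (n-1) ≥ exitP 0 (n-1) ≥ 1/(2n)`). So `psi t S ≥ 1/4`, and
`d/dt exitP t n ≥ c (1 - exitP t n)` on `[0, 1/10]`, whence
`exitP (1/10) n ≥ 1 - exp (-c/10) > 0` for all `n`.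
-/

open Finset

namespace NN

theorem exitP_nonneg {t : ℝ} (h0 : 0 ≤ t) (h1 : t ≤ 1) (n : ℕ) : 0 ≤ exitP t n :=
  Pr_nonneg fun _ _ s => nu_nonneg h0 h1 s

theorem exitP_le_one {t : ℝ} (h0 : 0 ≤ t) (h1 : t ≤ 1) (n : ℕ) : exitP t n ≤ 1 :=
  Pr_le_one (fun _ _ s => nu_nonneg h0 h1 s) (fun _ _ => nu_sum t)

theorem box_le_box {m n : ℕ} (h : m ≤ n) : box m ⊆ box n := by
  have h' : (m : ℤ) ≤ n := by exact_mod_cast h
  intro z hz
  simp only [box, mem_product, mem_Icc] at hz ⊢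
  omega

theorem exists_box_sup (S : Finset (ℤ × ℤ)) : ∃ L, S ⊆ box L := by
  refine ⟨S.sup fun z => z.1.natAbs + z.2.natAbs, fun z hz => ?_⟩
  have h := Finset.le_sup (f := fun z : ℤ × ℤ => z.1.natAbs + z.2.natAbs) hz
  simp only [box, mem_product, mem_Icc]
  have h' : z.1.natAbs + z.2.natAbs ≤ S.sup fun z => z.1.natAbs + z.2.natAbs := h
  omega

theorem phi_nonneg {t : ℝ} (h0 : 0 ≤ t) (h1 : t ≤ 1) (S : Finset (ℤ × ℤ)) : 0 ≤ phi t S :=
  Finset.sum_nonneg fun _ _ => Finset.sum_nonneg fun _ _ =>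
    mul_nonneg (ind_nonneg _) (Pr_nonneg fun _ _ s => nu_nonneg h0 h1 s)

theorem phi_ge_one {t : ℝ} (h0 : 0 ≤ t) (h1 : t ≤ 1) {S : Finset (ℤ × ℤ)}
    (hS0 : (0 : ℤ × ℤ) ∈ S) : 1 ≤ phi t S := by
  by_contra hlt
  push Not at hlt
  obtain ⟨L, hL⟩ := exists_box_sup S
  have hdec : ∀ k : ℕ, exitP t (k * (L + 1)) ≤ phi t S ^ k := by
    intro k
    induction k with
    | zero => simpa using exitP_le_one h0 h1 _
    | succ k ih =>
      have h2 := decay h0 h1 hS0 hL (k * (L + 1))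
      have h3 : (k + 1) * (L + 1) = k * (L + 1) + L + 1 := by ring
      rw [h3, pow_succ, mul_comm (phi t S ^ k)]
      exact h2.trans (mul_le_mul_of_nonneg_left ih (phi_nonneg h0 h1 S))
  have hlow : ∀ k : ℕ, 1 / 2 ≤ ((k * (L + 1) + 1 : ℕ) : ℝ) * phi t S ^ k := by
    intro k
    have h2 := exitP_zero_ge (n := k * (L + 1) + 1) (by omega)
    have h3 := exitP_mono_t h0 h1 (k * (L + 1) + 1 - 1)
    rw [Nat.add_sub_cancel] at h2 h3
    refine h2.trans (mul_le_mul_of_nonneg_left (h3.trans (hdec k)) (Nat.cast_nonneg _))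
  have hlim : Filter.Tendsto (fun k : ℕ => ((k * (L + 1) + 1 : ℕ) : ℝ) * phi t S ^ k)
      Filter.atTop (nhds 0) := by
    have hphi := phi_nonneg h0 h1 S
    have hA := tendsto_self_mul_const_pow_of_lt_one hphi hlt
    have hB := tendsto_pow_atTop_nhds_zero_of_lt_one hphi hlt
    have hC := (hA.const_mul ((L : ℝ) + 1)).add hB
    simp only [mul_zero, add_zero] at hC
    refine hC.congr fun k => ?_
    push_cast
    ring
  have := ge_of_tendsto' hlim hlow
  norm_num at this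

theorem psi_ge {t : ℝ} (h0 : 0 ≤ t) (h1 : t ≤ 1) {S : Finset (ℤ × ℤ)}
    (hS0 : (0 : ℤ × ℤ) ∈ S) : 1 / 4 ≤ psi t S := by
  have h2 := phi_ge_one h0 h1 hS0
  have h3 := phi_le_psi h0 h1 S
  linarith

/-- the constant of the differential inequality -/
noncomputable def dcst : ℝ := 1 / 16 * (1 / (9 * 32 ^ 25)) * (1 / 4)

theorem dcst_pos : 0 < dcst := by unfold dcst; positivity

theorem deriv_exitP_ge {t : ℝ} (h0 : 0 ≤ t) (h1 : t ≤ 1 / 10) (n : ℕ) :
    ∃ D, HasDerivAt (fun t => exitP t n) D t ∧ dcst * (1 - exitP t n) ≤ D := by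
  obtain ⟨D, hD, hD2⟩ := deriv_exitP h0 (h1.trans (by norm_num)) n
  refine ⟨D, hD, le_trans ?_ hD2⟩
  have h2 := barrier h0 (h1.trans (by norm_num)) n (c := 1 / 4) (by norm_num)
    (fun S _ hS => psi_ge h0 (h1.trans (by norm_num)) hS)
  have h3 := K1_sum_le h0 h1 n
  unfold dcst
  have h4 : (0 : ℝ) < 9 * 32 ^ 25 := by positivity
  have h5 : 1 / 4 * (1 - exitP t n) ≤
      9 * 32 ^ 25 * ∑ x ∈ box n, Pr (fun _ => nu t) (box n) (K2 n x) := h2.trans h3
  have h6 : 1 / (9 * 32 ^ 25 : ℝ) * (1 / 4 * (1 - exitP t n)) ≤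
      ∑ x ∈ box n, Pr (fun _ => nu t) (box n) (K2 n x) := by
    rw [one_div, inv_mul_le_iff₀ h4]
    exact h5
  calc 1 / 16 * (1 / (9 * 32 ^ 25)) * (1 / 4) * (1 - exitP t n)
      = 1 / 16 * (1 / (9 * 32 ^ 25 : ℝ) * (1 / 4 * (1 - exitP t n))) := by ring
    _ ≤ _ := mul_le_mul_of_nonneg_left h6 (by norm_num)

/-- **planar theorem** -/
theorem planar : ∃ δ : ℝ, 0 < δ ∧ ∀ n, δ ≤ exitP (1 / 10) n := by
  refine ⟨1 - Real.exp (-(dcst / 10)), ?_, fun n => ?_⟩
  · have : Real.exp (-(dcst / 10)) < 1 := by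
      rw [Real.exp_lt_one_iff]
      have := dcst_pos
      linarith
    linarith
  · -- `g t = (1 - exitP t n) * exp (dcst * t)` is nonincreasing
    have hanti : AntitoneOn (fun t => (1 - exitP t n) * Real.exp (dcst * t))
        (Set.Icc (0 : ℝ) (1 / 10)) := by
      have hder : ∀ t ∈ Set.Icc (0 : ℝ) (1 / 10), ∃ D', HasDerivAt
          (fun t => (1 - exitP t n) * Real.exp (dcst * t)) D' t ∧ D' ≤ 0 := by
        intro t ht
        obtain ⟨D, hD, hD2⟩ := deriv_exitP_ge ht.1 ht.2 n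
        have h3 : HasDerivAt (fun t => Real.exp (dcst * t)) (Real.exp (dcst * t) * (dcst * 1)) t :=
          ((hasDerivAt_id t).const_mul dcst).exp
        have h4 := (hD.const_sub 1).mul h3
        refine ⟨_, h4, ?_⟩
        have h5 := Real.exp_pos (dcst * t)
        have h6 : -D * Real.exp (dcst * t) + (1 - exitP t n) * (Real.exp (dcst * t) * (dcst * 1)) =
            Real.exp (dcst * t) * (dcst * (1 - exitP t n) - D) := by ring
        rw [h6]
        exact mul_nonpos_of_nonneg_of_nonpos h5.le (by linarith)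
      refine antitoneOn_of_deriv_nonpos (convex_Icc _ _) ?_ ?_ ?_
      · intro t ht
        obtain ⟨D', hD', _⟩ := hder t ht
        exact hD'.continuousAt.continuousWithinAt
      · intro t ht
        obtain ⟨D', hD', _⟩ := hder t (interior_subset ht)
        exact hD'.differentiableAt.differentiableWithinAt
      · intro t ht
        obtain ⟨D', hD', h'⟩ := hder t (interior_subset ht)
        rw [hD'.deriv]
        exact h'
    have h2 := hanti (Set.left_mem_Icc.2 (by norm_num)) (Set.right_mem_Icc.2 (by norm_num))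
      (by norm_num : (0 : ℝ) ≤ 1 / 10)
    simp only [mul_zero, Real.exp_zero, mul_one] at h2
    have h3 : 1 - exitP 0 n ≤ 1 := by
      have := exitP_nonneg le_rfl zero_le_one n
      linarith
    have h4 : (1 - exitP (1 / 10) n) * Real.exp (dcst * (1 / 10)) ≤ 1 := h2.trans h3
    have h5 : 1 - exitP (1 / 10) n ≤ Real.exp (-(dcst / 10)) := by
      rw [Real.exp_neg, show dcst / 10 = dcst * (1 / 10) by ring]
      rw [← one_div, le_div_iff₀ (Real.exp_pos _)]
      exact h4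
    linarith

end NN
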